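import Pool.Agent.Lib.MP_e7d961_lc.SC.Stm

/-!
`MP_e7d961_lc`, project SC, piece [actc]: the number of active ports.
-/

namespace SDich.SC

open Finset HerCo CookLevin

theorem p_actc : S_actc := by
  intro hd h
  cases h with
  | s x => 
    rw [hd.1 x]
    simp [act]
  | z j u v => 
    rw [hd.2.1 j u v]
    revert j u v
    decide
  | ls x => 
    rw [hd.2.2.1 x]
    simp only [act, decide_eq_true_eq]
    decide
  | lz u v => 
    rw [hd.2.2.2 u v]
    simp only [act, decide_eq_true_eq]
    decide

end SDich.SC
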