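import Pool.Agent.Lib.MP_e7d961_lc.SC.Stm

/-!
Piece `alg1`: `adjB`, `dgB`, `nbB`, `locB` for the code of a simple graph.
-/

set_option autoImplicit false

namespace SDich.SC

open Finset

private theorem alg1_sumB (N : ℕ) (p : ℕ → Bool) (f : ℕ → ℕ) :
    sumB N p f = ∑ a : Fin N, if p a = true then f a else 0 := by
  unfold sumB
  induction N with
  | zero => simp
  | succ N ih =>
    rw [List.range_succ, List.flatMap_append, List.length_append, ih, Fin.sum_univ_castSucc]
    congr 1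
    simp only [List.flatMap_cons, List.flatMap_nil, List.append_nil, Fin.val_last]
    split_ifs <;> simp

private theorem alg1_count (s : List Bool) (j : ℕ) (a : Fin (numV s)) :
    (endsOf s j).count a = entry s j a := by
  unfold endsOf
  rw [Multiset.count_sum', Finset.sum_eq_single a]
  · rw [Multiset.count_replicate_self]
  · intro b _ hb
    rw [Multiset.count_replicate, if_neg hb]
  · intro h
    exact absurd (Finset.mem_univ a) h

private theorem alg1_adj (s : List Bool) (h : IsCode s) (hs : (graphOf s h).Simple)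
    (a b : Fin (numV s)) : adjB s a b = true ↔ (sgr (graphOf s h)).Adj a b := by
  unfold adjB
  rw [Bool.and_eq_true, Bool.not_eq_true', decide_eq_false_iff_not, List.any_eq_true]
  show _ ↔ a ≠ b ∧ ∃ e : Fin (numE s), endsOf s e = {a, b}
  constructor
  · rintro ⟨hab, j, hj, h1⟩
    rw [Bool.and_eq_true, decide_eq_true_eq, decide_eq_true_eq] at h1
    have hne : a ≠ b := fun e => hab (congrArg Fin.val e)
    refine ⟨hne, ⟨⟨j, List.mem_range.1 hj⟩, ?_⟩⟩
    have hc : (endsOf s j).card = 2 := (hs.1 (⟨j, List.mem_range.1 hj⟩ : Fin (numE s))).1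
    show endsOf s j = {a, b}
    symm
    refine Multiset.eq_of_le_of_card_le ?_ ?_
    · rw [Multiset.le_iff_count]
      intro c
      rw [alg1_count, Multiset.insert_eq_cons, Multiset.count_cons, Multiset.count_singleton]
      by_cases hca : c = a
      · subst hca
        rw [if_pos rfl, if_neg hne, h1.1]
      · rw [if_neg hca]
        by_cases hcb : c = b
        · subst hcb
          rw [if_pos rfl, h1.2]
        · rw [if_neg hcb]
          exact Nat.zero_le _
    · rw [hc]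
      exact le_refl _
  · rintro ⟨hne, e, he⟩
    refine ⟨fun e => hne (Fin.ext e), e.val, List.mem_range.2 e.isLt, ?_⟩
    rw [Bool.and_eq_true, decide_eq_true_eq, decide_eq_true_eq, ← alg1_count, ← alg1_count, he,
      Multiset.insert_eq_cons, Multiset.count_cons, Multiset.count_cons, Multiset.count_singleton,
      Multiset.count_singleton, if_pos rfl, if_pos rfl, if_neg hne, if_neg hne.symm]
    exact ⟨rfl, rfl⟩

private theorem alg1_dg (s : List Bool) (h : IsCode s) (hs : (graphOf s h).Simple)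
    (a : Fin (numV s)) : dgB s a = dg (sgr (graphOf s h)) a := by
  classical
  unfold dgB dg
  rw [alg1_sumB, Finset.card_filter]
  show ∑ b : Fin (numV s), _ = ∑ b : Fin (numV s), _
  refine Finset.sum_congr rfl fun b _ => ?_
  by_cases hb : (sgr (graphOf s h)).Adj a b
  · rw [if_pos hb, if_pos ((alg1_adj s h hs a b).2 hb)]
  · rw [if_neg hb, if_neg (fun h1 => hb ((alg1_adj s h hs a b).1 h1))]

private theorem alg1_nb (s : List Bool) (h : IsCode s) (hs : (graphOf s h).Simple)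
    (a : Fin (numV s)) (d : ℕ) : nbB s a d = nb (sgr (graphOf s h)) a d := by
  classical
  unfold nbB nb
  rw [alg1_sumB, Finset.card_filter]
  show ∑ b : Fin (numV s), _ = ∑ b : Fin (numV s), _
  refine Finset.sum_congr rfl fun b _ => ?_
  have h1 : (adjB s a b && decide (dgB s b = d)) = true ↔
      (sgr (graphOf s h)).Adj a b ∧ dg (sgr (graphOf s h)) b = d := by
    rw [Bool.and_eq_true, decide_eq_true_eq, alg1_adj s h hs a b, alg1_dg s h hs b]
  by_cases hb : (sgr (graphOf s h)).Adj a b ∧ dg (sgr (graphOf s h)) b = d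
  · rw [if_pos hb, if_pos (h1.2 hb)]
  · rw [if_neg hb, if_neg (fun h2 => hb (h1.1 h2))]

theorem p_alg1 : S_alg1 := by
  intro s h hs
  refine ⟨alg1_adj s h hs, alg1_dg s h hs, alg1_nb s h hs, ?_⟩
  unfold locB
  rw [List.all_eq_true]
  constructor
  · intro h1 (v : Fin (numV s))
    have h2 := h1 v.val (List.mem_range.2 v.isLt)
    simp only [Bool.and_eq_true, Bool.or_eq_true, decide_eq_true_eq, alg1_dg s h hs,
      alg1_nb s h hs] at h2
    rcases h2 with (((h2 | h2) | h2) | h2) | h2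
    · exact Or.inl ⟨h2.1.1.1.1.1, h2.1.1.1.1.2, h2.1.1.1.2, h2.1.1.2, h2.1.2, h2.2⟩
    · exact Or.inr (Or.inl ⟨h2.1.1, h2.1.2, h2.2⟩)
    · exact Or.inr (Or.inr (Or.inl ⟨h2.1.1, h2.1.2, h2.2⟩))
    · exact Or.inr (Or.inr (Or.inr (Or.inl ⟨h2.1.1.1, h2.1.1.2, h2.1.2, h2.2⟩)))
    · exact Or.inr (Or.inr (Or.inr (Or.inr ⟨h2.1, h2.2⟩)))
  · intro h1 j hj
    have h2 := h1 (⟨j, List.mem_range.1 hj⟩ : Fin (numV s))
    have e1 : dgB s j = dg (sgr (graphOf s h)) (⟨j, List.mem_range.1 hj⟩ : Fin (numV s)) :=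
      alg1_dg s h hs ⟨j, List.mem_range.1 hj⟩
    have e2 : ∀ d, nbB s j d = nb (sgr (graphOf s h)) (⟨j, List.mem_range.1 hj⟩ : Fin (numV s)) d :=
      fun d => alg1_nb s h hs ⟨j, List.mem_range.1 hj⟩ d
    simp only [Bool.and_eq_true, Bool.or_eq_true, decide_eq_true_eq, e1, e2]
    rcases h2 with h2 | h2 | h2 | h2 | h2
    · exact Or.inl (Or.inl (Or.inl (Or.inl
        ⟨⟨⟨⟨⟨h2.1, h2.2.1⟩, h2.2.2.1⟩, h2.2.2.2.1⟩, h2.2.2.2.2.1⟩, h2.2.2.2.2.2⟩)))
    · exact Or.inl (Or.inl (Or.inl (Or.inr ⟨⟨h2.1, h2.2.1⟩, h2.2.2⟩)))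
    · exact Or.inl (Or.inl (Or.inr ⟨⟨h2.1, h2.2.1⟩, h2.2.2⟩))
    · exact Or.inl (Or.inr ⟨⟨⟨h2.1, h2.2.1⟩, h2.2.2.1⟩, h2.2.2.2⟩)
    · exact Or.inr ⟨h2.1, h2.2⟩

end SDich.SC
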