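import Pool.Agent.Lib.MP_e7d961_lc.SC.Stm

/-!
Piece `[SC alg2]` of the project SC (`MP_e7d961_lc`).
-/

namespace SDich.SC

open Finset HerCo CookLevin

/-- `caB` for the code of a simple graph. -/
private theorem alg2_caB (h1 : S_alg1) (s : List Bool) (h : IsCode s)
    (hs : (graphOf s h).Simple) (a b : Fin (numV s)) :
    caB s a b = true ↔ CA (sgr (graphOf s h)) a b := by
  obtain ⟨hadj, hdg, -, -⟩ := h1 s h hs
  unfold caB CA
  rw [Bool.and_eq_true, Bool.and_eq_true, decide_eq_true_iff, decide_eq_true_iff, hadj a b,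
    hdg a, hdg b, and_assoc]

/-- quotient and remainder of `a n + b` -/
private theorem alg2_div (n : ℕ) (a b : Fin n) : ((a : ℕ) * n + b) / n = a := by
  have hn : 0 < n := lt_of_le_of_lt (Nat.zero_le _) a.2
  rw [Nat.add_comm, Nat.add_mul_div_right _ _ hn, Nat.div_eq_of_lt b.2, Nat.zero_add]

private theorem alg2_mod (n : ℕ) (a b : Fin n) : ((a : ℕ) * n + b) % n = b := by
  rw [Nat.add_comm, Nat.add_mul_mod_self_right, Nat.mod_eq_of_lt b.2]

/-- `lnkB` for the code of a simple graph. -/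
private theorem alg2_lnkB (h1 : S_alg1) (s : List Bool) (h : IsCode s)
    (hs : (graphOf s h).Simple) (p q : Fin (numV s) × Fin (numV s)) (π : Bool) :
    lnkB s (p.1 * numV s + p.2) (q.1 * numV s + q.2) π = true ↔
      lnk (sgr (graphOf s h)) p q π := by
  obtain ⟨a, b⟩ := p
  obtain ⟨c, d⟩ := q
  unfold lnkB lnk
  dsimp only
  rw [alg2_div, alg2_mod, alg2_div, alg2_mod]
  rw [Bool.and_eq_true, Bool.and_eq_true, alg2_caB h1 s h hs a b, alg2_caB h1 s h hs c d,
    and_assoc]
  refine and_congr Iff.rfl (and_congr Iff.rfl ?_)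
  have e1 : ((c : ℕ) = b) ↔ c = b := Fin.ext_iff.symm
  have e2 : ((d : ℕ) = a) ↔ d = a := Fin.ext_iff.symm
  have e3 : ((c : ℕ) = a) ↔ c = a := Fin.ext_iff.symm
  have e4 : ((d : ℕ) = b) ↔ d = b := Fin.ext_iff.symm
  cases π
  · simp only [e1, e2, e3, e4, Bool.not_false, Bool.true_and, Bool.false_and, Bool.or_false,
      Bool.and_eq_true, decide_eq_true_eq, true_and, Bool.false_eq_true, false_and, or_false]
    exact Iff.rfl
  · simp only [e1, e2, e3, e4, Bool.not_true, Bool.true_and, Bool.false_and, Bool.false_or,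
      Bool.and_eq_true, decide_eq_true_eq, true_and, Bool.true_eq_false, false_and, false_or,
      Bool.not_eq_true', decide_eq_false_iff_not]
    exact Iff.rfl

/-- [alg2] -/
theorem p_alg2 : S_alg2 := by
  intro h1 h3 hsr s h hs a
  have hε : ∀ p : Fin (numV s) × Fin (numV s), (p.1 : ℕ) * numV s + p.2 < numV s * numV s := by
    rintro ⟨x, y⟩
    have hx : (x : ℕ) + 1 ≤ numV s := x.2
    have := Nat.mul_le_mul_right (numV s) hx
    have hy := y.2
    simp only
    nlinarith
  have hinj : Function.Injective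
      fun p : Fin (numV s) × Fin (numV s) => (p.1 : ℕ) * numV s + p.2 := by
    rintro ⟨x, y⟩ ⟨x', y'⟩ he
    simp only at he
    have hx : (x : ℕ) = x' := by rw [← alg2_div (numV s) x y, ← alg2_div (numV s) x' y', he]
    have hy : (y : ℕ) = y' := by rw [← alg2_mod (numV s) x y, ← alg2_mod (numV s) x' y', he]
    rw [Prod.mk.injEq]
    exact ⟨Fin.ext hx, Fin.ext hy⟩
  have hsurj : ∀ m < numV s * numV s,
      ∃ p : Fin (numV s) × Fin (numV s), (p.1 : ℕ) * numV s + p.2 = m := by
    intro m hm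
    have hpos : 0 < numV s := by
      rcases Nat.eq_zero_or_pos (numV s) with h0 | h0
      · rw [h0] at hm; omega
      · exact h0
    refine ⟨(⟨m / numV s, Nat.div_lt_of_lt_mul hm⟩, ⟨m % numV s, Nat.mod_lt _ hpos⟩), ?_⟩
    show m / numV s * numV s + m % numV s = m
    rw [Nat.mul_comm]
    exact Nat.div_add_mod m (numV s)
  have key : ∀ p : Fin (numV s) × Fin (numV s), OddN (lnk (sgr (graphOf s h))) p ↔
      srch (numV s * numV s) (lnkB s) ((p.1 : ℕ) * numV s + p.2) = true := by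
    intro p
    rw [hsr (numV s * numV s) (lnkB s) _ (hε p)]
    exact h3 (Fin (numV s) × Fin (numV s)) (lnk (sgr (graphOf s h))) (numV s * numV s)
      (fun p => (p.1 : ℕ) * numV s + p.2) (lnkB s) hinj hε hsurj
      (fun u v π => alg2_lnkB h1 s h hs u v π) p
  unfold zeroB
  rw [List.any_eq_true]
  constructor
  · rintro ⟨b, hb, hb'⟩
    rw [List.mem_range] at hb
    rw [Bool.and_eq_true] at hb'
    refine ⟨(⟨b, hb⟩ : Fin (numV s)), ?_, ?_⟩
    · exact (alg2_caB h1 s h hs a ⟨b, hb⟩).1 hb'.1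
    · exact (key (a, ⟨b, hb⟩)).2 hb'.2
  · rintro ⟨(b : Fin (numV s)), hb, hb'⟩
    refine ⟨(b : ℕ), List.mem_range.2 b.2, ?_⟩
    rw [Bool.and_eq_true]
    exact ⟨(alg2_caB h1 s h hs a b).2 hb, (key (a, b)).1 hb'⟩

end SDich.SC
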