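import Pool.Agent.Lib.MP_e7d961_lc.SC.Stm

/-!
[alg3] the nodes of the signed graph of the equations.
-/

namespace SDich.SC

open Finset HerCo CookLevin

/-- the number of a node -/
private def alg3_e (n : ℕ) : Option (Fin n × Fin 3) → ℕ
  | some p => 3 * (p.1 : ℕ) + (p.2 : ℕ)
  | none => 3 * n

private lemma alg3_lt {n : ℕ} (p : Fin n × Fin 3) : 3 * (p.1 : ℕ) + (p.2 : ℕ) < 3 * n := by
  have h1 := p.1.2
  have h2 := p.2.2
  omega

private lemma alg3_div {n : ℕ} (p : Fin n × Fin 3) : (3 * (p.1 : ℕ) + (p.2 : ℕ)) / 3 = p.1 := by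
  have h2 := p.2.2
  omega

private lemma alg3_mod {n : ℕ} (p : Fin n × Fin 3) : (3 * (p.1 : ℕ) + (p.2 : ℕ)) % 3 = p.2 := by
  have h2 := p.2.2
  omega

private lemma alg3_inj (n : ℕ) : Function.Injective (alg3_e n) := by
  intro u v huv
  cases u with
  | none =>
    cases v with
    | none => rfl
    | some q =>
      have := alg3_lt q
      simp only [alg3_e] at huv
      omega
  | some p =>
    cases v with
    | none =>
      have := alg3_lt p
      simp only [alg3_e] at huv
      omega
    | some q =>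
      simp only [alg3_e] at huv
      have h1 := p.2.2
      have h2 := q.2.2
      congr 1
      apply Prod.ext
      · apply Fin.ext
        omega
      · apply Fin.ext
        omega

private lemma alg3_ub (n : ℕ) (u : Option (Fin n × Fin 3)) : alg3_e n u < 3 * n + 1 := by
  cases u with
  | none => simp only [alg3_e]; omega
  | some p =>
    have := alg3_lt p
    simp only [alg3_e]
    omega

private lemma alg3_sur (n m : ℕ) (hm : m < 3 * n + 1) : ∃ u, alg3_e n u = m := by
  rcases Nat.lt_or_ge m (3 * n) with h | h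
  · refine ⟨some (⟨m / 3, by omega⟩, ⟨m % 3, Nat.mod_lt _ (by norm_num)⟩), ?_⟩
    simp only [alg3_e]
    omega
  · exact ⟨none, by simp only [alg3_e]; omega⟩

theorem p_alg3 : S_alg3 := by
  intro h1 h2 h3 h4 s h hs
  obtain ⟨hadj, hdg, _, _⟩ := h1 s h hs
  have hz := h2 h1 h3 h4 s h hs
  set S := sgr (graphOf s h) with hS
  -- the relations
  have hsame : ∀ (i : Fin 3) (a b : Fin (numV s)), sameB s i a b = true ↔ Same S i a b := by
    intro i a b
    unfold sameB Same
    simp only [Bool.and_eq_true, Bool.not_eq_true', decide_eq_false_iff_not]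
    rw [hadj a b, hdg a, hdg b]
    tauto
  have hdif : ∀ (i : Fin 3) (a b : Fin (numV s)), difB s i a b = true ↔ Dif S i a b := by
    intro i a b
    unfold difB Dif
    simp only [Bool.and_eq_true, Bool.not_eq_true', decide_eq_false_iff_not, decide_eq_true_eq,
      List.any_eq_true, List.mem_range]
    rw [hdg a, hdg b]
    constructor
    · rintro ⟨⟨⟨h5, h6⟩, h7⟩, w, hw, ⟨h8, h9⟩, h10⟩
      refine ⟨fun h0 => h5 (by rw [h0]), h6, h7, (⟨w, hw⟩ : Fin (numV s)), ?_, ?_, ?_⟩
      · rw [← hdg ⟨w, hw⟩]; exact h8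
      · exact (hadj a ⟨w, hw⟩).1 h9
      · exact (hadj b ⟨w, hw⟩).1 h10
    · rintro ⟨h5, h6, h7, w, h8, h9, h10⟩
      have hw : (w : Fin (numV s)).1 < numV s := (w : Fin (numV s)).2
      refine ⟨⟨⟨fun h0 => h5 (Fin.ext h0), h6⟩, h7⟩, (w : Fin (numV s)).1, hw, ⟨?_, ?_⟩, ?_⟩
      · rw [hdg w]; exact h8
      · exact (hadj a w).2 h9
      · exact (hadj b w).2 h10
  have hrel : ∀ (u v : Option (Fin (numV s) × Fin 3)) (π : Bool),
      l2B s (alg3_e (numV s) u) (alg3_e (numV s) v) π = true ↔ L2 S u v π := by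
    intro u v π
    cases u with
    | none =>
      cases v with
      | none =>
        have h5 : ¬ (3 * numV s < 3 * numV s) := lt_irrefl _
        simp [alg3_e, l2B, L2]
      | some q =>
        have hq := alg3_lt q
        have hq' : ¬ (3 * (q.1 : ℕ) + (q.2 : ℕ) = 3 * numV s) := hq.ne
        have h6 := hz q.1
        simp only [alg3_e, l2B, L2, lt_self_iff_false, decide_false, Bool.false_and,
          Bool.false_or, hq, decide_true, Bool.true_and, alg3_div,
          Bool.and_eq_true, Bool.not_eq_true', h6]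
    | some p =>
      have hp := alg3_lt p
      have hp' : ¬ (3 * (p.1 : ℕ) + (p.2 : ℕ) = 3 * numV s) := hp.ne
      cases v with
      | none =>
        have h6 := hz p.1
        simp only [alg3_e, l2B, L2, lt_self_iff_false, decide_false, Bool.and_false,
          Bool.false_and, Bool.false_or, Bool.or_false, hp, hp', decide_true, Bool.true_and,
          alg3_div, Bool.and_eq_true, Bool.not_eq_true', h6]
      | some q =>
        have hq := alg3_lt q
        have hq' : ¬ (3 * (q.1 : ℕ) + (q.2 : ℕ) = 3 * numV s) := hq.ne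
        have h7 := hsame p.2 p.1 q.1
        have h8 := hdif p.2 p.1 q.1
        simp only [alg3_e, l2B, L2, decide_false, Bool.and_false,
          Bool.false_and, Bool.or_false, hp, hp', hq, hq', decide_true,
          Bool.true_and, alg3_div, alg3_mod, Bool.and_eq_true, Bool.or_eq_true,
          Bool.not_eq_true', decide_eq_true_eq, h7, h8]
        rw [Fin.ext_iff]
  have hsg := h3 (Option (Fin (numV s) × Fin 3)) (L2 S) (3 * numV s + 1) (alg3_e (numV s)) (l2B s)
    (alg3_inj _) (alg3_ub _) (fun m hm => alg3_sur _ m hm) hrel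
  rw [List.all_eq_true]
  constructor
  · intro hall u hu
    have h5 := hall (alg3_e (numV s) u) (List.mem_range.2 (alg3_ub _ u))
    have h6 : srch (3 * numV s + 1) (l2B s) (alg3_e (numV s) u) = true :=
      (h4 _ _ _ (alg3_ub _ u)).2 ((hsg u).1 hu)
    rw [h6] at h5
    exact absurd h5 (by decide)
  · intro hall m hm
    rw [List.mem_range] at hm
    obtain ⟨u, rfl⟩ := alg3_sur (numV s) m hm
    have h5 : ¬ srch (3 * numV s + 1) (l2B s) (alg3_e (numV s) u) = true := by
      rw [h4 _ _ _ (alg3_ub _ u)]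
      exact fun h6 => hall u ((hsg u).2 h6)
    rw [Bool.not_eq_true] at h5
    rw [h5]
    rfl

end SDich.SC
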