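import Pool.Agent.Lib.MP_e7d961_lc.SC.Stm

/-!
The incidence matrix code of a graph given by darts (piece `cd`).
-/

namespace SDich.SC

open Finset

/-- the condition for a row -/
private def dcP (R : ℕ → ℕ → ℕ → ℕ → Bool) (q : (ℕ × ℕ) × (ℕ × ℕ)) : Bool :=
  R q.1.1 q.1.2 q.2.1 q.2.2 &&
    (decide (q.1.1 < q.2.1) || (decide (q.1.1 = q.2.1) && decide (q.1.2 ≤ q.2.2)))

/-- pairs `(a, p)` -/
private def dcN (N : ℕ) : List (ℕ × ℕ) := List.product (List.range N) (List.range 6)

/-- the list of edges -/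
private def dcL (N : ℕ) (R : ℕ → ℕ → ℕ → ℕ → Bool) : List ((ℕ × ℕ) × (ℕ × ℕ)) :=
  (List.product (dcN N) (dcN N)).filter (dcP R)

/-- the default entry -/
private def dc0 : (ℕ × ℕ) × (ℕ × ℕ) := ((0, 0), (0, 0))

/-- the row of an edge -/
private def dcR (N : ℕ) (q : (ℕ × ℕ) × (ℕ × ℕ)) : List Bool := rowD N q.1.1 q.1.2 q.2.1 q.2.2

private theorem dc_mem {N : ℕ} {R : ℕ → ℕ → ℕ → ℕ → Bool} {q : (ℕ × ℕ) × (ℕ × ℕ)} :
    q ∈ dcL N R ↔ (q.1.1 < N ∧ q.1.2 < 6) ∧ (q.2.1 < N ∧ q.2.2 < 6) ∧
      R q.1.1 q.1.2 q.2.1 q.2.2 = true ∧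
      (q.1.1 < q.2.1 ∨ (q.1.1 = q.2.1 ∧ q.1.2 ≤ q.2.2)) := by
  rcases q with ⟨⟨a, p⟩, ⟨b, p'⟩⟩
  simp [dcL, dcN, dcP, List.mem_filter, and_assoc]

private theorem dc_nodup (N : ℕ) (R : ℕ → ℕ → ℕ → ℕ → Bool) : (dcL N R).Nodup :=
  List.Nodup.filter _ (List.Nodup.product (List.Nodup.product List.nodup_range List.nodup_range)
    (List.Nodup.product List.nodup_range List.nodup_range))

private theorem dc_flat {α β : Type} (l : List α) (p : α → Bool) (g : α → List β) :
    (l.flatMap fun a => if p a then g a else []) = (l.filter p).flatMap g := by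
  induction l with
  | nil => rfl
  | cons x l ih =>
    rw [List.flatMap_cons, ih, List.filter_cons]
    by_cases h : p x
    · simp [h]
    · simp [h]

private theorem dc_body (N : ℕ) (R : ℕ → ℕ → ℕ → ℕ → Bool) :
    codeD N R = List.replicate N true ++ false :: ((dcL N R).flatMap (dcR N)) := by
  have h := dc_flat (List.product (dcN N) (dcN N)) (dcP R) (dcR N)
  unfold codeD dcL
  rw [← h]
  congr 2
  simp only [dcN, List.product, List.flatMap_assoc, List.flatMap_map, dcP, dcR]

private theorem dc_getD {α β : Type} (f : α → List β) (c : ℕ) (d : β) (d' : α)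
    (hf : ∀ a, (f a).length = c) :
    ∀ (l : List α) (j r : ℕ), j < l.length → r < c →
      (l.flatMap f).getD (j * c + r) d = (f (l.getD j d')).getD r d := by
  intro l
  induction l with
  | nil => intro j r hj; simp at hj
  | cons x l ih =>
    intro j r hj hr
    rw [List.flatMap_cons]
    cases j with
    | zero =>
      rw [Nat.zero_mul, Nat.zero_add, List.getD_append _ _ _ _ (by rw [hf]; exact hr)]
      simp
    | succ j =>
      rw [List.getD_append_right _ _ _ _ (by rw [hf]; nlinarith)]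
      have e : (j + 1) * c + r - (f x).length = j * c + r := by
        rw [hf]
        have : (j + 1) * c = j * c + c := by ring
        omega
      rw [e, ih j r (by simpa using hj) hr]
      simp

private theorem dc_len {α β : Type} (f : α → List β) (c : ℕ) (hf : ∀ a, (f a).length = c)
    (l : List α) : (l.flatMap f).length = l.length * c := by
  induction l with
  | nil => simp
  | cons x l ih =>
    rw [List.flatMap_cons, List.length_append, ih, hf, List.length_cons]
    ring

private theorem dc_row_len (N : ℕ) (q : (ℕ × ℕ) × (ℕ × ℕ)) : (dcR N q).length = 2 * N := by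
  have h := dc_len (fun c => [decide (c = q.1.1), decide (c = q.2.1) &&
    !(decide (q.1.1 = q.2.1) && decide (q.1.2 = q.2.2))]) 2 (fun _ => rfl) (List.range N)
  rw [List.length_range, mul_comm] at h
  exact h

private theorem dc_row_get (N : ℕ) (q : (ℕ × ℕ) × (ℕ × ℕ)) (c t : ℕ) (hc : c < N) (ht : t < 2) :
    (dcR N q).getD (2 * c + t) false = [decide (c = q.1.1), decide (c = q.2.1) &&
      !(decide (q.1.1 = q.2.1) && decide (q.1.2 = q.2.2))].getD t false := by
  have h := dc_getD (fun c => [decide (c = q.1.1), decide (c = q.2.1) &&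
    !(decide (q.1.1 = q.2.1) && decide (q.1.2 = q.2.2))]) 2 false 0 (fun _ => rfl)
    (List.range N) c t (by rw [List.length_range]; exact hc) ht
  have e : (List.range N).getD c 0 = c := by
    rw [List.getD_eq_getElem _ _ (by rw [List.length_range]; exact hc), List.getElem_range]
  rw [e, mul_comm c 2] at h
  exact h

private theorem dc_numV (N : ℕ) (R : ℕ → ℕ → ℕ → ℕ → Bool) : numV (codeD N R) = N := by
  rw [dc_body]
  unfold numV
  have h : ∀ (n : ℕ) (l : List Bool),
      ((List.replicate n true ++ false :: l).takeWhile id).length = n := by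
    intro n l
    induction n with
    | zero => simp
    | succ n ih =>
      rw [List.replicate_succ, List.cons_append, List.takeWhile_cons]
      simp only [id, if_true, List.length_cons]
      exact congrArg (· + 1) ih
  exact h _ _

private theorem dc_length (N : ℕ) (R : ℕ → ℕ → ℕ → ℕ → Bool) :
    (codeD N R).length = N + 1 + (dcL N R).length * (2 * N) := by
  rw [dc_body, List.length_append, List.length_cons, List.length_replicate,
    dc_len (dcR N) (2 * N) (dc_row_len N)]
  ring

private theorem dc_numE (N : ℕ) (R : ℕ → ℕ → ℕ → ℕ → Bool) (hN : 0 < N) :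
    numE (codeD N R) = (dcL N R).length := by
  unfold numE
  rw [dc_numV, dc_length]
  have e : N + 1 + (dcL N R).length * (2 * N) - N - 1 = (dcL N R).length * (2 * N) := by
    omega
  rw [e]
  exact Nat.mul_div_cancel _ (by omega)

private theorem dc_bit (N : ℕ) (R : ℕ → ℕ → ℕ → ℕ → Bool) (j c t : ℕ)
    (hj : j < (dcL N R).length) (hc : c < N) (ht : t < 2) (q : (ℕ × ℕ) × (ℕ × ℕ))
    (hq : (dcL N R).getD j dc0 = q) :
    bit (codeD N R) j c t = [decide (c = q.1.1), decide (c = q.2.1) &&
      !(decide (q.1.1 = q.2.1) && decide (q.1.2 = q.2.2))].getD t false := by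
  unfold bit
  rw [dc_numV, dc_body, List.getD_append_right _ _ _ _
    (by rw [List.length_replicate]; omega), List.length_replicate]
  have e : N + 1 + j * (2 * N) + 2 * c + t - N = (j * (2 * N) + (2 * c + t)) + 1 := by omega
  rw [e, List.getD_cons_succ, dc_getD (dcR N) (2 * N) false dc0
    (dc_row_len N) _ j (2 * c + t) hj (by omega), dc_row_get _ _ _ _ hc ht, hq]

private theorem dc_entry (N : ℕ) (R : ℕ → ℕ → ℕ → ℕ → Bool) (j c : ℕ)
    (hj : j < (dcL N R).length) (hc : c < N) (q : (ℕ × ℕ) × (ℕ × ℕ))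
    (hq : (dcL N R).getD j dc0 = q) :
    entry (codeD N R) j c = (if c = q.1.1 then 1 else 0) +
      (if c = q.2.1 ∧ q.1 ≠ q.2 then 1 else 0) := by
  unfold entry
  rw [dc_bit N R j c 0 hj hc (by norm_num) q hq, dc_bit N R j c 1 hj hc (by norm_num) q hq]
  rcases q with ⟨⟨a, p⟩, ⟨b, p'⟩⟩
  congr 1
  · by_cases h : c = a
    · simp [h]
    · simp [h]
  · by_cases h : c = b
    · by_cases h2 : a = b ∧ p = p'
      · obtain ⟨h3, h4⟩ := h2
        subst h3; subst h4
        simp
      · have h5 : ((a, p) : ℕ × ℕ) ≠ (b, p') := by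
          intro h6
          exact h2 ⟨congrArg Prod.fst h6, congrArg Prod.snd h6⟩
        rw [if_pos ⟨h, h5⟩]
        have h7 : (decide (a = b) && decide (p = p')) = false := by
          rw [Bool.and_eq_false_iff]
          simp only [decide_eq_false_iff_not]
          tauto
        simp [h, h7]
    · simp [h]

private theorem dc_ends (N : ℕ) (R : ℕ → ℕ → ℕ → ℕ → Bool) (j : ℕ)
    (hj : j < (dcL N R).length) (q : (ℕ × ℕ) × (ℕ × ℕ))
    (hq : (dcL N R).getD j dc0 = q) (x y : Fin (numV (codeD N R)))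
    (hx : (x : ℕ) = q.1.1) (hy : (y : ℕ) = q.2.1) :
    (q.1 = q.2 → endsOf (codeD N R) j = {x}) ∧ (q.1 ≠ q.2 → endsOf (codeD N R) j = {x, y}) := by
  have key : ∀ c : Fin (numV (codeD N R)), (endsOf (codeD N R) j).count c =
      (if c = x then 1 else 0) + (if c = y ∧ q.1 ≠ q.2 then 1 else 0) := by
    intro c
    have hc : (c : ℕ) < N := by have := c.2; have := dc_numV N R; omega
    unfold endsOf
    rw [Multiset.count_sum']
    simp only [Multiset.count_replicate]
    have e : ∑ a : Fin (numV (codeD N R)), (if a = c then entry (codeD N R) j a else 0) =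
        entry (codeD N R) j c := by
      rw [Finset.sum_ite_eq' univ c (fun a => entry (codeD N R) j a)]
      simp
    rw [e, dc_entry N R j c hj hc q hq, ← hx, ← hy]
    simp only [Fin.ext_iff]
  constructor
  · intro h
    ext c
    rw [key c, Multiset.count_singleton]
    simp [h]
  · intro h
    ext c
    rw [key c, Multiset.insert_eq_cons, Multiset.count_cons, Multiset.count_singleton]
    simp only [h, ne_eq, not_false_eq_true, and_true]
    rw [Nat.add_comm]

private theorem dc_getD_mem (N : ℕ) (R : ℕ → ℕ → ℕ → ℕ → Bool) (j : ℕ)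
    (hj : j < (dcL N R).length) : (dcL N R).getD j dc0 ∈ dcL N R := by
  rw [List.getD_eq_getElem _ _ hj]
  exact List.getElem_mem hj

private theorem dc_isCode (N : ℕ) (R : ℕ → ℕ → ℕ → ℕ → Bool) (hN : 0 < N) :
    IsCode (codeD N R) := by
  refine ⟨by rw [dc_numV]; exact hN, ?_, ?_⟩
  · rw [dc_length, dc_numE N R hN, dc_numV]
  · intro j hj
    rw [dc_numE N R hN] at hj
    obtain ⟨⟨h1, _⟩, ⟨h2, _⟩, _⟩ := dc_mem.mp (dc_getD_mem N R j hj)
    have hV := dc_numV N R
    obtain ⟨e1, e2⟩ := dc_ends N R j hj _ rfl ⟨_, by rw [hV]; exact h1⟩ ⟨_, by rw [hV]; exact h2⟩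
      rfl rfl
    by_cases h : ((dcL N R).getD j dc0).1 = ((dcL N R).getD j dc0).2
    · left
      rw [e1 h]
      simp
    · right
      rw [e2 h]
      simp

/-- numbers of a dart -/
private def dcv {N : ℕ} (d : Fin N × Fin 6) : ℕ × ℕ := ((d.1 : ℕ), (d.2 : ℕ))

private theorem dcv_inj {N : ℕ} {d d' : Fin N × Fin 6} (h : dcv d = dcv d') : d = d' := by
  have h1 := congrArg Prod.fst h
  have h2 := congrArg Prod.snd h
  exact Prod.ext (Fin.ext h1) (Fin.ext h2)

/-- the order -/
private def dcle (x y : ℕ × ℕ) : Prop := x.1 < y.1 ∨ (x.1 = y.1 ∧ x.2 ≤ y.2)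

private theorem dcle_anti {x y : ℕ × ℕ} (h1 : dcle x y) (h2 : dcle y x) : x = y := by
  unfold dcle at h1 h2
  refine Prod.ext ?_ ?_ <;> omega

private theorem dcle_total (x y : ℕ × ℕ) (h1 : ¬ dcle x y) : dcle y x := by
  unfold dcle at h1 ⊢
  omega

open Classical in
/-- the row of the edge of a dart -/
private noncomputable def dcq {N : ℕ} (rev : Fin N × Fin 6 → Fin N × Fin 6) (d : Fin N × Fin 6) :
    (ℕ × ℕ) × (ℕ × ℕ) :=
  if dcle (dcv d) (dcv (rev d)) then (dcv d, dcv (rev d)) else (dcv (rev d), dcv d)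

theorem p_cd : S_cd := by
  intro N R ac rev hN hrr hac hR
  refine ⟨dc_isCode N R hN, dc_numV N R, ?_⟩
  intro h
  have hV := dc_numV N R
  have hE := dc_numE N R hN
  -- the rows of the darts are in the list
  have hq : ∀ d : Fin N × Fin 6, ac d.1 d.2 = true → dcq rev d ∈ dcL N R := by
    intro d hd
    have r1 : R d.1 d.2 (rev d).1 (rev d).2 = true := (hR d (rev d)).mpr ⟨hd, rfl⟩
    have r2 : R (rev d).1 (rev d).2 d.1 d.2 = true :=
      (hR (rev d) d).mpr ⟨by rw [hac]; exact hd, (hrr d).symm⟩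
    unfold dcq
    by_cases hc : dcle (dcv d) (dcv (rev d))
    · rw [if_pos hc, dc_mem]
      exact ⟨⟨d.1.2, d.2.2⟩, ⟨(rev d).1.2, (rev d).2.2⟩, r1, hc⟩
    · rw [if_neg hc, dc_mem]
      exact ⟨⟨(rev d).1.2, (rev d).2.2⟩, ⟨d.1.2, d.2.2⟩, r2, dcle_total _ _ hc⟩
  have hqr : ∀ d : Fin N × Fin 6, dcq rev (rev d) = dcq rev d := by
    intro d
    unfold dcq
    rw [hrr]
    by_cases hc : dcle (dcv d) (dcv (rev d))
    · by_cases hc' : dcle (dcv (rev d)) (dcv d)
      · have e := dcle_anti hc hc'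
        rw [if_pos hc', if_pos hc, e]
      · rw [if_neg hc', if_pos hc]
    · rw [if_neg hc, if_pos (dcle_total _ _ hc)]
  have hqi : ∀ d d' : Fin N × Fin 6, dcq rev d = dcq rev d' → d' = d ∨ d' = rev d := by
    intro d d' he
    unfold dcq at he
    split_ifs at he
    · exact Or.inl (dcv_inj (congrArg Prod.fst he)).symm
    · exact Or.inr (dcv_inj (congrArg Prod.snd he)).symm
    · exact Or.inr (dcv_inj (congrArg Prod.fst he)).symm
    · exact Or.inl (dcv_inj (congrArg Prod.snd he)).symm
  have hlt : ∀ d : {d : Fin N × Fin 6 // ac d.1 d.2 = true},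
      (dcL N R).idxOf (dcq rev d.1) < numE (codeD N R) := by
    intro d
    rw [hE]
    exact List.idxOf_lt_length_of_mem (hq d.1 d.2)
  have hget : ∀ d : {d : Fin N × Fin 6 // ac d.1 d.2 = true},
      (dcL N R).getD ((dcL N R).idxOf (dcq rev d.1)) dc0 = dcq rev d.1 := by
    intro d
    have hl : (dcL N R).idxOf (dcq rev d.1) < (dcL N R).length :=
      List.idxOf_lt_length_of_mem (hq d.1 d.2)
    rw [List.getD_eq_getElem _ _ hl]
    exact List.getElem_idxOf hl
  let ψ : Fin (numV (codeD N R)) ≃ Fin N := finCongr hV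
  let tl : {d : Fin N × Fin 6 // ac d.1 d.2 = true} → Fin (numV (codeD N R)) :=
    fun d => ψ.symm d.1.1
  let rv' : {d : Fin N × Fin 6 // ac d.1 d.2 = true} → {d : Fin N × Fin 6 // ac d.1 d.2 = true} :=
    fun d => ⟨rev d.1, by rw [hac]; exact d.2⟩
  let ed : {d : Fin N × Fin 6 // ac d.1 d.2 = true} → Fin (numE (codeD N R)) :=
    fun d => ⟨(dcL N R).idxOf (dcq rev d.1), hlt d⟩
  have hsurj : Function.Surjective ed := by
    intro j
    have hj : (j : ℕ) < (dcL N R).length := by rw [← hE]; exact j.2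
    have hm := dc_getD_mem N R j hj
    obtain ⟨⟨a1, a2⟩, ⟨b1, b2⟩, r, o⟩ := dc_mem.mp hm
    set q := (dcL N R).getD j dc0 with hqd
    let d : Fin N × Fin 6 := (⟨q.1.1, a1⟩, ⟨q.1.2, a2⟩)
    let d' : Fin N × Fin 6 := (⟨q.2.1, b1⟩, ⟨q.2.2, b2⟩)
    obtain ⟨s1, s2⟩ := (hR d d').mp r
    refine ⟨⟨d, s1⟩, ?_⟩
    have e1 : dcq rev d = q := by
      unfold dcq
      rw [← s2]
      have : dcle (dcv d) (dcv d') := o
      rw [if_pos this]
      rfl
    have e2 : (dcL N R).idxOf q = (j : ℕ) := by
      rw [hqd, List.getD_eq_getElem _ _ hj]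
      exact List.Nodup.idxOf_getElem (dc_nodup N R) _ hj
    refine Fin.ext ?_
    change (dcL N R).idxOf (dcq rev d) = (j : ℕ)
    rw [e1, e2]
  have hedeq : ∀ d d', ed d = ed d' ↔ d' = d ∨ d' = rv' d := by
    intro d d'
    constructor
    · intro he
      have h1 : (dcL N R).idxOf (dcq rev d.1) = (dcL N R).idxOf (dcq rev d'.1) :=
        congrArg Fin.val he
      have h2 : dcq rev d.1 = dcq rev d'.1 := by
        rw [← hget d, ← hget d', h1]
      rcases hqi _ _ h2 with h3 | h3
      · exact Or.inl (Subtype.ext h3)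
      · exact Or.inr (Subtype.ext h3)
    · rintro (h1 | h1)
      · rw [h1]
      · rw [h1]
        refine Fin.ext ?_
        change (dcL N R).idxOf (dcq rev d.1) = (dcL N R).idxOf (dcq rev (rev d.1))
        rw [hqr]
  have hends : ∀ d, ((rv' d = d → endsOf (codeD N R) (ed d : ℕ) = {tl d}) ∧
      (rv' d ≠ d → endsOf (codeD N R) (ed d : ℕ) = {tl d, tl (rv' d)})) := by
    intro d
    have hl : (dcL N R).idxOf (dcq rev d.1) < (dcL N R).length :=
      List.idxOf_lt_length_of_mem (hq d.1 d.2)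
    have hg := hget d
    by_cases hc : dcle (dcv d.1) (dcv (rev d.1))
    · have e : dcq rev d.1 = (dcv d.1, dcv (rev d.1)) := by unfold dcq; rw [if_pos hc]
      obtain ⟨e1, e2⟩ := dc_ends N R _ hl _ hg (tl d) (tl (rv' d)) (by rw [e]; rfl) (by rw [e]; rfl)
      constructor
      · intro h1
        refine e1 ?_
        rw [e]
        exact congrArg dcv (congrArg Subtype.val h1).symm
      · intro h1
        refine e2 ?_
        rw [e]
        intro h2
        exact h1 (Subtype.ext (dcv_inj h2).symm)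
    · have e : dcq rev d.1 = (dcv (rev d.1), dcv d.1) := by unfold dcq; rw [if_neg hc]
      obtain ⟨e1, e2⟩ := dc_ends N R _ hl _ hg (tl (rv' d)) (tl d) (by rw [e]; rfl) (by rw [e]; rfl)
      constructor
      · intro h1
        have h3 : tl (rv' d) = tl d := by rw [h1]
        rw [← h3]
        refine e1 ?_
        rw [e]
        exact congrArg dcv (congrArg Subtype.val h1)
      · intro h1
        rw [Multiset.pair_comm]
        refine e2 ?_
        rw [e]
        intro h2
        exact h1 (Subtype.ext (dcv_inj h2))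
  refine ⟨ψ, ⟨tl, rv', ?_, ed, hsurj, hedeq, fun d => (hends d).1, fun d => (hends d).2⟩, ?_, ?_⟩
  · intro d
    exact Subtype.ext (hrr d.1)
  · intro d
    exact ψ.apply_symm_apply _
  · intro d
    rfl

end SDich.SC
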