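import Pool.Agent.Lib.MP_e7d961_lc.SC.Stm

/-!
The edge map of the covering: invariance under `rv`, and the ends (`MP_e7d961_lc`, piece cmp1).
-/

namespace SDich.SC

open Finset HerCo CookLevin

private theorem cmp1_mk3 (j : Fin 3) (u v b : Bool) (c : Q3) :
    xr (mk3 j u v b) c = mk3 j (xor u (c (j + 1))) (xor v (c (j + 2))) (xor b (c j)) := by
  revert j u v b c; decide

private theorem cmp1_zc (j : Fin 3) (x c : Q3) : sh c (zc j x) = zc j (xr x c) := rfl

/-- the value at the other end of an edge `az` -/
private theorem cmp1_az {nv M : ℕ} (X : Cb nv M → Q3) (q : Cb nv M) (j : Fin 3) (x : Q3) :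
    γG X ((q, zc j x), if x j then 1 else 0) = .az j (xr x (X q)) := by
  have h := mk3_self j (xr x (X q))
  cases hx : x j
  · have e : xr x (X q) j = X q j := by simp [xr, hx]
    rw [e] at h
    have e2 : γG X ((q, zc j x), if (false : Bool) = true then 1 else 0) =
      .az j (mk3 j (xr x (X q) (j + 1)) (xr x (X q) (j + 2)) (X q j)) := by
      simp [γG, zc, xr]
    rw [e2, h]
  · have e : xr x (X q) j = !X q j := by simp [xr, hx]
    rw [e] at h
    have e2 : γG X ((q, zc j x), if (true : Bool) = true then 1 else 0) =
      .az j (mk3 j (xr x (X q) (j + 1)) (xr x (X q) (j + 2)) (!X q j)) := by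
      simp [γG, zc, xr]
    rw [e2, h]

private theorem cmp1_isC {x c : Q3} (h : xr x c = o3) (hc : isC c = true) : isC x = true := by
  rw [xr_eq_o3] at h; rw [h]; exact hc

private theorem cmp1_isE {x c : Q3} (h : xr x c = o3) (hc : isE c = true) : isE x = true := by
  rw [xr_eq_o3] at h; rw [h]; exact hc

/-- the label of the reversal of the ports `4, 5` -/
private theorem cmp1_lab {nv M : ℕ} (q : Cb nv M) (x : Q3) (p : Fin 6) (hp : p = 4 ∨ p = 5) :
    ((crv q x p).2 = 4 ∨ (crv q x p).2 = 5) ∧ lab (crv q x p).1 (crv q x p).2 = lab q p := by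
  rcases q with ⟨i, k, d⟩ | ⟨k, d⟩ | ⟨k, j, d⟩
  · rcases hp with rfl | rfl <;> cases d <;> by_cases hx : isC x = true <;>
      simp [crv, hx, lab]
  · by_cases hx : isE x = true <;> rcases hp with rfl | rfl <;> simp [crv, hx, lab]
  · rcases hp with rfl | rfl <;> simp [crv, lab]

private theorem cmp1_45 {nv M : ℕ} (X : Cb nv M → Q3) (q : Cb nv M) (x : Q3) (p : Fin 6)
    (hp : p = 4 ∨ p = 5) : γG X ((q, .s x), p) =
      if h : xr x (X q) = o3 then .lp else .sm ⟨xr x (X q), h⟩ (lab q p) := by
  rcases hp with rfl | rfl <;> simp [γG]

/-- `crv` fixes a dart only if the value is not zero -/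
private theorem cmp1_fix {nv M : ℕ} (X : Cb nv M → Q3) (q : Cb nv M) (x : Q3) (p : Fin 6)
    (hC : ∀ i k d, isC (X (.va i k d)) = true) (hE : ∀ k d, isE (X (.cl k d)) = true)
    (hp : p = 4 ∨ p = 5) (hf : crv q x p = (q, p)) : xr x (X q) ≠ o3 := by
  intro h
  rcases q with ⟨i, k, d⟩ | ⟨k, d⟩ | ⟨k, j, d⟩
  · have hx := cmp1_isC h (hC i k d)
    rcases hp with rfl | rfl <;> cases d <;> simp [crv, hx] at hf
  · have hx := cmp1_isE h (hE k d)
    simp [crv, hx] at hf
  · simp [crv] at hf

/-- [cmp1] -/
theorem p_cmp1 : S_cmp1 := by
  intro nv M occ X hC hE hcr hpt d hd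
  obtain ⟨⟨q, h⟩, p⟩ := d
  rcases h with x | ⟨j, u, v⟩ | x | ⟨u, v⟩
  · -- `s x`
    have H0 : ∀ j : Fin 3, ∀ p : Fin 6, rv occ ((q, .s x), p) = ((q, zc j x), if x j then 1 else 0) →
        γG X ((q, .s x), p) = .az j (xr x (X q)) →
        γG X (rv occ ((q, .s x), p)) = γG X ((q, .s x), p) ∧
        (rv occ ((q, .s x), p) = ((q, .s x), p) →
          HC.ends (γG X ((q, .s x), p)) = {sh (X q) (.s x)}) ∧
        (rv occ ((q, .s x), p) ≠ ((q, .s x), p) →
          HC.ends (γG X ((q, .s x), p)) = {sh (X q) (.s x),
            sh (X (rv occ ((q, .s x), p)).1.1) (rv occ ((q, .s x), p)).1.2} ∨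
          (HC.ends (γG X ((q, .s x), p)) = {sh (X q) (.s x)} ∧
            sh (X (rv occ ((q, .s x), p)).1.1) (rv occ ((q, .s x), p)).1.2 =
              sh (X q) (.s x))) := by
      intro j p h1 h2
      refine ⟨?_, ?_, ?_⟩
      · rw [h1, h2, cmp1_az]
      · intro h3
        rw [h1] at h3
        have := congrArg (fun z => z.1.2) h3
        simp [zc] at this
      · intro _
        left
        rw [h1, h2]
        rfl
    have H4 : ∀ p : Fin 6, (p = 4 ∨ p = 5) →
        rv occ ((q, .s x), p) = (((crv q x p).1, .s x), (crv q x p).2) →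
        γG X (rv occ ((q, .s x), p)) = γG X ((q, .s x), p) ∧
        (rv occ ((q, .s x), p) = ((q, .s x), p) →
          HC.ends (γG X ((q, .s x), p)) = {sh (X q) (.s x)}) ∧
        (rv occ ((q, .s x), p) ≠ ((q, .s x), p) →
          HC.ends (γG X ((q, .s x), p)) = {sh (X q) (.s x),
            sh (X (rv occ ((q, .s x), p)).1.1) (rv occ ((q, .s x), p)).1.2} ∨
          (HC.ends (γG X ((q, .s x), p)) = {sh (X q) (.s x)} ∧
            sh (X (rv occ ((q, .s x), p)).1.1) (rv occ ((q, .s x), p)).1.2 =
              sh (X q) (.s x))) := by
      intro p hp h1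
      obtain ⟨hl1, hl2⟩ := cmp1_lab q x p hp
      have hX := hcr q x p
      refine ⟨?_, ?_, ?_⟩
      · rw [h1, cmp1_45 X q x p hp, cmp1_45 X _ x _ hl1, hl2]
        simp only [hX]
      · intro h3
        rw [h1] at h3
        have hf : crv q x p = (q, p) := by
          have e1 := congrArg (fun z => z.1.1) h3
          have e2 := congrArg (fun z => z.2) h3
          simp only at e1 e2
          exact Prod.ext e1 e2
        have hne := cmp1_fix X q x p hC hE hp hf
        rw [cmp1_45 X q x p hp, dif_neg hne]
        rfl
      · intro _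
        rw [h1]
        simp only [hX]
        rw [cmp1_45 X q x p hp]
        by_cases h0 : xr x (X q) = o3
        · left
          rw [dif_pos h0]
          simp only [HC, sh, h0]
          rfl
        · right
          rw [dif_neg h0]
          exact ⟨rfl, trivial⟩
    fin_cases p
    · exact H0 0 0 rfl rfl
    · exact H0 1 1 rfl rfl
    · exact H0 2 2 rfl rfl
    · refine ⟨rfl, ?_, ?_⟩
      · intro h3
        have := congrArg (fun z => z.1.2) h3
        simp [rv] at this
      · intro _
        left; rfl
    · exact H4 4 (Or.inl rfl) rfl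
    · exact H4 5 (Or.inr rfl) rfl
  · -- `z j u v`
    have HS : ∀ b : Bool, γG X ((q, .s (mk3 j u v b)), if j = 0 then 0 else if j = 1 then 1 else 2) =
        .az j (mk3 j (xor u (X q (j + 1))) (xor v (X q (j + 2))) (xor b (X q j))) := by
      intro b
      rw [← cmp1_mk3]
      fin_cases j <;> simp [γG]
    have HE2 : ∀ b : Bool, HC.ends (.az j (mk3 j (xor u (X q (j + 1))) (xor v (X q (j + 2)))
        (xor b (X q j)))) = {sh (X q) (.z j u v), sh (X q) (.s (mk3 j u v b))} := by
      intro b
      have e1 : ({sh (X q) (.s (mk3 j u v b)), sh (X q) (zc j (mk3 j u v b))} : Multiset HV) =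
          {sh (X q) (.z j u v), sh (X q) (.s (mk3 j u v b))} := by
        rw [zc_mk3, Multiset.pair_comm]
      rw [← cmp1_mk3]
      exact e1
    have H3 : ∀ p : Fin 6, (p = 3 ∨ p = 4) → (p = 4 → j ≠ 0) →
        γG X (rv occ ((q, .z j u v), p)) = γG X ((q, .z j u v), p) ∧
        (rv occ ((q, .z j u v), p) = ((q, .z j u v), p) →
          HC.ends (γG X ((q, .z j u v), p)) = {sh (X q) (.z j u v)}) ∧
        (rv occ ((q, .z j u v), p) ≠ ((q, .z j u v), p) →
          HC.ends (γG X ((q, .z j u v), p)) = {sh (X q) (.z j u v),
            sh (X (rv occ ((q, .z j u v), p)).1.1) (rv occ ((q, .z j u v), p)).1.2} ∨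
          (HC.ends (γG X ((q, .z j u v), p)) = {sh (X q) (.z j u v)} ∧
            sh (X (rv occ ((q, .z j u v), p)).1.1) (rv occ ((q, .z j u v), p)).1.2 =
              sh (X q) (.z j u v))) := by
      intro p hp hp4
      have g3 : ∀ (q' : Cb nv M) (p' : Fin 6), (p' = 3 ∨ p' = 4) → γG X ((q', .z j u v), p') =
          .zz j (xor u (X q' (j + 1))) (xor v (X q' (j + 2))) := by
        rintro q' p' (rfl | rfl) <;> simp [γG]
      have e0 : HC.ends (.zz j (xor u (X q (j + 1))) (xor v (X q (j + 2)))) =
          if j = 0 then {sh (X q) (.z j u v)} else {sh (X q) (.z j u v), sh (X q) (.z j u v)} :=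
        rfl
      by_cases hc : u = false ∧ v = false ∧ pt occ q j ≠ q
      · have h1 : rv occ ((q, .z j u v), p) = ((pt occ q j, .z j u v), p) := by
          rcases hp with rfl | rfl
          · simp [rv, hc]
          · have := hp4 rfl
            simp [rv, hc, this]
        have hj1 : X (pt occ q j) (j + 1) = X q (j + 1) := hpt q j _ (by fin_cases j <;> decide)
        have hj2 : X (pt occ q j) (j + 2) = X q (j + 2) := hpt q j _ (by fin_cases j <;> decide)
        have hsh : sh (X (pt occ q j)) (.z j u v) = sh (X q) (.z j u v) := by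
          simp only [sh, hj1, hj2]
        refine ⟨?_, ?_, ?_⟩
        · rw [h1, g3 _ _ hp, g3 _ _ hp, hj1, hj2]
        · intro h3
          rw [h1] at h3
          exact absurd (congrArg (fun z => z.1.1) h3) hc.2.2
        · intro _
          rw [h1, g3 _ _ hp, e0]
          simp only [hsh]
          by_cases hj : j = 0
          · right
            rw [if_pos hj]
            exact ⟨rfl, trivial⟩
          · left
            rw [if_neg hj]
      · by_cases hj : j = 0
        · have h1 : rv occ ((q, .z j u v), p) = ((q, .z j u v), p) := by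
            rcases hp with rfl | rfl
            · subst hj
              unfold rv
              simp only
              rw [if_neg (by decide), if_neg (by decide), if_neg (by decide), if_neg (by decide),
                if_neg (by simp), if_neg hc]
              rfl
            · exact absurd hj (hp4 rfl)
          refine ⟨by rw [h1], fun _ => ?_, fun h => absurd h1 h⟩
          rw [g3 _ _ hp, e0, if_pos hj]
        · have h1 : rv occ ((q, .z j u v), p) = ((q, .z j u v), if p = 3 then 4 else 3) := by
            rcases hp with rfl | rfl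
            · unfold rv
              simp only
              rw [if_neg (by decide), if_neg (by decide), if_neg (by decide), if_neg (by decide),
                if_neg (by simp), if_neg hc, if_neg hj]
            · unfold rv
              simp only
              rw [if_neg (by decide), if_neg (by decide), if_neg (by decide), if_neg (by decide),
                if_neg (by simp [hj]), if_neg hc, if_neg hj]
          have hp' : (if p = 3 then 4 else 3 : Fin 6) = 3 ∨ (if p = 3 then 4 else 3 : Fin 6) = 4 := by
            rcases hp with rfl | rfl <;> decide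
          refine ⟨?_, ?_, ?_⟩
          · rw [h1, g3 _ _ hp, g3 _ _ hp']
          · intro h3
            rw [h1] at h3
            have := congrArg (fun z => z.2) h3
            simp only at this
            rcases hp with rfl | rfl <;> exact absurd this (by decide)
          · intro _
            left
            rw [h1, g3 _ _ hp, e0, if_neg hj]
    fin_cases p
    · have h1 : rv occ ((q, .z j u v), 0) =
          ((q, .s (mk3 j u v false)), if j = 0 then 0 else if j = 1 then 1 else 2) := rfl
      have h2 : γG X ((q, .z j u v), 0) =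
          .az j (mk3 j (xor u (X q (j + 1))) (xor v (X q (j + 2))) (xor false (X q j))) := by
        rw [Bool.false_xor]; rfl
      refine ⟨?_, ?_, ?_⟩
      · exact (HS false).trans h2.symm
      · intro h3
        have := congrArg (fun z => z.1.2) (h1.symm.trans h3)
        simp at this
      · intro _
        left
        exact (congrArg HC.ends h2).trans (HE2 false)
    · have h1 : rv occ ((q, .z j u v), 1) =
          ((q, .s (mk3 j u v true)), if j = 0 then 0 else if j = 1 then 1 else 2) := rfl
      have h2 : γG X ((q, .z j u v), 1) =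
          .az j (mk3 j (xor u (X q (j + 1))) (xor v (X q (j + 2))) (xor true (X q j))) := by
        rw [Bool.true_xor]; rfl
      refine ⟨?_, ?_, ?_⟩
      · exact (HS true).trans h2.symm
      · intro h3
        have := congrArg (fun z => z.1.2) (h1.symm.trans h3)
        simp at this
      · intro _
        left
        exact (congrArg HC.ends h2).trans (HE2 true)
    · have hj : j = 2 := by
        revert hd
        fin_cases j <;> simp [act]
      subst hj
      refine ⟨rfl, ?_, ?_⟩
      · intro h3
        have := congrArg (fun z => z.1.2) h3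
        simp [rv] at this
      · intro _
        left; rfl
    · exact H3 3 (Or.inl rfl) fun h => absurd h (by decide)
    · refine H3 4 (Or.inr rfl) fun _ hj => ?_
      subst hj
      simp [act] at hd
    · simp [act] at hd
  · have hp : p = 0 := by
      revert hd
      simp [act]
    subst hp
    refine ⟨rfl, ?_, ?_⟩
    · intro h3
      have := congrArg (fun z => z.1.2) h3
      simp [rv] at this
    · intro _
      left
      exact Multiset.pair_comm _ _
  · have hp : p = 0 := by
      revert hd
      simp [act]
    subst hp
    refine ⟨rfl, ?_, ?_⟩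
    · intro h3
      have := congrArg (fun z => z.1.2) h3
      simp [rv] at this
    · intro _
      left
      exact Multiset.pair_comm _ _

end SDich.SC
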