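import Pool.Agent.Lib.MP_e7d961_lc.SC.Stm

namespace SDich.SC

open Finset

set_option maxRecDepth 100000

private def c0 (y : Q3) (d0 : Bool) (p : Fin 6) : HE :=
  if p = 0 then .az 0 y else if p = 1 then .az 1 y
      else if p = 2 then .az 2 y else if p = 3 then .als y
      else if h : y = o3 then .lp else .sm ⟨y, h⟩ (xor d0 (decide (p = 5)))

private theorem s0 (y : Q3) (d0 : Bool) (e : HE) :
    (univ.filter fun p : Fin 6 => c0 y d0 p = e).card = (HC.ends e).count (HV.s y) := by
  rw [card_filter, Fin.sum_univ_six]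
  have e0 : c0 y d0 0 = .az 0 y := rfl
  have e1 : c0 y d0 1 = .az 1 y := rfl
  have e2 : c0 y d0 2 = .az 2 y := rfl
  have e3 : c0 y d0 3 = .als y := rfl
  have e4 : c0 y d0 4 = if h : y = o3 then .lp else .sm ⟨y, h⟩ (xor d0 false) := rfl
  have e5 : c0 y d0 5 = if h : y = o3 then .lp else .sm ⟨y, h⟩ (xor d0 true) := rfl
  rw [e0, e1, e2, e3, e4, e5]
  cases e with
  | az j x =>
    by_cases h : y = o3 <;> by_cases h2 : y = x <;> fin_cases j <;> simp_all [HC, zc]
  | als x => by_cases h : y = o3 <;> by_cases h2 : y = x <;> simp_all [HC, zc]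
  | alz u v => by_cases h : y = o3 <;> simp_all [HC, zc]
  | zz j u v => by_cases h : y = o3 <;> fin_cases j <;> simp_all [HC, zc]
  | lp => by_cases h : y = o3 <;> simp_all [HC, zc]
  | sm x b => 
    obtain ⟨x, hx⟩ := x
    by_cases h : y = o3 <;> by_cases h2 : y = x <;> cases b <;> cases d0 <;> simp_all [HC, zc]

private theorem labx {nv M : ℕ} (q : Cb nv M) : ∃ d0, ∀ p, lab q p = xor d0 (decide (p = 5)) := by
  cases q with
  | va i k d => exact ⟨d, fun p => rfl⟩
  | cl k d => exact ⟨false, fun p => by simp [lab]⟩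
  | lk k j d => exact ⟨false, fun p => by simp [lab]⟩

private theorem lA : ∀ (j : Fin 3) (x : Q3) (u v b : Bool),
    (if mk3 j u v b = x then 1 else 0) + (if mk3 j u v (!b) = x then 1 else 0) =
      (if x (j + 1) = u ∧ x (j + 2) = v then 1 else 0) := by
  decide

private def cz (j : Fin 3) (u v b : Bool) (p : Fin 6) : HE :=
      if p = 0 then .az j (mk3 j u v b)
      else if p = 1 then .az j (mk3 j u v (!b))
      else if p = 2 then .alz u v
      else .zz j u v

private theorem z0 (j : Fin 3) (u0 v0 u v b : Bool) (e : HE) :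
    (univ.filter fun p : Fin 6 => act (.z j u0 v0) p = true ∧ cz j u v b p = e).card =
      (HC.ends e).count (HV.z j u v) := by
  rw [card_filter, Fin.sum_univ_six]
  have e0 : cz j u v b 0 = .az j (mk3 j u v b) := rfl
  have e1 : cz j u v b 1 = .az j (mk3 j u v (!b)) := rfl
  have e2 : cz j u v b 2 = .alz u v := rfl
  have e3 : cz j u v b 3 = .zz j u v := rfl
  have e4 : cz j u v b 4 = .zz j u v := rfl
  have e5 : cz j u v b 5 = .zz j u v := rfl
  rw [e0, e1, e2, e3, e4, e5]
  cases e with
  | az j' x =>
    have := lA j x u v b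
    by_cases hj : j = j'
    · subst hj
      have h1 : (HC.ends (.az j x)).count (HV.z j u v) =
          if x (j + 1) = u ∧ x (j + 2) = v then 1 else 0 := by
        simp only [HC, zc, Multiset.insert_eq_cons]
        rw [Multiset.count_cons_of_ne (by simp), Multiset.count_singleton]
        simp [eq_comm]
      rw [h1, ← this]
      simp [act]
    · fin_cases j <;> fin_cases j' <;> simp_all [HC, zc, act]
  | als x => simp_all [HC, zc]
  | alz u' v' =>
    by_cases h : u = u' <;> by_cases h2 : v = v' <;> fin_cases j <;> simp_all [HC, zc, act]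
  | zz j' u' v' =>
    by_cases h : u = u' <;> by_cases h2 : v = v' <;> fin_cases j <;> fin_cases j' <;>
      simp_all [HC, zc, act]
  | lp => simp_all [HC, zc]
  | sm x b => simp_all [HC, zc]

theorem p_cmp2 : S_cmp2 := by
  intro nv M X q h e
  cases h with
  | s x =>
    obtain ⟨d0, hd⟩ := labx q
    rw [show sh (X q) (.s x) = .s (xr x (X q)) from rfl, ← s0 (xr x (X q)) d0 e]
    congr 1
    ext p
    simp [act, γG, c0, hd]
  | z j u v =>
    rw [show sh (X q) (.z j u v) = .z j (xor u (X q (j + 1))) (xor v (X q (j + 2))) from rfl,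
      ← z0 j u v _ _ (X q j) e]
    congr 1
  | ls x =>
    rw [show sh (X q) (.ls x) = .ls (xr x (X q)) from rfl, card_filter, Fin.sum_univ_six]
    cases e with
    | als y => by_cases h : xr x (X q) = y <;> simp_all [HC, zc, act, γG]
    | zz j u v => fin_cases j <;> simp [HC, act, γG]
    | _ => simp [HC, zc, act, γG]
  | lz u v =>
    rw [show sh (X q) (.lz u v) = .lz (xor u (X q 0)) (xor v (X q 1)) from rfl,
      card_filter, Fin.sum_univ_six]
    cases e with
    | alz u' v' =>
      by_cases h : xor u (X q 0) = u' <;> by_cases h2 : xor v (X q 1) = v' <;>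
        simp_all [HC, zc, act, γG]
    | zz j u v => fin_cases j <;> simp [HC, act, γG]
    | _ => simp [HC, zc, act, γG]

end SDich.SC
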