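import Pool.Agent.Lib.MP_e7d961_lc.SC.Stm

/-!
The covering of a solution (`MP_e7d961_lc`, piece `cmp3`).
-/

namespace SDich.SC

open Finset HerCo CookLevin

private theorem cmp3_cnt {D : Type} [Fintype D] (p : D → Prop) [DecidablePred p]
    (q : Fin 6 → Prop) [DecidablePred q] (i : D → Fin 6) (j : ∀ x, q x → D)
    (h1 : ∀ d, p d → q (i d)) (h2 : ∀ x hx, p (j x hx))
    (h3 : ∀ d (hd : p d), j (i d) (h1 d hd) = d) (h4 : ∀ x hx, i (j x hx) = x) :
    (univ.filter p).card = (univ.filter q).card :=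
  Finset.card_bij' (fun d _ => i d) (fun x hx => j x (Finset.mem_filter.1 hx).2)
    (fun d hd => Finset.mem_filter.2 ⟨Finset.mem_univ _, h1 d (Finset.mem_filter.1 hd).2⟩)
    (fun x _ => Finset.mem_filter.2 ⟨Finset.mem_univ _, h2 x _⟩)
    (fun d hd => h3 d (Finset.mem_filter.1 hd).2) (fun x hx => h4 x (Finset.mem_filter.1 hx).2)

theorem p_cmp3 : S_cmp3 := by
  intro hxx hc1 hc2 nv M occ G φ Γ hR t ht
  obtain ⟨x1, x2, x3, x4⟩ := hxx nv M occ t ht
  have c1 := hc1 nv M occ (XX occ t) x1 x2 x3 x4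
  have hrev : ∀ d : Dt nv M, Γ.rev d = d ↔ rv occ d.1 = d.1 := by
    intro d
    rw [← hR.rev d]
    exact ⟨fun h => congrArg Subtype.val h, fun h => Subtype.ext h⟩
  refine ⟨fun d => ?_, fun d hd => ?_, fun d hd => ?_, fun v (e : HE) => ?_⟩
  · show γG (XX occ t) (Γ.rev d).1 = γG (XX occ t) d.1
    rw [hR.rev d]
    exact (c1 d.1 d.2).1
  · show HC.ends (γG (XX occ t) d.1) =
      {sh (XX occ t (φ (Γ.tail d)).1) (φ (Γ.tail d)).2}
    rw [hR.tail d]
    exact (c1 d.1 d.2).2.1 ((hrev d).1 hd)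
  · show HC.ends (γG (XX occ t) d.1) =
        {sh (XX occ t (φ (Γ.tail d)).1) (φ (Γ.tail d)).2,
          sh (XX occ t (φ (Γ.tail (Γ.rev d))).1) (φ (Γ.tail (Γ.rev d))).2} ∨
      (HC.ends (γG (XX occ t) d.1) = {sh (XX occ t (φ (Γ.tail d)).1) (φ (Γ.tail d)).2} ∧
        sh (XX occ t (φ (Γ.tail (Γ.rev d))).1) (φ (Γ.tail (Γ.rev d))).2 =
          sh (XX occ t (φ (Γ.tail d)).1) (φ (Γ.tail d)).2)
    rw [hR.tail d, hR.tail (Γ.rev d), hR.rev d]
    exact (c1 d.1 d.2).2.2 (fun h => hd ((hrev d).2 h))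
  · refine Eq.trans (@cmp3_cnt _ _ (fun d : Dt nv M => Γ.tail d = v ∧ γG (XX occ t) d.1 = e) _
      (fun p => act (φ v).2 p = true ∧ γG (XX occ t) (((φ v).1, (φ v).2), p) = e) _
      (fun d => d.1.2) (fun p hp => ⟨(φ v, p), hp.1⟩) ?_ ?_ ?_ ?_)
      (hc2 nv M (XX occ t) (φ v).1 (φ v).2 e)
    · rintro d ⟨h1, h2⟩
      have h3 : d.1 = (φ v, d.1.2) := by
        rw [← h1, hR.tail d]
      refine ⟨?_, ?_⟩
      · have := d.2
        rw [h3] at this
        exact this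
      · show γG (XX occ t) (φ v, d.1.2) = e
        rw [← h3]
        exact h2
    · rintro p ⟨h1, h2⟩
      refine ⟨?_, h2⟩
      apply φ.injective
      rw [hR.tail]
    · rintro d ⟨h1, h2⟩
      apply Subtype.ext
      show (φ v, d.1.2) = d.1
      rw [← h1, hR.tail d]
    · intro p hp
      rfl

end SDich.SC
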