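import Pool.Agent.Lib.MP_e7d961_lc.SC.Stm

/-!
`MP_e7d961_lc`, the graph `HC`: piece cv1 (from darts to covering projections).
-/

set_option autoImplicit false

namespace SDich.SC

open Finset HerCo CookLevin N68a2faeb

theorem p_cv1 : S_cv1 := by
  intro hdgl honto G H D _ _ Γ f γ hH hG hC
  choose dd hdd using Γ.ed_surj
  have hg : ∀ d, γ (dd (Γ.ed d)) = γ d := by
    intro d
    have h1 := (Γ.ed_eq (dd (Γ.ed d)) d).1 (hdd (Γ.ed d))
    rcases h1 with h1 | h1
    · rw [← h1]
    · conv_rhs => rw [h1]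
      rw [hC.rev]
  have hends : ∀ e, (G.ends e).map f = H.ends (γ (dd e)) ∨
      ((H.ends (γ (dd e))).card = 1 ∧
        (G.ends e).map f = H.ends (γ (dd e)) + H.ends (γ (dd e))) := by
    intro e
    obtain ⟨d, rfl⟩ := Γ.ed_surj e
    rw [hg]
    by_cases hr : Γ.rev d = d
    · left
      rw [Γ.ends_semi d hr, hC.semi d hr]
      exact Multiset.map_singleton _ _
    · rw [Γ.ends_edge d hr]
      rcases hC.edge d hr with h1 | ⟨h1, h2⟩
      · left
        rw [h1]
        rfl
      · right
        rw [h1]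
        refine ⟨Multiset.card_singleton _, ?_⟩
        show ({f (Γ.tail d), f (Γ.tail (Γ.rev d))} : Multiset H.V) = {f (Γ.tail d)} + {f (Γ.tail d)}
        rw [h2]
        rfl
  have hloc : ∀ v e, ∑ e' ∈ univ.filter (fun e' => γ (dd e') = e), (G.ends e').count v =
      (H.ends e).count (f v) := by
    intro v e
    have h1 := (hdgl G D Γ).2 H.E (fun e' => γ (dd e')) v e
    rw [h1, ← hC.loc v e]
    congr 1
    refine Finset.filter_congr fun d _ => ?_
    rw [hg]
  obtain ⟨h1, h2⟩ := honto G H f (fun e => γ (dd e)) hH hG hends hloc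
  exact ⟨f, fun e => γ (dd e), h1, h2, hends, hloc⟩

end SDich.SC
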