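import Pool.Agent.Lib.MP_e7d961_lc.SC.Stm

set_option autoImplicit false

namespace SDich.SC

open Finset HerCo CookLevin N68a2faeb

theorem p_cv2 : S_cv2 := by
  intro hdgl G H D _ _ Γ hcov
  obtain ⟨f, g, hc⟩ := hcov
  refine ⟨f, fun d => g (Γ.ed d), ?_, ?_, ?_, ?_⟩
  · intro d
    have h : Γ.ed d = Γ.ed (Γ.rev d) := (Γ.ed_eq d (Γ.rev d)).2 (Or.inr rfl)
    simp only [← h]
  · intro d hd
    have h1 := Γ.ends_semi d hd
    rcases hc.ends (Γ.ed d) with h2 | ⟨h3, h2⟩
    · rw [h1, Multiset.map_singleton] at h2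
      exact h2.symm
    · exfalso
      rw [h1, Multiset.map_singleton] at h2
      have h4 := congrArg Multiset.card h2
      rw [Multiset.card_singleton, Multiset.card_add, h3] at h4
      omega
  · intro d hd
    have h1 := Γ.ends_edge d hd
    rcases hc.ends (Γ.ed d) with h2 | ⟨h3, h2⟩
    · left
      rw [h1] at h2
      rw [← h2]
      simp
    · right
      obtain ⟨a, ha⟩ := Multiset.card_eq_one.1 h3
      rw [h1, ha] at h2
      have h5 : f (Γ.tail d) ∈ ({a} + {a} : Multiset H.V) := by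
        rw [← h2]
        simp
      have h6 : f (Γ.tail (Γ.rev d)) ∈ ({a} + {a} : Multiset H.V) := by
        rw [← h2]
        simp
      simp only [Multiset.mem_add, Multiset.mem_singleton, or_self] at h5 h6
      show H.ends (g (Γ.ed d)) = {f (Γ.tail d)} ∧ f (Γ.tail (Γ.rev d)) = f (Γ.tail d)
      rw [ha, h5, h6]
      exact ⟨rfl, rfl⟩
  · intro v e
    rw [← hc.loc v e]
    exact ((hdgl G D Γ).2 H.E g v e).symm

end SDich.SC
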