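import Pool.Agent.Lib.MP_e7d961_lc.SC.Stm

/-!
Piece [cvd]: coverings preserve degrees.
-/

namespace SDich.SC

open Finset HerCo CookLevin

theorem p_cvd : S_cvd := by
  classical
  intro G H D _ _ Γ f γ hC v
  have h1 := Finset.card_eq_sum_card_fiberwise (s := univ.filter fun d => Γ.tail d = v)
    (t := (univ : Finset H.E)) (f := γ) (fun d _ => Finset.mem_coe.mpr (Finset.mem_univ _))
  rw [h1, Gr.deg]
  refine Finset.sum_congr rfl fun e _ => ?_
  rw [Finset.filter_filter, ← hC.loc v e]

end SDich.SC
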