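import Pool.Agent.Lib.MP_e7d961_lc.SC.Stm

/-! [dgl] counting darts -/

namespace SDich.SC

open Finset HerCo CookLevin N68a2faeb

private theorem dgl_cnt {G : Gr} {D : Type} [Fintype D] [DecidableEq D] (Γ : DG G D) (v : G.V)
    (e : G.E) : (G.ends e).count v = (univ.filter fun d => Γ.tail d = v ∧ Γ.ed d = e).card := by
  obtain ⟨d0, rfl⟩ := Γ.ed_surj e
  have hf : ∀ d, Γ.ed d = Γ.ed d0 ↔ d = d0 ∨ d = Γ.rev d0 := by
    intro d
    rw [eq_comm, Γ.ed_eq]
  by_cases h : Γ.rev d0 = d0
  · rw [Γ.ends_semi d0 h, Multiset.count_singleton]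
    by_cases hv : v = Γ.tail d0
    · rw [if_pos hv]
      symm
      rw [Finset.card_eq_one]
      refine ⟨d0, ?_⟩
      ext d
      rw [mem_filter, mem_singleton, hf, h, or_self]
      constructor
      · rintro ⟨_, _, rfl⟩; rfl
      · rintro rfl; exact ⟨mem_univ _, hv.symm, rfl⟩
    · rw [if_neg hv]
      symm
      rw [Finset.card_eq_zero]
      ext d
      rw [mem_filter, hf, h, or_self]
      constructor
      · rintro ⟨_, h1, rfl⟩; exact absurd h1.symm hv
      · intro h1; exact absurd h1 (Finset.notMem_empty _)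
  · have e1 : (univ.filter fun d => Γ.tail d = v ∧ Γ.ed d = Γ.ed d0) =
        ({d0, Γ.rev d0} : Finset D).filter fun d => Γ.tail d = v := by
      ext d
      rw [mem_filter, mem_filter, hf, mem_insert, mem_singleton]
      constructor
      · rintro ⟨_, h1, h2⟩; exact ⟨h2, h1⟩
      · rintro ⟨h2, h1⟩; exact ⟨mem_univ _, h1, h2⟩
    rw [Γ.ends_edge d0 h, e1, Finset.filter_insert, Finset.filter_singleton]
    show Multiset.count v (Γ.tail d0 ::ₘ {Γ.tail (Γ.rev d0)}) = _
    rw [Multiset.count_cons, Multiset.count_singleton]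
    have hne : d0 ∉ ({Γ.rev d0} : Finset D) := by
      rw [mem_singleton]; exact fun h' => h h'.symm
    by_cases h1 : v = Γ.tail d0 <;> by_cases h2 : v = Γ.tail (Γ.rev d0)
    · rw [if_pos h1, if_pos h2, if_pos h1.symm, if_pos h2.symm, Finset.card_insert_of_notMem hne,
        Finset.card_singleton]
    · rw [if_pos h1, if_neg h2, if_pos h1.symm, if_neg (fun h' => h2 h'.symm)]
      rfl
    · rw [if_neg h1, if_pos h2, if_neg (fun h' => h1 h'.symm), if_pos h2.symm]
      rfl
    · rw [if_neg h1, if_neg h2, if_neg (fun h' => h1 h'.symm), if_neg (fun h' => h2 h'.symm)]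
      rfl

theorem p_dgl : S_dgl := by
  intro G D _ _ Γ
  have key : ∀ (E' : Type) [DecidableEq E'] (g : G.E → E') (v : G.V) (e : E'),
      ∑ e' ∈ univ.filter (fun e' => g e' = e), (G.ends e').count v =
        (univ.filter fun d => Γ.tail d = v ∧ g (Γ.ed d) = e).card := by
    intro E' _ g v e
    rw [Finset.card_eq_sum_card_fiberwise (f := Γ.ed) (t := univ.filter (fun e' => g e' = e))]
    · apply Finset.sum_congr rfl
      intro e' he'
      rw [mem_filter] at he'
      rw [dgl_cnt Γ v e']
      congr 1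
      ext d
      simp only [mem_filter, mem_univ, true_and]
      constructor
      · rintro ⟨h1, h2⟩
        exact ⟨⟨h1, by rw [h2]; exact he'.2⟩, h2⟩
      · rintro ⟨⟨h1, _⟩, h2⟩
        exact ⟨h1, h2⟩
    · intro d hd
      have hd' := hd
      simp only [Finset.coe_filter, Set.mem_ofPred_eq, mem_univ, true_and] at hd' ⊢
      exact hd'.2
  refine ⟨?_, key⟩
  intro v
  have h := key Unit (fun _ => ()) v ()
  simp only [Finset.filter_true, and_true] at h
  exact h

end SDich.SC
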