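import Pool.Agent.Lib.MP_e7d961_lc.SC.Stm
import Pool.Agent.Lib.MP_a28c52_lc.Gadget

/-! Piece `[SC fpa1]`: adjacency, degrees and the local conditions in polynomial time. -/

namespace SDich.SC

open HerCo

section

variable {α : Type} [Enc α] {md : Mode}

@[local fun_prop]
private theorem fpa1_numV {s : α → List Bool} (hs : FP md s) : FP md (fun a => numV (s a)) :=
  FP.numElems hs

@[local fun_prop]
private theorem fpa1_numE {s : α → List Bool} (hs : FP md s) : FP md (fun a => numE (s a)) := by
  unfold numE
  fun_prop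

@[local fun_prop]
private theorem fpa1_bit {s : α → List Bool} {j b t : α → ℕ} (hs : FP md s) (hj : FP md j)
    (hb : FP md b) (ht : FP md t) : FP md (fun a => bit (s a) (j a) (b a) (t a)) := by
  unfold bit
  fun_prop

@[local fun_prop]
private theorem fpa1_toNat {c : α → Bool} (hc : FP md c) : FP md (fun a => (c a).toNat) :=
  (FP.ite hc (FP.const 1) (FP.const 0)).congr fun a => by cases c a <;> rfl

@[local fun_prop]
private theorem fpa1_entry {s : α → List Bool} {j b : α → ℕ} (hs : FP md s) (hj : FP md j)
    (hb : FP md b) : FP md (fun a => entry (s a) (j a) (b a)) := by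
  unfold entry
  fun_prop

private theorem fpa1_sumB {N : α → ℕ} {p : α → ℕ → Bool} {f : α → ℕ → ℕ} (hN : FP md N)
    (hp : FP md (fun q : α × ℕ => p q.1 q.2)) (hf : FP md (fun q : α × ℕ => f q.1 q.2)) :
    FP md (fun a => sumB (N a) (p a) (f a)) := by
  unfold sumB
  refine FP.length (FP.flatMap (by fun_prop) ?_)
  exact FP.ite hp (by fun_prop) (by fun_prop)

@[local fun_prop]
private theorem fpa1_adjB {s : α → List Bool} {a b : α → ℕ} (hs : FP md s) (ha : FP md a)
    (hb : FP md b) : FP md (fun t => adjB (s t) (a t) (b t)) := by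
  unfold adjB
  fun_prop

@[local fun_prop]
private theorem fpa1_dgB {s : α → List Bool} {a : α → ℕ} (hs : FP md s) (ha : FP md a) :
    FP md (fun t => dgB (s t) (a t)) := by
  unfold dgB
  exact fpa1_sumB (p := fun t b => adjB (s t) (a t) b) (f := fun _ _ => 1) (by fun_prop)
    (by fun_prop) (by fun_prop)

@[local fun_prop]
private theorem fpa1_nbB {s : α → List Bool} {a d : α → ℕ} (hs : FP md s) (ha : FP md a)
    (hd : FP md d) : FP md (fun t => nbB (s t) (a t) (d t)) := by
  unfold nbB
  exact fpa1_sumB (p := fun t b => adjB (s t) (a t) b && decide (dgB (s t) b = d t))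
    (f := fun _ _ => 1) (by fun_prop) (by fun_prop) (by fun_prop)

@[local fun_prop]
private theorem fpa1_caB {s : α → List Bool} {a b : α → ℕ} (hs : FP md s) (ha : FP md a)
    (hb : FP md b) : FP md (fun t => caB (s t) (a t) (b t)) := by
  unfold caB
  fun_prop

@[local fun_prop]
private theorem fpa1_locB {s : α → List Bool} (hs : FP md s) : FP md (fun t => locB (s t)) := by
  unfold locB
  fun_prop

end

theorem p_fpa1 : S_fpa1 := by
  intro α _ s a b hs ha hb
  exact ⟨fpa1_adjB hs ha hb, fpa1_dgB hs ha, fpa1_nbB hs ha hb, fpa1_caB hs ha hb, fpa1_locB hs⟩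

end SDich.SC
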