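import Pool.Agent.Lib.MP_e7d961_lc.SC.Stm
import Pool.Agent.Lib.MP_a28c52_lc.Gadget

/-! [SC fpa2] `zeroB` is computable in polynomial time. -/

namespace SDich.SC

open Finset HerCo CookLevin

@[fun_prop]
private theorem fpa2_numV {α : Type} [Enc α] {md : Mode} {s : α → List Bool} (hs : FP md s) :
    FP md (fun a => numV (s a)) :=
  FP.numElems hs

theorem p_fpa2 : S_fpa2 := by
  intro hfps hfpa1 α _ s a hs ha
  have hca : FP .poly (fun q : α × ℕ => caB (s q.1) (a q.1) q.2) :=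
    (hfpa1 (α × ℕ) (fun q => s q.1) (fun q => a q.1) (fun q => q.2) (by fun_prop) (by fun_prop)
      (by fun_prop)).2.2.2.1
  have hlnk : ∀ π : Bool,
      FP .poly (fun q : (α × ℕ) × (ℕ × ℕ) => lnkB (s q.1.1) q.2.1 q.2.2 π) := by
    intro π
    have h1 := (hfpa1 ((α × ℕ) × (ℕ × ℕ)) (fun q => s q.1.1)
      (fun q => q.2.1 / numV (s q.1.1)) (fun q => q.2.1 % numV (s q.1.1)) (by fun_prop)
      (by fun_prop) (by fun_prop)).2.2.2.1
    have h2 := (hfpa1 ((α × ℕ) × (ℕ × ℕ)) (fun q => s q.1.1)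
      (fun q => q.2.2 / numV (s q.1.1)) (fun q => q.2.2 % numV (s q.1.1)) (by fun_prop)
      (by fun_prop) (by fun_prop)).2.2.2.1
    unfold lnkB
    refine (h1.and h2).and ?_
    fun_prop
  have hsr : FP .poly (fun q : α × ℕ =>
      srch (numV (s q.1) * numV (s q.1)) (lnkB (s q.1)) (a q.1 * numV (s q.1) + q.2)) :=
    hfps (α × ℕ) (fun q => numV (s q.1) * numV (s q.1)) (fun q => a q.1 * numV (s q.1) + q.2)
      (fun q => lnkB (s q.1)) (by fun_prop) (by fun_prop) (hlnk false) (hlnk true)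
  unfold zeroB
  exact FP.anyB (by fun_prop) (hca.and hsr)

end SDich.SC
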