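import Pool.Agent.Lib.MP_e7d961_lc.SC.Stm

/-! [SC fps] `srch` is computable in polynomial time. -/

namespace SDich.SC

open HerCo

private theorem fps_init {α : Type} [Enc α] {N u : α → ℕ} (hN : FP .poly N) (hu : FP .poly u) :
    FP .poly (fun a => initL (N a) (u a)) := by
  unfold initL
  fun_prop

private theorem fps_step {α : Type} [Enc α] {N : α → ℕ} {L : α → ℕ → ℕ → Bool → Bool}
    (hN : FP .poly N)
    (h0 : FP .poly (fun q : α × (ℕ × ℕ) => L q.1 q.2.1 q.2.2 false))
    (h1 : FP .poly (fun q : α × (ℕ × ℕ) => L q.1 q.2.1 q.2.2 true)) :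
    FP .poly (fun q : α × List Bool => stepL (N q.1) (L q.1) q.2) := by
  have hL0 : FP .poly (fun r : ((α × List Bool) × ℕ) × ℕ => L r.1.1.1 r.2 r.1.2 false) :=
    FP.comp (f := fun r : ((α × List Bool) × ℕ) × ℕ => (r.1.1.1, (r.2, r.1.2))) h0 (by fun_prop)
  have hL1 : FP .poly (fun r : ((α × List Bool) × ℕ) × ℕ => L r.1.1.1 r.2 r.1.2 true) :=
    FP.comp (f := fun r : ((α × List Bool) × ℕ) × ℕ => (r.1.1.1, (r.2, r.1.2))) h1 (by fun_prop)
  have hNr : FP .poly (fun p : (α × List Bool) × ℕ => List.range (N p.1.1)) := by fun_prop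
  have hA : FP .poly (fun p : (α × List Bool) × ℕ => (List.range (N p.1.1)).any fun c =>
      (L p.1.1 c p.2 false && p.1.2.getD (2 * c) false) ||
        (L p.1.1 c p.2 true && p.1.2.getD (2 * c + 1) false)) :=
    FP.anyB hNr ((hL0.and (by fun_prop)).or (hL1.and (by fun_prop)))
  have hB : FP .poly (fun p : (α × List Bool) × ℕ => (List.range (N p.1.1)).any fun c =>
      (L p.1.1 c p.2 false && p.1.2.getD (2 * c + 1) false) ||
        (L p.1.1 c p.2 true && p.1.2.getD (2 * c) false)) :=
    FP.anyB hNr ((hL0.and (by fun_prop)).or (hL1.and (by fun_prop)))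
  have hC : FP .poly (fun p : (α × List Bool) × ℕ =>
      [p.1.2.getD (2 * p.2) false || (List.range (N p.1.1)).any fun c =>
        (L p.1.1 c p.2 false && p.1.2.getD (2 * c) false) ||
          (L p.1.1 c p.2 true && p.1.2.getD (2 * c + 1) false),
       p.1.2.getD (2 * p.2 + 1) false || (List.range (N p.1.1)).any fun c =>
        (L p.1.1 c p.2 false && p.1.2.getD (2 * c + 1) false) ||
          (L p.1.1 c p.2 true && p.1.2.getD (2 * c) false)]) :=
    FP.cons (FP.or (by fun_prop) hA) (FP.cons (FP.or (by fun_prop) hB) FP.nil)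
  unfold stepL
  exact FP.flatMap (by fun_prop) hC

private theorem fps_len_step (N : ℕ) (L : ℕ → ℕ → Bool → Bool) (st : List Bool) :
    (stepL N L st).length = 2 * N := by
  unfold stepL
  rw [List.length_flatMap]
  simp [mul_comm]

private theorem fps_len_init (N u : ℕ) : (initL N u).length = 2 * N := by
  unfold initL
  rw [List.length_flatMap]
  simp [mul_comm]

private theorem fps_len (N u : ℕ) (L : ℕ → ℕ → Bool → Bool) (i : ℕ) :
    ((stepL N L)^[i] (initL N u)).length = 2 * N := by
  rcases i with _ | i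
  · exact fps_len_init N u
  · rw [Function.iterate_succ_apply']
    exact fps_len_step N L _

theorem p_fps : S_fps := by
  intro α _ N u L hN hu h0 h1
  have h2 : FP .poly (fun a => (stepL (N a) (L a))^[2 * N a] (initL (N a) (u a))) := by
    refine FP.nat_iterate (init := fun a => initL (N a) (u a))
      (h := fun a st => stepL (N a) (L a) st) (n := fun a => 2 * N a) (fps_init hN hu)
      (fps_step hN h0 h1) (by fun_prop) fun _ => ?_
    refine ⟨fun a => 6 * sz (N a), (Bd.const 6).mul hN.bd, fun a i _ => ?_⟩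
    rw [sz_boolList]
    have h3 := fps_len (N a) (u a) (L a) i
    have h4 : sz (N a) = N a := sz_nat _
    show 3 * ((stepL (N a) (L a))^[i] (initL (N a) (u a))).length ≤ 6 * sz (N a)
    omega
  unfold srch
  fun_prop

end SDich.SC
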