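import Pool.Agent.Lib.MP_e7d961_lc.SC.Stm
import Pool.Agent.Lib.MP_e7d961_lc.SC.P.fps
import Pool.Agent.Lib.MP_a28c52_lc.Gadget

/-!
Piece [fpa3]: `l2B` is computable in polynomial time.
-/

namespace SDich.SC

open Finset HerCo CookLevin

private theorem fpa3_numV {α : Type} [Enc α] {md : Mode} {s : α → List Bool} (hs : FP md s) :
    FP md (fun a => numV (s a)) :=
  FP.numElems hs

section

variable {α : Type} [Enc α]

private theorem fpa3_eq {A B : α → ℕ} (hA : FP .poly A) (hB : FP .poly B) :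
    FP .poly (fun t => decide (A t = B t)) := by fun_prop

private theorem fpa3_ne {A B : α → ℕ} (hA : FP .poly A) (hB : FP .poly B) :
    FP .poly (fun t => !decide (A t = B t)) := by fun_prop

private theorem fpa3_lt {A B : α → ℕ} (hA : FP .poly A) (hB : FP .poly B) :
    FP .poly (fun t => decide (A t < B t)) := by fun_prop

private theorem fpa3_adj (h1 : S_fpa1) {s : α → List Bool} {a b : α → ℕ} (hs : FP .poly s)
    (ha : FP .poly a) (hb : FP .poly b) : FP .poly (fun t => adjB (s t) (a t) (b t)) :=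
  (h1 α s a b hs ha hb).1

private theorem fpa3_dg (h1 : S_fpa1) {s : α → List Bool} {a : α → ℕ} (hs : FP .poly s)
    (ha : FP .poly a) : FP .poly (fun t => dgB (s t) (a t)) :=
  (h1 α s a a hs ha ha).2.1

private theorem fpa3_same (h1 : S_fpa1) {s : α → List Bool} {i a b : α → ℕ} (hs : FP .poly s)
    (hi : FP .poly i) (ha : FP .poly a) (hb : FP .poly b) :
    FP .poly (fun t => sameB (s t) (i t) (a t) (b t)) := by
  have hi3 : FP .poly (fun t => 3 + i t) := by fun_prop
  have h1' : FP .poly (fun _ : α => (1 : ℕ)) := FP.const 1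
  exact ((((fpa3_adj h1 hs ha hb).and (fpa3_ne (fpa3_dg h1 hs ha) h1')).and
    (fpa3_ne (fpa3_dg h1 hs hb) h1')).and (fpa3_ne (fpa3_dg h1 hs ha) hi3)).and
    (fpa3_ne (fpa3_dg h1 hs hb) hi3)

private theorem fpa3_dif (h1 : S_fpa1) {s : α → List Bool} {i a b : α → ℕ} (hs : FP .poly s)
    (hi : FP .poly i) (ha : FP .poly a) (hb : FP .poly b) :
    FP .poly (fun t => difB (s t) (i t) (a t) (b t)) := by
  have h6 : FP .poly (fun _ : α => (6 : ℕ)) := FP.const 6
  have hs' : FP .poly (fun q : α × ℕ => s q.1) := by fun_prop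
  have ha' : FP .poly (fun q : α × ℕ => a q.1) := by fun_prop
  have hb' : FP .poly (fun q : α × ℕ => b q.1) := by fun_prop
  have hw : FP .poly (fun q : α × ℕ => q.2) := by fun_prop
  have hi3 : FP .poly (fun q : α × ℕ => 3 + i q.1) := by fun_prop
  have hr : FP .poly (fun t => List.range (numV (s t))) := by
    have := fpa3_numV hs
    fun_prop
  have e1 : FP .poly (fun q : α × ℕ => (decide (dgB (s q.1) q.2 = 3 + i q.1) &&
      adjB (s q.1) (a q.1) q.2) && adjB (s q.1) (b q.1) q.2) :=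
    ((fpa3_eq (fpa3_dg h1 hs' hw) hi3).and (fpa3_adj h1 hs' ha' hw)).and
      (fpa3_adj h1 hs' hb' hw)
  exact (((fpa3_ne ha hb).and (fpa3_eq (fpa3_dg h1 hs ha) h6)).and
    (fpa3_eq (fpa3_dg h1 hs hb) h6)).and (FP.anyB hr e1)

end

theorem p_fpa3 : S_fpa3 := by
  intro h1 h2' α _ s p q π hs hp hq
  have h2 := h2' p_fps h1
  have hn : FP .poly (fun t => 3 * numV (s t)) := by
    have := fpa3_numV hs
    fun_prop
  have hp3 : FP .poly (fun t => p t % 3) := by fun_prop
  have hq3 : FP .poly (fun t => q t % 3) := by fun_prop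
  have hpd : FP .poly (fun t => p t / 3) := by fun_prop
  have hqd : FP .poly (fun t => q t / 3) := by fun_prop
  have hπ : FP .poly (fun _ : α => π) := FP.const π
  have hπ' : FP .poly (fun _ : α => !π) := FP.const (!π)
  have e1 := fpa3_same h1 hs hp3 hpd hqd
  have e2 := fpa3_dif h1 hs hp3 hpd hqd
  have e3 := h2 α s (fun t => p t / 3) hs hpd
  have e4 := h2 α s (fun t => q t / 3) hs hqd
  exact ((((fpa3_lt hp hn).and (fpa3_lt hq hn)).and (fpa3_eq hp3 hq3)).and
      ((hπ'.and e1).or (hπ.and e2))).or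
    ((((fpa3_lt hp hn).and (fpa3_eq hq hn)).and hπ').and e3) |>.or
    ((((fpa3_eq hp hn).and (fpa3_lt hq hn)).and hπ').and e4)

end SDich.SC
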