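import Pool.Agent.Lib.MP_e7d961_lc.SC.Stm
import Pool.Agent.Lib.MP_e7d961_lc.SC.P.fpa2
import Pool.Agent.Lib.MP_a28c52_lc.Gadget

/-! [SC fpa4] `algB` is computable in polynomial time. -/

namespace SDich.SC

open Finset HerCo CookLevin

@[fun_prop]
private theorem fpa4_numV {α : Type} [Enc α] {md : Mode} {s : α → List Bool} (hs : FP md s) :
    FP md (fun a => numV (s a)) :=
  FP.numElems hs

theorem p_fpa4 : S_fpa4 := by
  intro hcb hfps hfpa1 hfpa3
  have hid : FP .poly (fun s : List Bool => s) := by fun_prop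
  obtain ⟨h1, h2, h3⟩ := hcb (List Bool) (fun s => s) hid
  have h4 := (hfpa1 (List Bool) (fun s => s) (fun _ => 0) (fun _ => 0) hid (by fun_prop)
    (by fun_prop)).2.2.2.2
  have hl : ∀ π : Bool,
      FP .poly (fun q : (List Bool × ℕ) × (ℕ × ℕ) => l2B q.1.1 q.2.1 q.2.2 π) := fun π =>
    hfpa3 hfpa1 p_fpa2 ((List Bool × ℕ) × (ℕ × ℕ)) (fun q => q.1.1) (fun q => q.2.1)
      (fun q => q.2.2) π (by fun_prop) (by fun_prop) (by fun_prop)
  have hsr : FP .poly (fun q : List Bool × ℕ => srch (3 * numV q.1 + 1) (l2B q.1) q.2) :=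
    hfps (List Bool × ℕ) (fun q => 3 * numV q.1 + 1) (fun q => q.2) (fun q => l2B q.1)
      (by fun_prop) (by fun_prop) (hl false) (hl true)
  unfold algB
  exact (((h1.and h2).and h3).and h4).and (FP.all (by fun_prop) hsr.not)

end SDich.SC
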