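import Pool.Agent.Lib.MP_e7d961_lc.SC.Stm
import Pool.Agent.Lib.MP_a28c52_lc.Gadget

/-!
[fpr] the functions `rvT` and `actT` on names are computed in polynomial time.
-/

namespace SDich.SC

open Finset HerCo CookLevin

section

variable {α : Type} [Enc α]

private theorem fpr_eqN {A B : α → ℕ} (hA : FP .poly A) (hB : FP .poly B) :
    FP .poly (fun t => decide (A t = B t)) := by fun_prop

private theorem fpr_bit {x : α → Bool × Bool × Bool} {i : α → ℕ} (hx : FP .poly x)
    (hi : FP .poly i) : FP .poly (fun t => bitT (x t) (i t)) := by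
  unfold bitT
  fun_prop

private theorem fpr_mk {j : α → ℕ} {u v b : α → Bool} (hj : FP .poly j) (hu : FP .poly u)
    (hv : FP .poly v) (hb : FP .poly b) : FP .poly (fun t => mkT (j t) (u t) (v t) (b t)) := by
  unfold mkT
  fun_prop

private theorem fpr_zc {x : α → Bool × Bool × Bool} {j : α → ℕ} (hx : FP .poly x)
    (hj : FP .poly j) : FP .poly (fun t => zcT (j t) (x t)) := by
  have h3 : FP .poly (fun _ : α => (3 : ℕ)) := FP.const 3
  have h1 : FP .poly (fun t => (j t + 1) % 3) := FP.mod (by fun_prop) h3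
  have h2 : FP .poly (fun t => (j t + 2) % 3) := FP.mod (by fun_prop) h3
  have e1 := fpr_bit hx h1
  have e2 := fpr_bit hx h2
  unfold zcT
  fun_prop

private theorem fpr_occ {T : α → List (ℕ × ℕ × ℕ)} {k j : α → ℕ} (hT : FP .poly T)
    (hk : FP .poly k) (hj : FP .poly j) : FP .poly (fun t => occT (T t) (k t) (j t)) := by
  unfold occT
  fun_prop

private theorem fpr_act {h : α → Th} {p : α → ℕ} (hh : FP .poly h) (hp : FP .poly p) :
    FP .poly (fun t => actT (h t) (p t)) := by
  unfold actT
  fun_prop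

private theorem fpr_pt {T : α → List (ℕ × ℕ × ℕ)} {q : α → Tc} {j : α → ℕ} (hT : FP .poly T)
    (hq : FP .poly q) (hj : FP .poly j) : FP .poly (fun t => ptT (T t) (q t) (j t)) := by
  have h3 : FP .poly (fun _ : α => (3 : ℕ)) := FP.const 3
  have hk : FP .poly (fun t => (q t).2.1) := by fun_prop
  have hi : FP .poly (fun t => (q t).1.2) := by fun_prop
  have h1 : FP .poly (fun t => (j t + 1) % 3) := FP.mod (by fun_prop) h3
  have h2 : FP .poly (fun t => (j t + 2) % 3) := FP.mod (by fun_prop) h3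
  have h1' : FP .poly (fun t => ((q t).1.2 + 1) % 3) := FP.mod (by fun_prop) h3
  have h2' : FP .poly (fun t => ((q t).1.2 + 2) % 3) := FP.mod (by fun_prop) h3
  have e1 := fpr_occ hT hk h1
  have e2 := fpr_occ hT hk hi
  unfold ptT
  fun_prop

private theorem fpr_crv {M p : α → ℕ} {q : α → Tc} {x : α → Bool × Bool × Bool}
    (hM : FP .poly M) (hq : FP .poly q) (hx : FP .poly x) (hp : FP .poly p) :
    FP .poly (fun t => crvT (M t) (q t) (x t) (p t)) := by
  unfold crvT
  fun_prop

private theorem fpr_rv0 {T : α → List (ℕ × ℕ × ℕ)} {w : α → Tn} {p : α → ℕ} (hT : FP .poly T)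
    (hw : FP .poly w) (hp : FP .poly p) :
    FP .poly (fun t => (if p t < 3 then (((w t).1, zcT (p t) (w t).2.2),
        if bitT (w t).2.2 (p t) then 1 else 0)
      else if p t = 3 then (((w t).1, ((2, 0), (w t).2.2)), 0)
      else (((crvT (T t).length (w t).1 (w t).2.2 (p t)).1, (w t).2),
        (crvT (T t).length (w t).1 (w t).2.2 (p t)).2) : Tn × ℕ)) := by
  have hx : FP .poly (fun t => (w t).2.2) := by fun_prop
  have hq : FP .poly (fun t => (w t).1) := by fun_prop
  have hl : FP .poly (fun t => (T t).length) := by fun_prop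
  have e1 := fpr_zc hx hp
  have e2 := fpr_bit hx hp
  have e3 := fpr_crv hl hq hx hp
  fun_prop

private theorem fpr_rv1 {T : α → List (ℕ × ℕ × ℕ)} {w : α → Tn} {p : α → ℕ} (hT : FP .poly T)
    (hw : FP .poly w) (hp : FP .poly p) :
    FP .poly (fun t => (if p t = 0 then
        (((w t).1, ((0, 0), mkT (w t).2.1.2 (w t).2.2.1 (w t).2.2.2.1 false)), (w t).2.1.2)
      else if p t = 1 then
        (((w t).1, ((0, 0), mkT (w t).2.1.2 (w t).2.2.1 (w t).2.2.2.1 true)), (w t).2.1.2)
      else if p t = 2 then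
        (if (w t).2.1.2 = 2 then (((w t).1, ((3, 0), (w t).2.2)), 0) else (w t, p t))
      else if p t = 5 then (w t, p t)
      else if p t = 4 ∧ (w t).2.1.2 = 0 then (w t, p t)
      else if (w t).2.2.1 = false ∧ (w t).2.2.2.1 = false ∧
          ¬ ptT (T t) (w t).1 (w t).2.1.2 = (w t).1 then
        ((ptT (T t) (w t).1 (w t).2.1.2, (w t).2), p t)
      else if (w t).2.1.2 = 0 then (w t, p t)
      else (w t, if p t = 3 then 4 else 3) : Tn × ℕ)) := by
  have hj : FP .poly (fun t => (w t).2.1.2) := by fun_prop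
  have hu : FP .poly (fun t => (w t).2.2.1) := by fun_prop
  have hv : FP .poly (fun t => (w t).2.2.2.1) := by fun_prop
  have hq : FP .poly (fun t => (w t).1) := by fun_prop
  have e1 := fpr_mk hj hu hv (FP.const (α := α) false)
  have e2 := fpr_mk hj hu hv (FP.const (α := α) true)
  have e3 := fpr_pt hT hq hj
  fun_prop

end

theorem p_fpr : S_fpr := by
  intro α _ T w p hT hw hp
  refine ⟨?_, fpr_act (by fun_prop) hp⟩
  have e0 := fpr_rv0 hT hw hp
  have e1 := fpr_rv1 hT hw hp
  unfold rvT
  exact FP.iteP (by fun_prop) e0 (FP.iteP (by fun_prop) e1 (by fun_prop))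

end SDich.SC
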