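import Pool.Agent.Lib.MP_e7d961_lc.SC.Stm

/-!
Piece [fpv] (`MP_e7d961_lc`, the graph `HC`): the list of names is computed in polynomial time.
-/

set_option autoImplicit false

namespace SDich.SC

open Finset HerCo CookLevin

theorem p_fpv : S_fpv := by
  intro α _ nv M hnv hM
  unfold vertsT cubesT hvT
  fun_prop

end SDich.SC
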