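import Pool.Agent.Lib.MP_e7d961_lc.SC.Stm

/-!
`HC` is connected (`MP_e7d961_lc`, piece hconn).
-/

namespace SDich.SC

open Finset HerCo CookLevin

/-- mutually reachable -/
private def hconn_R (a b : HV) : Prop :=
  Relation.ReflTransGen HC.Nbr a b ∧ Relation.ReflTransGen HC.Nbr b a

private theorem hconn_tr {a b c : HV} (h : hconn_R a b) (h' : hconn_R b c) : hconn_R a c :=
  ⟨h.1.trans h'.1, h'.2.trans h.2⟩

private theorem hconn_sy {a b : HV} (h : hconn_R a b) : hconn_R b a := ⟨h.2, h.1⟩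

private theorem hconn_e {a b : HV} (e : HE) (h : HC.ends e = {a, b}) : hconn_R a b :=
  ⟨Relation.ReflTransGen.single ⟨e, Or.inl h⟩,
    Relation.ReflTransGen.single ⟨e, Or.inl (h.trans (Multiset.pair_comm _ _))⟩⟩

private theorem hconn_az (j : Fin 3) (x : Q3) : hconn_R (.s x) (zc j x) := hconn_e (.az j x) rfl

/-- the bit `j` can be cleared -/
private theorem hconn_fl (j : Fin 3) (x : Q3) :
    hconn_R (.s x) (.s (mk3 j (x (j + 1)) (x (j + 2)) false)) := by
  refine hconn_tr (hconn_az j x) (hconn_sy ?_)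
  have h := hconn_az j (mk3 j (x (j + 1)) (x (j + 2)) false)
  rw [zc_mk3] at h
  exact h

private theorem hconn_cl (x : Q3) :
    mk3 2 ((mk3 1 ((mk3 0 (x (0 + 1)) (x (0 + 2)) false) (1 + 1))
      ((mk3 0 (x (0 + 1)) (x (0 + 2)) false) (1 + 2)) false) (2 + 1))
      ((mk3 1 ((mk3 0 (x (0 + 1)) (x (0 + 2)) false) (1 + 1))
      ((mk3 0 (x (0 + 1)) (x (0 + 2)) false) (1 + 2)) false) (2 + 2)) false = o3 := by
  revert x; decide

private theorem hconn_s (x : Q3) : hconn_R (.s x) (.s o3) := by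
  have h := hconn_tr (hconn_fl 0 x) (hconn_tr (hconn_fl 1 _) (hconn_fl 2 _))
  rw [hconn_cl] at h
  exact h

private theorem hconn_z (j : Fin 3) (u v : Bool) : hconn_R (.z j u v) (.s o3) := by
  have h := hconn_az j (mk3 j u v false)
  rw [zc_mk3] at h
  exact hconn_tr (hconn_sy h) (hconn_s _)

private theorem hconn_all (a : HV) : hconn_R a (.s o3) := by
  cases a with
  | s x => exact hconn_s x
  | z j u v => exact hconn_z j u v
  | ls x => exact hconn_tr (hconn_sy (hconn_e (.als x) rfl)) (hconn_s x)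
  | lz u v => exact hconn_tr (hconn_sy (hconn_e (.alz u v) rfl)) (hconn_z 2 u v)

theorem p_hconn : S_hconn :=
  ⟨⟨.s o3⟩, fun x y => (hconn_tr (hconn_all x) (hconn_sy (hconn_all y))).1⟩

end SDich.SC
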