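import Pool.Agent.Lib.MP_e7d961_lc.SC.Stm

/-! `MP_e7d961_lc`, project SC, piece hdeg: the degrees of the vertices of `HC`. -/

namespace SDich.SC

open Finset HerCo CookLevin

private abbrev hdeg_T : Type := (Fin 3 × Q3) ⊕ Q3 ⊕ (Bool × Bool) ⊕ (Fin 3 × Bool × Bool) ⊕
  Unit ⊕ ({x : Q3 // x ≠ o3} × Bool)

private def hdeg_to : hdeg_T → HE
  | .inl (j, x) => .az j x
  | .inr (.inl x) => .als x
  | .inr (.inr (.inl (u, v))) => .alz u v
  | .inr (.inr (.inr (.inl (j, u, v)))) => .zz j u v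
  | .inr (.inr (.inr (.inr (.inl _)))) => .lp
  | .inr (.inr (.inr (.inr (.inr (x, b))))) => .sm x b

private theorem hdeg_bij : Function.Bijective hdeg_to := by
  constructor
  · rintro (⟨j, x⟩ | x | ⟨u, v⟩ | ⟨j, u, v⟩ | ⟨⟩ | ⟨x, b⟩)
      (⟨j', x'⟩ | x' | ⟨u', v'⟩ | ⟨j', u', v'⟩ | ⟨⟩ | ⟨x', b'⟩) h <;>
      simp [hdeg_to] at h ⊢ <;> simp_all
  · rintro (⟨j, x⟩ | x | ⟨u, v⟩ | ⟨j, u, v⟩ | _ | ⟨x, b⟩)
    · exact ⟨.inl (j, x), rfl⟩
    · exact ⟨.inr (.inl x), rfl⟩
    · exact ⟨.inr (.inr (.inl (u, v))), rfl⟩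
    · exact ⟨.inr (.inr (.inr (.inl (j, u, v)))), rfl⟩
    · exact ⟨.inr (.inr (.inr (.inr (.inl ())))), rfl⟩
    · exact ⟨.inr (.inr (.inr (.inr (.inr (x, b))))), rfl⟩

private theorem hdeg_sum (F : HE → ℕ) : ∑ e, F e =
    (∑ j, ∑ x, F (.az j x)) + ((∑ x, F (.als x)) + ((∑ u, ∑ v, F (.alz u v)) +
      ((∑ j, ∑ u, ∑ v, F (.zz j u v)) + (F .lp + ∑ x, ∑ b, F (.sm x b))))) := by
  rw [← Function.Bijective.sum_comp hdeg_bij F]
  simp only [Fintype.sum_sum_type, Fintype.sum_prod_type, hdeg_to]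
  simp

private theorem hdeg_deg (w : HV) : HC.deg w =
    (∑ j : Fin 3, ∑ x : Q3, (({HV.s x, zc j x} : Multiset HV)).count w) +
    ((∑ x : Q3, (({HV.s x, HV.ls x} : Multiset HV)).count w) +
    ((∑ u : Bool, ∑ v : Bool, (({HV.z 2 u v, HV.lz u v} : Multiset HV)).count w) +
    ((∑ j : Fin 3, ∑ u : Bool, ∑ v : Bool, ((if j = 0 then {HV.z j u v} else
      {HV.z j u v, HV.z j u v} : Multiset HV)).count w) +
    ((({HV.s o3, HV.s o3} : Multiset HV)).count w +
      ∑ x : {x : Q3 // x ≠ o3}, ∑ _b : Bool, (({HV.s x.1} : Multiset HV)).count w)))) :=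
  hdeg_sum fun e => (HC.ends e).count w

private theorem hdeg_two (j : Fin 3) (u v : Bool) :
    (∑ x : Q3, if HV.z j u v = zc j x then 1 else 0) = 2 := by
  have h : ∀ x : Q3, (HV.z j u v = zc j x) ↔ (x (j + 1) = u ∧ x (j + 2) = v) := by
    intro x
    simp only [zc, HV.z.injEq, true_and]
    constructor
    · rintro ⟨rfl, rfl⟩; exact ⟨rfl, rfl⟩
    · rintro ⟨rfl, rfl⟩; exact ⟨rfl, rfl⟩
  simp only [h]
  revert j u v
  decide +kernel

private theorem hdeg_if (j : Fin 3) (w v : HV) : ((if j = 0 then {v} else {v, v} :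
    Multiset HV)).count w = if w = v then (if j = 0 then 1 else 2) else 0 := by
  by_cases hj : j = 0
  · by_cases h : w = v
    · simp [hj, h]
    · simp [hj, h]
  · by_cases h : w = v
    · simp [hj, h]
    · simp [hj, h]

theorem p_hdeg : S_hdeg := by
  refine ⟨?_, ?_, ?_, ?_⟩
  · intro y
    rw [hdeg_deg]
    simp only [hdeg_if]
    simp only [Multiset.insert_eq_cons, Multiset.count_cons, Multiset.count_singleton, zc,
      HV.s.injEq, reduceCtorEq, if_false, add_zero, zero_add]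
    by_cases hy : y = o3
    · subst hy
      have h0 : (∑ x : {x : Q3 // x ≠ o3}, if o3 = x.1 then 2 else 0) = 0 :=
        Finset.sum_eq_zero fun x _ => if_neg fun h => x.2 h.symm
      simp [h0]
    · have h0 : (∑ x : {x : Q3 // x ≠ o3}, if y = x.1 then 2 else 0) = 2 := by
        have h1 : ∀ x : {x : Q3 // x ≠ o3}, (y = x.1) ↔ ((⟨y, hy⟩ : {x : Q3 // x ≠ o3}) = x) :=
          fun x => ⟨fun h => Subtype.ext h, fun h => congrArg Subtype.val h⟩
        simp only [h1]
        rw [Finset.sum_ite_eq, if_pos (Finset.mem_univ _)]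
      simp [hy, h0]
  · intro j u v
    rw [hdeg_deg]
    simp only [hdeg_if]
    simp only [Multiset.insert_eq_cons, Multiset.count_cons, Multiset.count_singleton,
      HV.z.injEq, reduceCtorEq, if_false, add_zero, zero_add]
    have h0 : (∑ i : Fin 3, ∑ x : Q3, if HV.z j u v = zc i x then 1 else 0) = 2 := by
      rw [Finset.sum_eq_single j, hdeg_two]
      · intro i _ hi
        refine Finset.sum_eq_zero fun x _ => if_neg fun h => ?_
        simp only [zc, HV.z.injEq] at h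
        exact hi h.1.symm
      · intro h
        exact absurd (Finset.mem_univ j) h
    rw [h0]
    revert j u v
    decide +kernel
  · intro x
    rw [hdeg_deg]
    simp only [hdeg_if]
    simp only [Multiset.insert_eq_cons, Multiset.count_cons, Multiset.count_singleton, zc,
      HV.ls.injEq, reduceCtorEq, if_false, add_zero, zero_add]
    simp
  · intro u v
    rw [hdeg_deg]
    simp only [hdeg_if]
    simp only [Multiset.insert_eq_cons, Multiset.count_cons, Multiset.count_singleton, zc,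
      HV.lz.injEq, reduceCtorEq, if_false, add_zero, zero_add]
    revert u v
    decide +kernel

end SDich.SC
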