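import Pool.Agent.Lib.MP_e7d961_lc.SC.Stm

/-!
Piece `onto` (`MP_e7d961_lc`): local conditions and connectedness give surjectivity.
-/

namespace SDich.SC

open Finset HerCo CookLevin

/-- an edge of `H` at `f v` is the image of an edge at `v` -/
private theorem onto_lift {G H : Gr} {f : G.V → H.V} {g : G.E → H.E}
    (hloc : ∀ v e, ∑ e' ∈ univ.filter (fun e' => g e' = e), (G.ends e').count v =
      (H.ends e).count (f v)) (v : G.V) (e : H.E) (h : f v ∈ H.ends e) :
    ∃ e', g e' = e ∧ v ∈ G.ends e' := by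
  by_contra hc
  have h0 : ∑ e' ∈ univ.filter (fun e' => g e' = e), (G.ends e').count v = 0 := by
    apply Finset.sum_eq_zero
    intro e' he'
    refine Multiset.count_eq_zero.2 fun hv => hc ⟨e', (Finset.mem_filter.1 he').2, hv⟩
  rw [hloc] at h0
  exact (Multiset.count_eq_zero.1 h0) h

theorem p_onto : S_onto := by
  intro G H f g hc hn hends hloc
  have himg : ∀ (v : G.V) (e : H.E), f v ∈ H.ends e → ∀ y ∈ H.ends e, ∃ x, f x = y := by
    intro v e hv y hy
    obtain ⟨e', he', _⟩ := onto_lift hloc v e hv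
    have hm : y ∈ (G.ends e').map f := by
      rcases hends e' with h | ⟨_, h⟩
      · rw [h, he']
        exact hy
      · rw [h, he']
        exact Multiset.mem_add.2 (Or.inl hy)
    obtain ⟨x, _, hx⟩ := Multiset.mem_map.1 hm
    exact ⟨x, hx⟩
  have hf : Function.Surjective f := by
    obtain ⟨v0⟩ := hn
    intro y
    have hr := hc.2 (f v0) y
    induction hr with
    | refl => exact ⟨v0, rfl⟩
    | tail _ hbc ih =>
      obtain ⟨v, rfl⟩ := ih
      obtain ⟨e, he | ⟨he, _⟩⟩ := hbc
      · exact himg v e (by rw [he]; simp) _ (by rw [he]; simp)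
      · exact ⟨v, he⟩
  refine ⟨hf, fun e => ?_⟩
  obtain ⟨y, hy⟩ : ∃ y, y ∈ H.ends e := by
    apply Multiset.card_pos_iff_exists_mem.1
    rcases H.card_ends e with h | h <;> omega
  obtain ⟨v, rfl⟩ := hf y
  obtain ⟨e', he', _⟩ := onto_lift hloc v e hy
  exact ⟨e', he'⟩

end SDich.SC
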