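import Pool.Agent.Lib.MP_e7d961_lc.SC.Stm

/-!
[p1a] A simple graph with a covering projection to `HC` satisfies the local conditions.
-/

namespace SDich.SC

open Finset HerCo CookLevin

/-- the degree of the other end of the edge `e` at the vertex `h` -/
private def p1aK : HV → HE → ℕ
  | .s _, .az j _ => 3 + (j : ℕ)
  | _, .az _ _ => 6
  | .s _, .als _ => 1
  | _, .als _ => 6
  | .z _ _ _, .alz _ _ => 1
  | _, .alz _ _ => 5
  | _, .zz j _ _ => 3 + (j : ℕ)
  | _, .lp => 6
  | _, .sm _ _ => 6

/-- the degrees in `HC` -/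
private def p1aD : HV → ℕ
  | .s _ => 6
  | .z j _ _ => 3 + (j : ℕ)
  | .ls _ => 1
  | .lz _ _ => 1

/-- the ends of the edges -/
private def p1aE : HE → Multiset HV
  | .az j x => {.s x, zc j x}
  | .als x => {.s x, .ls x}
  | .alz u v => {.z 2 u v, .lz u v}
  | .zz j u v => if j = 0 then {.z j u v} else {.z j u v, .z j u v}
  | .lp => {.s o3, .s o3}
  | .sm x _ => {.s x.1}

private theorem p1a_pair {α : Type} {a b c d : α} (h : ({a, b} : Multiset α) = {c, d}) :
    (a = c ∧ b = d) ∨ (a = d ∧ b = c) := by
  have h1 : a ::ₘ ({b} : Multiset α) = c ::ₘ {d} := h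
  rcases Multiset.cons_eq_cons.1 h1 with ⟨h2, h3⟩ | ⟨_, cs, h2, h3⟩
  · exact Or.inl ⟨h2, Multiset.singleton_inj.1 h3⟩
  · right
    have h4 : cs.card = 0 := by
      have := congrArg Multiset.card h2
      simp at this
      simpa using this
    rw [Multiset.card_eq_zero] at h4
    subst h4
    have h5 : ({b} : Multiset α) = {c} := h2
    have h6 : ({d} : Multiset α) = {a} := h3
    exact ⟨(Multiset.singleton_inj.1 h6).symm, Multiset.singleton_inj.1 h5⟩

private theorem p1a_ne {α : Type} {a b c : α} (h : ({a, b} : Multiset α) = {c}) : False := by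
  have := congrArg Multiset.card h
  simp at this

private theorem p1a_kd (h h' : HV) (e : HE)
    (he : p1aE e = {h, h'} ∨ (p1aE e = {h} ∧ h' = h)) : p1aD h' = p1aK h e := by
  rcases he with he | ⟨he, rfl⟩
  · cases e with
    | az j x =>
      rcases p1a_pair he with ⟨rfl, rfl⟩ | ⟨rfl, rfl⟩ <;> rfl
    | als x =>
      rcases p1a_pair he with ⟨rfl, rfl⟩ | ⟨rfl, rfl⟩ <;> rfl
    | alz u v =>
      rcases p1a_pair he with ⟨rfl, rfl⟩ | ⟨rfl, rfl⟩ <;> rfl
    | zz j u v =>
      change (if j = 0 then ({.z j u v} : Multiset HV) else {.z j u v, .z j u v}) = _ at he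
      split_ifs at he with hj
      · exact (p1a_ne he.symm).elim
      · rcases p1a_pair he with ⟨rfl, rfl⟩ | ⟨rfl, rfl⟩ <;> rfl
    | lp =>
      rcases p1a_pair he with ⟨rfl, rfl⟩ | ⟨rfl, rfl⟩ <;> rfl
    | sm x b => exact (p1a_ne he.symm).elim
  · cases e with
    | az j x => exact (p1a_ne he).elim
    | als x => exact (p1a_ne he).elim
    | alz u v => exact (p1a_ne he).elim
    | zz j u v =>
      change (if j = 0 then ({.z j u v} : Multiset HV) else {.z j u v, .z j u v}) = _ at he
      split_ifs at he with hj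
      · have := Multiset.singleton_inj.1 he
        subst this
        rfl
      · exact (p1a_ne he).elim
    | lp => exact (p1a_ne he).elim
    | sm x b =>
      have := Multiset.singleton_inj.1 he
      subst this
      rfl

/-- the numbers of neighbours -/
private def p1aN : HV → ℕ → ℕ
  | .s _, d => if d = 6 then 2 else if d = 3 ∨ d = 4 ∨ d = 5 ∨ d = 1 then 1 else 0
  | .z j _ _, d => if d = 6 then 2 else
      if j = 0 then (if d = 3 then 1 else 0)
      else if j = 1 then (if d = 4 then 2 else 0)
      else (if d = 5 then 2 else if d = 1 then 1 else 0)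
  | .ls _, d => if d = 6 then 1 else 0
  | .lz _ _, d => if d = 5 then 1 else 0

/-- the multiplicity of `h` in the ends of `e` -/
private def p1aC : HV → HE → ℕ
  | .s x, .az _ y => if x = y then 1 else 0
  | .z j u v, .az i y => if j = i ∧ u = y (i + 1) ∧ v = y (i + 2) then 1 else 0
  | .s x, .als y => if x = y then 1 else 0
  | .ls x, .als y => if x = y then 1 else 0
  | .z j u v, .alz u' v' => if j = 2 ∧ u = u' ∧ v = v' then 1 else 0
  | .lz u v, .alz u' v' => if u = u' ∧ v = v' then 1 else 0
  | .z j u v, .zz i u' v' => if j = i ∧ u = u' ∧ v = v' then (if i = 0 then 1 else 2) else 0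
  | .s x, .lp => if x = o3 then 2 else 0
  | .s x, .sm y _ => if x = y.1 then 1 else 0
  | _, _ => 0

private theorem p1a_cnt (h : HV) (e : HE) : (p1aE e).count h = p1aC h e := by
  cases e with
  | az i y =>
    change Multiset.count h (.s y ::ₘ {zc i y}) = _
    rw [Multiset.count_cons, Multiset.count_singleton]
    cases h <;> simp [p1aC, zc]
  | als y =>
    change Multiset.count h (.s y ::ₘ {.ls y}) = _
    rw [Multiset.count_cons, Multiset.count_singleton]
    cases h <;> simp [p1aC]
  | alz u v =>
    change Multiset.count h (.z 2 u v ::ₘ {.lz u v}) = _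
    rw [Multiset.count_cons, Multiset.count_singleton]
    cases h <;> simp [p1aC]
  | zz i u v =>
    change Multiset.count h (if i = 0 then ({.z i u v} : Multiset HV) else .z i u v ::ₘ {.z i u v}) = _
    by_cases hi : i = 0
    · rw [if_pos hi, Multiset.count_singleton]
      cases h <;> simp [p1aC, hi]
    · rw [if_neg hi, Multiset.count_cons, Multiset.count_singleton]
      cases h <;> simp [p1aC, hi]
      split_ifs <;> rfl
  | lp =>
    change Multiset.count h (.s o3 ::ₘ {.s o3}) = _
    rw [Multiset.count_cons, Multiset.count_singleton]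
    cases h <;> simp [p1aC]
    split_ifs <;> rfl
  | sm y b =>
    change Multiset.count h {.s y.1} = _
    rw [Multiset.count_singleton]
    cases h <;> simp [p1aC]

private theorem p1a_n1 : ∀ (u v b : Bool), ∀ d ∈ ({1, 3, 4, 5, 6} : Finset ℕ),
    ∑ e ∈ univ.filter (fun e => p1aK (.s (mk3 0 u v b)) e = d), p1aC (.s (mk3 0 u v b)) e =
      p1aN (.s (mk3 0 u v b)) d := by
  decide +kernel

private theorem p1a_n2 : ∀ (j : Fin 3) (u v : Bool), ∀ d ∈ ({1, 3, 4, 5, 6} : Finset ℕ),
    ∑ e ∈ univ.filter (fun e => p1aK (.z j u v) e = d), p1aC (.z j u v) e =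
      p1aN (.z j u v) d := by
  decide +kernel

private theorem p1a_n3 : ∀ (u v b : Bool), ∀ d ∈ ({1, 3, 4, 5, 6} : Finset ℕ),
    ∑ e ∈ univ.filter (fun e => p1aK (.ls (mk3 0 u v b)) e = d), p1aC (.ls (mk3 0 u v b)) e =
      p1aN (.ls (mk3 0 u v b)) d := by
  decide +kernel

private theorem p1a_n4 : ∀ (u v : Bool), ∀ d ∈ ({1, 3, 4, 5, 6} : Finset ℕ),
    ∑ e ∈ univ.filter (fun e => p1aK (.lz u v) e = d), p1aC (.lz u v) e =
      p1aN (.lz u v) d := by
  decide +kernel

private theorem p1a_num (h : HV) : ∀ d ∈ ({1, 3, 4, 5, 6} : Finset ℕ),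
    ∑ e ∈ univ.filter (fun e => p1aK h e = d), (p1aE e).count h = p1aN h d := by
  intro d hd
  rw [Finset.sum_congr rfl fun e _ => p1a_cnt h e]
  cases h with
  | s x =>
    rw [← mk3_self 0 x]
    exact p1a_n1 _ _ _ d hd
  | z j u v => exact p1a_n2 j u v d hd
  | ls x =>
    rw [← mk3_self 0 x]
    exact p1a_n3 _ _ _ d hd
  | lz u v => exact p1a_n4 u v d hd

theorem p_p1a : S_p1a := by
  classical
  intro h1 h2 V _ S f γ hC v
  have hdeg : ∀ w, dg S w = p1aD (f w) := by
    intro w
    rw [h1 V S f γ hC w]
    obtain ⟨a, b, c, d⟩ := h2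
    cases f w with
    | s x => exact a x
    | z j u v => exact b j u v
    | ls x => exact c x
    | lz u v => exact d u v
  have hkd : ∀ w, S.Adj v w → dg S w = p1aK (f v) (γ v w) := by
    intro w hw
    rw [hdeg w]
    apply p1a_kd
    exact hC.ends v w hw
  have hnb : ∀ d, nb S v d = ∑ e ∈ univ.filter (fun e => p1aK (f v) e = d),
      (p1aE e).count (f v) := by
    intro d
    have h3 : nb S v d = ∑ e ∈ univ.filter (fun e => p1aK (f v) e = d),
        (univ.filter fun w => S.Adj v w ∧ γ v w = e).card := by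
      unfold nb
      rw [← Finset.card_biUnion]
      · congr 1
        ext w
        simp only [mem_filter, mem_univ, true_and, mem_biUnion]
        constructor
        · rintro ⟨ha, hb⟩
          exact ⟨γ v w, by rw [← hkd w ha, hb], ha, rfl⟩
        · rintro ⟨e, hb, ha, hc⟩
          refine ⟨ha, ?_⟩
          rw [hkd w ha, hc, hb]
      · intro e _ e' _ hne
        change Disjoint _ _
        rw [Finset.disjoint_left]
        intro w hw hw'
        simp only [mem_filter, mem_univ, true_and] at hw hw'
        exact hne (hw.2.symm.trans hw'.2)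
    rw [h3]
    refine Finset.sum_congr rfl fun e _ => ?_
    have := hC.loc v e
    convert this using 2
    cases e <;> rfl
  have hval : ∀ d ∈ ({1, 3, 4, 5, 6} : Finset ℕ), nb S v d = p1aN (f v) d := by
    intro d hd
    rw [hnb d, ← p1a_num (f v) d hd]
  have hv := hdeg v
  revert hval hv
  generalize f v = x
  intro hval hv
  cases x with
  | s x =>
    left
    refine ⟨hv, hval 6 (by decide), hval 3 (by decide), hval 4 (by decide),
      hval 5 (by decide), hval 1 (by decide)⟩
  | z j u w =>
    right
    fin_cases j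
    · left
      exact ⟨hv, hval 6 (by decide), hval 3 (by decide)⟩
    · right; left
      exact ⟨hv, hval 6 (by decide), hval 4 (by decide)⟩
    · right; right; left
      exact ⟨hv, hval 6 (by decide), hval 5 (by decide),
        hval 1 (by decide)⟩
  | ls x =>
    right; right; right; right
    exact ⟨hv, hval 1 (by decide)⟩
  | lz u w =>
    right; right; right; right
    exact ⟨hv, hval 1 (by decide)⟩

end SDich.SC
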