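import Pool.Agent.Lib.MP_e7d961_lc.SC.Stm

/-!
Piece `p1b` (`MP_e7d961_lc`): the bits of a covering of `HC` satisfy `same` and `dif`.
-/

namespace SDich.SC

open Finset HerCo CookLevin

private theorem p1b_bz (j i : Fin 3) (x : Q3) (h : i ≠ j) :
    bitsH (zc j x) i = x i := by
  revert j i x h
  decide

private theorem p1b_pair {α : Type} {a b c d : α}
    (h : ({a, b} : Multiset α) = {c, d}) : (a = c ∧ b = d) ∨ (a = d ∧ b = c) := by
  rw [Multiset.insert_eq_cons, Multiset.insert_eq_cons, Multiset.cons_eq_cons] at h
  rcases h with ⟨h1, h2⟩ | ⟨h1, cs, h2, h3⟩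
  · left
    exact ⟨h1, Multiset.singleton_inj.mp h2⟩
  · right
    have hc : cs = 0 := by
      have := congrArg Multiset.card h2
      simp at this
      simpa using this
    subst hc
    simp at h2 h3
    exact ⟨h3.symm, h2⟩

private theorem p1b_card {α : Type} {a b c : α} (h : ({a} : Multiset α) = {b, c}) : False := by
  have := congrArg Multiset.card h
  simp at this

theorem p_p1b : S_p1b := by
  intro hd hdeg V _ S f γ hC
  obtain ⟨hs, hz, hls, hlz⟩ := hdeg
  have hdg := hd V S f γ hC
  constructor
  · intro i a b ⟨hab, ha1, hb1, hai, hbi⟩
    rw [hdg] at ha1 hb1 hai hbi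
    rcases hC.ends a b hab with he | ⟨-, he⟩
    · cases hg : γ a b with
      | az j x =>
        rw [hg] at he
        rcases p1b_pair (show ({HV.s x, zc j x} : Multiset HV) = {f a, f b} from he) with
          ⟨h1, h2⟩ | ⟨h1, h2⟩
        · rw [← h1, ← h2]
          rw [← h2] at hbi
          have hj : i ≠ j := by
            rintro rfl
            exact hbi (hz i _ _)
          rw [p1b_bz j i x hj]
          rfl
        · rw [← h1, ← h2]
          rw [← h2] at hai
          have hj : i ≠ j := by
            rintro rfl
            exact hai (hz i _ _)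
          rw [p1b_bz j i x hj]
          rfl
      | als x =>
        rw [hg] at he
        rcases p1b_pair (show ({HV.s x, HV.ls x} : Multiset HV) = {f a, f b} from he) with
          ⟨h1, h2⟩ | ⟨h1, h2⟩
        · exact absurd (by rw [← h2]; exact hls x) hb1
        · exact absurd (by rw [← h2]; exact hls x) ha1
      | alz u v =>
        rw [hg] at he
        rcases p1b_pair (show ({HV.z 2 u v, HV.lz u v} : Multiset HV) = {f a, f b} from he) with
          ⟨h1, h2⟩ | ⟨h1, h2⟩
        · exact absurd (by rw [← h2]; exact hlz u v) hb1
        · exact absurd (by rw [← h2]; exact hlz u v) ha1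
      | zz j u v =>
        rw [hg] at he
        have he' : (if j = 0 then ({HV.z j u v} : Multiset HV) else {HV.z j u v, HV.z j u v}) =
          {f a, f b} := he
        by_cases hj : j = 0
        · rw [if_pos hj] at he'
          exact (p1b_card he').elim
        · rw [if_neg hj] at he'
          rcases p1b_pair he' with ⟨h1, h2⟩ | ⟨h1, h2⟩
          · rw [← h1, ← h2]
          · rw [← h1, ← h2]
      | lp =>
        rw [hg] at he
        rcases p1b_pair (show ({HV.s o3, HV.s o3} : Multiset HV) = {f a, f b} from he) with
          ⟨h1, h2⟩ | ⟨h1, h2⟩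
        · rw [← h1, ← h2]
        · rw [← h1, ← h2]
      | sm x c =>
        rw [hg] at he
        exact (p1b_card (show ({HV.s x.1} : Multiset HV) = {f a, f b} from he)).elim
    · rw [he]
  · intro i a b ⟨hab, ha, hb, w, hw, haw, hbw⟩
    rw [hdg] at ha hb hw
    -- the vertex w
    obtain ⟨u, v, hfw⟩ : ∃ u v, f w = HV.z i u v := by
      cases hf : f w with
      | s x =>
        rw [hf, hs] at hw
        have := i.isLt
        omega
      | z j u v =>
        rw [hf, hz] at hw
        have : j = i := by
          apply Fin.ext
          omega
        subst this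
        exact ⟨u, v, rfl⟩
      | ls x =>
        rw [hf, hls] at hw
        omega
      | lz u v =>
        rw [hf, hlz] at hw
        omega
    have key : ∀ c, HC.deg (f c) = 6 → S.Adj w c → ∃ x, f c = HV.s x ∧ zc i x = HV.z i u v ∧
        γ w c = HE.az i x := by
      intro c hc hwc
      have hfc : ∃ x, f c = HV.s x := by
        cases hf : f c with
        | s x => exact ⟨x, rfl⟩
        | z j u v =>
          rw [hf, hz] at hc
          have := j.isLt
          omega
        | ls x =>
          rw [hf, hls] at hc
          omega
        | lz u v =>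
          rw [hf, hlz] at hc
          omega
      obtain ⟨x, hx⟩ := hfc
      refine ⟨x, hx, ?_⟩
      rcases hC.ends w c hwc with he | ⟨-, he⟩
      · rw [hfw, hx] at he
        cases hg : γ w c with
        | az j y =>
          rw [hg] at he
          rcases p1b_pair (show ({HV.s y, zc j y} : Multiset HV) = {HV.z i u v, HV.s x} from he)
            with ⟨h1, h2⟩ | ⟨h1, h2⟩
          · exact absurd h1 (by simp)
          · have h1' : y = x := by simpa using h1
            subst h1'
            have hj : j = i := by
              have h3 : HV.z j (y (j + 1)) (y (j + 2)) = HV.z i u v := h2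
              simp only [HV.z.injEq] at h3
              exact h3.1
            subst hj
            exact ⟨h2, rfl⟩
        | als y =>
          rw [hg] at he
          rcases p1b_pair (show ({HV.s y, HV.ls y} : Multiset HV) = {HV.z i u v, HV.s x} from he)
            with ⟨h1, h2⟩ | ⟨h1, h2⟩
          · exact absurd h1 (by simp)
          · exact absurd h2 (by simp)
        | alz u' v' =>
          rw [hg] at he
          rcases p1b_pair (show ({HV.z 2 u' v', HV.lz u' v'} : Multiset HV) =
            {HV.z i u v, HV.s x} from he) with ⟨h1, h2⟩ | ⟨h1, h2⟩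
          · exact absurd h2 (by simp)
          · exact absurd h1 (by simp)
        | zz j u' v' =>
          rw [hg] at he
          have he' : (if j = 0 then ({HV.z j u' v'} : Multiset HV)
            else {HV.z j u' v', HV.z j u' v'}) = {HV.z i u v, HV.s x} := he
          by_cases hj : j = 0
          · rw [if_pos hj] at he'
            exact (p1b_card he').elim
          · rw [if_neg hj] at he'
            rcases p1b_pair he' with ⟨h1, h2⟩ | ⟨h1, h2⟩
            · exact absurd h2 (by simp)
            · exact absurd h1 (by simp)
        | lp =>
          rw [hg] at he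
          rcases p1b_pair (show ({HV.s o3, HV.s o3} : Multiset HV) = {HV.z i u v, HV.s x} from he)
            with ⟨h1, h2⟩ | ⟨h1, h2⟩
          · exact absurd h1 (by simp)
          · exact absurd h2 (by simp)
        | sm y c =>
          rw [hg] at he
          exact (p1b_card (show ({HV.s y.1} : Multiset HV) = {HV.z i u v, HV.s x} from he)).elim
      · rw [hfw, hx] at he
        exact absurd he (by simp)
    obtain ⟨x, hx, hzx, hgx⟩ := key a ha haw.symm
    obtain ⟨y, hy, hzy, hgy⟩ := key b hb hbw.symm
    rw [hx, hy]
    intro hxy
    have hxy' : x i = y i := hxy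
    have hxeq : x = y := by
      have e1 : mk3 i (x (i + 1)) (x (i + 2)) (x i) = x := mk3_self i x
      have e2 : mk3 i (y (i + 1)) (y (i + 2)) (y i) = y := mk3_self i y
      have h3 : HV.z i (x (i + 1)) (x (i + 2)) = HV.z i (y (i + 1)) (y (i + 2)) :=
        hzx.trans hzy.symm
      simp only [HV.z.injEq, true_and] at h3
      rw [← e1, ← e2, h3.1, h3.2, hxy']
    subst hxeq
    classical
    have hl := hC.loc w (HE.az i x)
    have hcount : (HC.ends (HE.az i x)).count (f w) = 1 := by
      rw [hfw, ← hzx]
      show Multiset.count (zc i x) ({HV.s x, zc i x} : Multiset HV) = 1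
      rw [Multiset.insert_eq_cons, Multiset.count_cons, Multiset.count_singleton_self]
      simp [zc]
    rw [hcount] at hl
    have h2 : 1 < (univ.filter fun w' => S.Adj w w' ∧ γ w w' = HE.az i x).card := by
      rw [Finset.one_lt_card]
      refine ⟨a, ?_, b, ?_, hab⟩
      · simp only [mem_filter, mem_univ, true_and]
        exact ⟨haw.symm, hgx⟩
      · simp only [mem_filter, mem_univ, true_and]
        exact ⟨hbw.symm, hgy⟩
    have h3 : (univ.filter fun w' => S.Adj w w' ∧ γ w w' = HE.az i x).card = 1 := by
      rw [← hl]
    omega

end SDich.SC
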