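import Pool.Agent.Lib.MP_e7d961_lc.SC.Stm

/-!
`MP_e7d961_lc`, project SC, piece [p1d]: degrees.
-/

namespace SDich.SC

open Finset HerCo CookLevin

theorem p_p1d : S_p1d := by
  intro V _ S f γ h v
  classical
  have h1 : dg S v = ∑ e : HE, (univ.filter fun w => S.Adj v w ∧ γ v w = e).card := by
    unfold dg
    rw [Finset.card_eq_sum_card_fiberwise (f := γ v) (t := (univ : Finset HE))
      (fun w _ => Finset.mem_coe.2 (Finset.mem_univ _))]
    apply Finset.sum_congr rfl
    intro e _
    rw [Finset.filter_filter]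
  rw [h1]
  show _ = ∑ e : HC.E, (HC.ends e).count (f v)
  apply Finset.sum_congr rfl
  intro e _
  rw [← h.loc v e]

end SDich.SC
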