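import Pool.Agent.Lib.MP_e7d961_lc.SC.Stm

/-! Edge map of the covering: symmetry and ends. -/

namespace SDich.SC

open Finset

section

variable {V : Type} [Fintype V]

open Classical in
private theorem p2a_sum (S : SimpleGraph V) (a : V) (D : Finset ℕ) :
    ∑ d ∈ D, nb S a d ≤ dg S a := by
  change ∑ d ∈ D, (univ.filter fun w => S.Adj a w ∧ dg S w = d).card ≤
    (univ.filter fun w => S.Adj a w).card
  have h1 : (D.biUnion fun d => univ.filter fun w => S.Adj a w ∧ dg S w = d).card =
      ∑ d ∈ D, (univ.filter fun w => S.Adj a w ∧ dg S w = d).card := by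
    apply card_biUnion
    intro x _ y _ hxy
    rw [Function.onFun, disjoint_left]
    intro w hw hw'
    simp only [mem_filter, mem_univ, true_and] at hw hw'
    exact hxy (hw.2.symm.trans hw'.2)
  rw [← h1]
  apply card_le_card
  intro w hw
  simp only [mem_biUnion, mem_filter, mem_univ, true_and] at hw ⊢
  obtain ⟨d, -, h, -⟩ := hw
  exact h

open Classical in
private theorem p2a_pos (S : SimpleGraph V) {a b : V} (h : S.Adj a b) : 1 ≤ nb S a (dg S b) := by
  unfold nb
  apply card_pos.mpr
  exact ⟨b, by simp [h]⟩

open Classical in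
private theorem p2a_nb1 (S : SimpleGraph V) {a b : V} (h : S.Adj b a) (hb : dg S b = 1) :
    nb1 S b = a := by
  have hex : ∃ w, S.Adj b w := ⟨a, h⟩
  have h1 : S.Adj b (nb1 S b) := by
    unfold nb1
    rw [dif_pos hex]
    exact hex.choose_spec
  unfold dg at hb
  obtain ⟨c, hc⟩ := card_eq_one.mp hb
  have h2 : a ∈ (univ.filter fun w => S.Adj b w) := by simp [h]
  have h3 : nb1 S b ∈ (univ.filter fun w => S.Adj b w) := by simp [h1]
  rw [hc, mem_singleton] at h2 h3
  rw [h2, h3]

private theorem p2a_dg {S : SimpleGraph V} (hL : Loc S) (a : V) :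
    dg S a = 6 ∨ dg S a = 5 ∨ dg S a = 4 ∨ dg S a = 3 ∨ dg S a = 1 := by
  rcases hL a with h | h | h | h | h <;> tauto

private theorem p2a_d5 {S : SimpleGraph V} (hL : Loc S) {a b : V} (h : S.Adj a b)
    (ha : dg S a = 5) (hb : dg S b ≤ 5) : dg S b = 5 ∨ dg S b = 1 := by
  by_contra hne
  push Not at hne
  have h1 := p2a_pos S h
  have h2 := p2a_sum S a {6, 5, 1, dg S b}
  rw [sum_insert (by simp only [mem_insert, mem_singleton]; omega),
    sum_insert (by simp only [mem_insert, mem_singleton]; omega),
    sum_insert (by simp only [mem_singleton]; omega), sum_singleton] at h2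
  rcases hL a with h | h | h | h | h <;> omega

private theorem p2a_d4 {S : SimpleGraph V} (hL : Loc S) {a b : V} (h : S.Adj a b)
    (ha : dg S a = 4) (hb : dg S b ≤ 4) : dg S b = 4 := by
  by_contra hne
  have h1 := p2a_pos S h
  have h2 := p2a_sum S a {6, 4, dg S b}
  rw [sum_insert (by simp only [mem_insert, mem_singleton]; omega),
    sum_insert (by simp only [mem_singleton]; omega), sum_singleton] at h2
  rcases hL a with h | h | h | h | h <;> omega

private theorem p2a_d3 {S : SimpleGraph V} (hL : Loc S) {a b : V} (h : S.Adj a b)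
    (ha : dg S a = 3) (hb : dg S b ≤ 3) : dg S b = 3 := by
  by_contra hne
  have h1 := p2a_pos S h
  have h2 := p2a_sum S a {6, 3, dg S b}
  rw [sum_insert (by simp only [mem_insert, mem_singleton]; omega),
    sum_insert (by simp only [mem_singleton]; omega), sum_singleton] at h2
  rcases hL a with h | h | h | h | h <;> omega

private theorem p2a_d1 {S : SimpleGraph V} (hL : Loc S) {a b : V} (h : S.Adj a b)
    (ha : dg S a = 1) (hb : dg S b ≤ 1) : False := by
  have h1 := p2a_pos S h
  have h3 := p2a_dg hL b
  have h4 : dg S b = 1 := by omega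
  rw [h4] at h1
  rcases hL a with h | h | h | h | h <;> omega

private theorem p2a_same {S : SimpleGraph V} {β : V → Q3} (hV : Val S β) {a b : V}
    (h : S.Adj a b) (ha : dg S a ≠ 1) (hb : dg S b ≠ 1) (i : Fin 3) (ha' : dg S a ≠ 3 + (i : ℕ))
    (hb' : dg S b ≠ 3 + (i : ℕ)) : β a i = β b i :=
  hV.same i a b ⟨h, ha, hb, ha', hb'⟩

private theorem p2a_fin1 : (2 : Fin 3) + 1 = 0 := rfl
private theorem p2a_fin2 : (2 : Fin 3) + 2 = 1 := rfl
private theorem p2a_fin3 : (1 : Fin 3) + 1 = 2 := rfl
private theorem p2a_fin4 : (1 : Fin 3) + 2 = 0 := rfl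
private theorem p2a_fin5 : (0 : Fin 3) + 1 = 1 := rfl
private theorem p2a_fin6 : (0 : Fin 3) + 2 = 2 := rfl

private theorem p2a_zc2 (x : Q3) : zc 2 x = .z 2 (x 0) (x 1) := rfl
private theorem p2a_zc1 (x : Q3) : zc 1 x = .z 1 (x 2) (x 0) := rfl
private theorem p2a_zc0 (x : Q3) : zc 0 x = .z 0 (x 1) (x 2) := rfl

private theorem p2a_f6 {S : SimpleGraph V} {β : V → Q3} {a : V} (ha : dg S a = 6) :
    fP S β a = .s (β a) := by
  unfold fP
  rw [if_pos ha]

private theorem p2a_f5 {S : SimpleGraph V} {β : V → Q3} {a : V} (ha : dg S a = 5) :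
    fP S β a = .z 2 (β a 0) (β a 1) := by
  unfold fP
  rw [if_neg (by omega), if_neg (by omega), if_neg (by omega), if_pos ha, p2a_zc2]

private theorem p2a_f4 {S : SimpleGraph V} {β : V → Q3} {a : V} (ha : dg S a = 4) :
    fP S β a = .z 1 (β a 2) (β a 0) := by
  unfold fP
  rw [if_neg (by omega), if_neg (by omega), if_pos ha, p2a_zc1]

private theorem p2a_f3 {S : SimpleGraph V} {β : V → Q3} {a : V} (ha : dg S a = 3) :
    fP S β a = .z 0 (β a 1) (β a 2) := by
  unfold fP
  rw [if_neg (by omega), if_pos ha, p2a_zc0]

private theorem p2a_f16 {S : SimpleGraph V} {β : V → Q3} {a b : V} (h : S.Adj b a)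
    (hb : dg S b = 1) (ha : dg S a = 6) : fP S β b = .ls (β a) := by
  unfold fP
  rw [p2a_nb1 S h hb, if_neg (by omega), if_neg (by omega), if_neg (by omega), if_neg (by omega),
    if_pos ha]

private theorem p2a_f15 {S : SimpleGraph V} {β : V → Q3} {a b : V} (h : S.Adj b a)
    (hb : dg S b = 1) (ha : dg S a = 5) : fP S β b = .lz (β a 0) (β a 1) := by
  unfold fP
  rw [p2a_nb1 S h hb, if_neg (by omega), if_neg (by omega), if_neg (by omega), if_neg (by omega),
    if_neg (by omega)]

/-- ends, the first vertex has the larger degree -/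
private theorem p2a_ends {S : SimpleGraph V} {β : V → Q3} {col : V × V → Bool} (hL : Loc S)
    (hV : Val S β) {a b : V} (h : S.Adj a b) (hab : dg S b ≤ dg S a) :
    HC.ends (γ0 S β col a b) = {fP S β a, fP S β b} ∨
      (HC.ends (γ0 S β col a b) = {fP S β a} ∧ fP S β b = fP S β a) := by
  rcases p2a_dg hL a with ha | ha | ha | ha | ha
  · rcases p2a_dg hL b with hb | hb | hb | hb | hb
    · have hs : β a = β b := by
        funext i
        have hi := i.isLt
        exact p2a_same hV h (by omega) (by omega) i (by omega) (by omega)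
      unfold γ0
      rw [if_pos ha, if_pos hb, p2a_f6 ha, p2a_f6 hb, ← hs]
      by_cases ho : β a = o3
      · rw [dif_pos ho]
        left
        change ({.s o3, .s o3} : Multiset HV) = _
        rw [ho]
        rfl
      · rw [dif_neg ho]
        right
        exact ⟨rfl, rfl⟩
    · unfold γ0
      rw [if_pos ha, if_neg (by omega), if_pos hb, p2a_f6 ha, p2a_f5 hb]
      left
      change ({.s (β a), zc 2 (β a)} : Multiset HV) = _
      rw [p2a_zc2, p2a_same hV h (by omega) (by omega) 0 (by simp; omega) (by simp; omega),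
        p2a_same hV h (by omega) (by omega) 1 (by simp; omega) (by simp; omega)]
      rfl
    · unfold γ0
      rw [if_pos ha, if_neg (by omega), if_neg (by omega), if_pos hb, p2a_f6 ha, p2a_f4 hb]
      left
      change ({.s (β a), zc 1 (β a)} : Multiset HV) = _
      rw [p2a_zc1, p2a_same hV h (by omega) (by omega) 0 (by simp; omega) (by simp; omega),
        p2a_same hV h (by omega) (by omega) 2 (by simp; omega) (by simp; omega)]
      rfl
    · unfold γ0
      rw [if_pos ha, if_neg (by omega), if_neg (by omega), if_neg (by omega), if_pos hb,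
        p2a_f6 ha, p2a_f3 hb]
      left
      change ({.s (β a), zc 0 (β a)} : Multiset HV) = _
      rw [p2a_zc0, p2a_same hV h (by omega) (by omega) 1 (by simp; omega) (by simp; omega),
        p2a_same hV h (by omega) (by omega) 2 (by simp; omega) (by simp; omega)]
      rfl
    · unfold γ0
      rw [if_pos ha, if_neg (by omega), if_neg (by omega), if_neg (by omega), if_neg (by omega),
        p2a_f6 ha, p2a_f16 h.symm hb ha]
      left
      rfl
  · rcases p2a_d5 hL h ha (by omega) with hb | hb
    · unfold γ0
      rw [if_neg (by omega), if_pos ha, if_pos hb, p2a_f5 ha, p2a_f5 hb]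
      left
      rw [← p2a_same hV h (by omega) (by omega) 0 (by simp; omega) (by simp; omega),
        ← p2a_same hV h (by omega) (by omega) 1 (by simp; omega) (by simp; omega)]
      rfl
    · unfold γ0
      rw [if_neg (by omega), if_pos ha, if_neg (by omega), p2a_f5 ha, p2a_f15 h.symm hb ha]
      left
      rfl
  · have hb := p2a_d4 hL h ha (by omega)
    unfold γ0
    rw [if_neg (by omega), if_neg (by omega), if_pos ha, p2a_f4 ha, p2a_f4 hb]
    left
    rw [← p2a_same hV h (by omega) (by omega) 0 (by simp; omega) (by simp; omega),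
      ← p2a_same hV h (by omega) (by omega) 2 (by simp; omega) (by simp; omega)]
    rfl
  · have hb := p2a_d3 hL h ha (by omega)
    unfold γ0
    rw [if_neg (by omega), if_neg (by omega), if_neg (by omega), p2a_f3 ha, p2a_f3 hb]
    right
    rw [← p2a_same hV h (by omega) (by omega) 1 (by simp; omega) (by simp; omega),
      ← p2a_same hV h (by omega) (by omega) 2 (by simp; omega) (by simp; omega)]
    exact ⟨rfl, rfl⟩
  · exact (p2a_d1 hL h ha (by omega)).elim

private theorem p2a_symm {S : SimpleGraph V} {β : V → Q3} {col : V × V → Bool} (hL : Loc S)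
    (hV : Val S β) (hC : Col2 S β col) {a b : V} (h : S.Adj a b) (hab : dg S b = dg S a) :
    γ0 S β col b a = γ0 S β col a b := by
  rcases p2a_dg hL a with ha | ha | ha | ha | ha
  · have hb : dg S b = 6 := by omega
    have hs : β a = β b := by
      funext i
      have hi := i.isLt
      exact p2a_same hV h (by omega) (by omega) i (by omega) (by omega)
    unfold γ0
    rw [if_pos ha, if_pos ha, if_pos hb, if_pos hb]
    by_cases ho : β a = o3
    · rw [dif_pos ho, dif_pos (hs ▸ ho)]
    · rw [dif_neg ho, dif_neg (hs ▸ ho), hC.1 a b ⟨h, ha, hb⟩ ho]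
      congr 1
      exact Subtype.ext hs.symm
  · have hb : dg S b = 5 := by omega
    unfold γ0
    rw [if_neg (by omega), if_pos hb, if_pos ha, if_neg (by omega), if_pos ha, if_pos hb,
      p2a_same hV h (by omega) (by omega) 0 (by simp; omega) (by simp; omega),
      p2a_same hV h (by omega) (by omega) 1 (by simp; omega) (by simp; omega)]
  · have hb : dg S b = 4 := by omega
    unfold γ0
    rw [if_neg (by omega), if_neg (by omega), if_pos hb, if_neg (by omega), if_neg (by omega),
      if_pos ha,
      p2a_same hV h (by omega) (by omega) 0 (by simp; omega) (by simp; omega),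
      p2a_same hV h (by omega) (by omega) 2 (by simp; omega) (by simp; omega)]
  · have hb : dg S b = 3 := by omega
    unfold γ0
    rw [if_neg (by omega), if_neg (by omega), if_neg (by omega), if_neg (by omega),
      if_neg (by omega), if_neg (by omega),
      p2a_same hV h (by omega) (by omega) 1 (by simp; omega) (by simp; omega),
      p2a_same hV h (by omega) (by omega) 2 (by simp; omega) (by simp; omega)]
  · exact (p2a_d1 hL h ha (by omega)).elim

end

theorem p_p2a : S_p2a := by
  intro V _ S β col hL hV hC
  refine ⟨?_, ?_⟩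
  · intro a b h
    unfold γP
    rcases Nat.lt_trichotomy (dg S b) (dg S a) with hlt | heq | hgt
    · rw [if_neg (by omega), if_pos (by omega)]
    · rw [if_pos (by omega), if_pos (by omega)]
      exact p2a_symm hL hV hC h heq
    · rw [if_pos (by omega), if_neg (by omega)]
  · intro a b h
    unfold γP
    by_cases hab : dg S b ≤ dg S a
    · rw [if_pos hab]
      exact p2a_ends hL hV h hab
    · rw [if_neg hab]
      rcases p2a_ends (col := col) hL hV h.symm (by omega) with h1 | ⟨h1, h2⟩
      · left
        rw [h1]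
        exact Multiset.pair_comm _ _
      · right
        rw [h1, h2]
        exact ⟨rfl, rfl⟩

end SDich.SC
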