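import Pool.Agent.Lib.MP_e7d961_lc.SC.Stm

/-!
Piece p2b (`MP_e7d961_lc`): the condition `loc` at vertices of degree 6.
-/

namespace SDich.SC

open Finset HerCo CookLevin

/-- the edge at a vertex of degree 6 with value `x`, to a vertex of degree `d`, colour `c` -/
private def p2b_kd (d : ℕ) (x : Q3) (c : Bool) : HE :=
  if d = 6 then (if h : x = o3 then .lp else .sm ⟨x, h⟩ c)
  else if d = 5 then .az 2 x
  else if d = 4 then .az 1 x
  else if d = 3 then .az 0 x
  else .als x

private theorem p2b_deg {V : Type} [Fintype V] (S : SimpleGraph V) (hL : Loc S) (w : V) :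
    dg S w = 1 ∨ dg S w = 3 ∨ dg S w = 4 ∨ dg S w = 5 ∨ dg S w = 6 := by
  rcases hL w with h | h | h | h | h
  · exact Or.inr (Or.inr (Or.inr (Or.inr h.1)))
  · exact Or.inr (Or.inl h.1)
  · exact Or.inr (Or.inr (Or.inl h.1))
  · exact Or.inr (Or.inr (Or.inr (Or.inl h.1)))
  · exact Or.inl h.1

private theorem p2b_gam {V : Type} [Fintype V] (S : SimpleGraph V) (β : V → Q3)
    (col : V × V → Bool) (hL : Loc S) (v w : V) (hv : dg S v = 6) :
    γP S β col v w = p2b_kd (dg S w) (β v) (col (v, w)) := by
  have hw : dg S w ≤ dg S v := by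
    have := p2b_deg S hL w
    omega
  unfold γP γ0 p2b_kd
  rw [if_pos hw, if_pos hv]

private theorem p2b_nb {V : Type} [Fintype V] (S : SimpleGraph V) (v : V) (d : ℕ)
    (p : V → Prop) [DecidablePred p] (hp : ∀ w, p w ↔ S.Adj v w ∧ dg S w = d) :
    (univ.filter p).card = nb S v d := by
  classical
  unfold nb
  congr 1
  ext w
  simp only [Finset.mem_filter, Finset.mem_univ, true_and]
  exact hp w

private theorem p2b_zero {V : Type} [Fintype V] (p : V → Prop) [DecidablePred p]
    (hp : ∀ w, ¬ p w) : (univ.filter p).card = 0 := by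
  rw [Finset.card_eq_zero, Finset.filter_eq_empty_iff]
  intro w _
  exact hp w

private theorem p2b_two {V : Type} [Fintype V] (S : SimpleGraph V) (v : V)
    (h : nb S v 6 = 2) : ∃ a c, a ≠ c ∧ ∀ w, (S.Adj v w ∧ dg S w = 6) ↔ (w = a ∨ w = c) := by
  classical
  unfold nb at h
  rw [Finset.card_eq_two] at h
  obtain ⟨a, c, hac, h⟩ := h
  refine ⟨a, c, hac, fun w => ?_⟩
  have := Finset.ext_iff.1 h w
  simp only [Finset.mem_filter, Finset.mem_univ, true_and, Finset.mem_insert,
    Finset.mem_singleton] at this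
  exact this

private theorem p2b_one {V : Type} [Fintype V] (p : V → Prop) [DecidablePred p] (a : V)
    (hp : ∀ w, p w ↔ w = a) : (univ.filter p).card = 1 := by
  rw [Finset.card_eq_one]
  refine ⟨a, ?_⟩
  ext w
  simp only [Finset.mem_filter, Finset.mem_univ, true_and, Finset.mem_singleton]
  exact hp w

private theorem p2b_az {d : ℕ} (hd : d = 1 ∨ d = 3 ∨ d = 4 ∨ d = 5 ∨ d = 6) (x : Q3) (c : Bool)
    (j : Fin 3) (y : Q3) : p2b_kd d x c = .az j y ↔ y = x ∧ d = 3 + (j : ℕ) := by
  unfold p2b_kd
  rcases hd with rfl | rfl | rfl | rfl | rfl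
  · have : (1 : ℕ) ≠ 3 + (j : ℕ) := by omega
    simp [this]
  · fin_cases j <;> simp [eq_comm]
  · fin_cases j <;> simp [eq_comm]
  · fin_cases j <;> simp [eq_comm]
  · have : (6 : ℕ) ≠ 3 + (j : ℕ) := by omega
    by_cases h : x = o3 <;> simp [this, h]

private theorem p2b_als {d : ℕ} (hd : d = 1 ∨ d = 3 ∨ d = 4 ∨ d = 5 ∨ d = 6) (x : Q3) (c : Bool)
    (y : Q3) : p2b_kd d x c = .als y ↔ y = x ∧ d = 1 := by
  unfold p2b_kd
  rcases hd with rfl | rfl | rfl | rfl | rfl
  · simp [eq_comm]
  · simp
  · simp
  · simp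
  · by_cases h : x = o3 <;> simp [h]

private theorem p2b_alz {d : ℕ} (x : Q3) (c : Bool) (u v : Bool) :
    p2b_kd d x c ≠ .alz u v := by
  unfold p2b_kd
  split_ifs <;> simp

private theorem p2b_zz {d : ℕ} (x : Q3) (c : Bool) (j : Fin 3) (u v : Bool) :
    p2b_kd d x c ≠ .zz j u v := by
  unfold p2b_kd
  split_ifs <;> simp

private theorem p2b_lp {d : ℕ} (x : Q3) (c : Bool) :
    p2b_kd d x c = .lp ↔ x = o3 ∧ d = 6 := by
  unfold p2b_kd
  split_ifs with h1 h2 <;> simp_all

private theorem p2b_sm {d : ℕ} (x : Q3) (c : Bool) (y : {x : Q3 // x ≠ o3}) (b : Bool) :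
    p2b_kd d x c = .sm y b ↔ x = y.1 ∧ d = 6 ∧ c = b := by
  unfold p2b_kd
  obtain ⟨y, hy⟩ := y
  split_ifs with h1 h2
  · subst h2
    simp [Ne.symm hy]
  · simp [h1]
  all_goals simp [h1]

theorem p_p2b : S_p2b := by
  intro V _ _ S _ β col hL hV hC v e hv
  have hloc : nb S v 6 = 2 ∧ nb S v 3 = 1 ∧ nb S v 4 = 1 ∧ nb S v 5 = 1 ∧ nb S v 1 = 1 := by
    rcases hL v with h | h | h | h | h
    · exact h.2
    all_goals
      have := h.1
      omega
  have hf : fP S β v = .s (β v) := by
    unfold fP
    rw [if_pos hv]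
  rw [hf]
  cases e with
  | az j y =>
    by_cases hy : y = β v
    · have h1 := p2b_nb S v (3 + (j : ℕ)) (fun w => S.Adj v w ∧ γP S β col v w = .az j y) (by
        intro w
        simp only [p2b_gam S β col hL v w hv, p2b_az (p2b_deg S hL w), hy, true_and])
      rw [h1]
      have h2 : nb S v (3 + (j : ℕ)) = 1 := by
        obtain ⟨-, h3, h4, h5, -⟩ := hloc
        fin_cases j
        · exact h3
        · exact h4
        · exact h5
      rw [h2, hy]
      simp [HC, zc]
    · have h1 := p2b_zero (fun w => S.Adj v w ∧ γP S β col v w = .az j y) (by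
        intro w h
        rw [p2b_gam S β col hL v w hv, p2b_az (p2b_deg S hL w)] at h
        exact hy h.2.1)
      rw [h1]
      have hy' : ¬ (β v = y) := fun h => hy h.symm
      simp [HC, zc, hy']
  | als y =>
    by_cases hy : y = β v
    · have h1 := p2b_nb S v 1 (fun w => S.Adj v w ∧ γP S β col v w = .als y) (by
        intro w
        simp only [p2b_gam S β col hL v w hv, p2b_als (p2b_deg S hL w), hy, true_and])
      rw [h1, hloc.2.2.2.2, hy]
      simp [HC]
    · have h1 := p2b_zero (fun w => S.Adj v w ∧ γP S β col v w = .als y) (by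
        intro w h
        rw [p2b_gam S β col hL v w hv, p2b_als (p2b_deg S hL w)] at h
        exact hy h.2.1)
      rw [h1]
      have hy' : ¬ (β v = y) := fun h => hy h.symm
      simp [HC, hy']
  | alz a b =>
    have h1 := p2b_zero (fun w => S.Adj v w ∧ γP S β col v w = .alz a b) (by
      intro w h
      rw [p2b_gam S β col hL v w hv] at h
      exact p2b_alz _ _ _ _ h.2)
    rw [h1]
    simp [HC]
  | zz j a b =>
    have h1 := p2b_zero (fun w => S.Adj v w ∧ γP S β col v w = .zz j a b) (by
      intro w h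
      rw [p2b_gam S β col hL v w hv] at h
      exact p2b_zz _ _ _ _ _ h.2)
    rw [h1]
    by_cases hj : j = 0 <;> simp [HC, hj]
  | lp =>
    by_cases hy : β v = o3
    · have h1 := p2b_nb S v 6 (fun w => S.Adj v w ∧ γP S β col v w = .lp) (by
        intro w
        simp only [p2b_gam S β col hL v w hv, p2b_lp, hy, true_and])
      rw [h1, hloc.1, hy]
      simp [HC]
    · have h1 := p2b_zero (fun w => S.Adj v w ∧ γP S β col v w = .lp) (by
        intro w h
        rw [p2b_gam S β col hL v w hv, p2b_lp] at h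
        exact hy h.2.1)
      rw [h1]
      simp [HC, hy]
  | sm y b =>
    by_cases hy : β v = y.1
    · have hne : β v ≠ o3 := by
        rw [hy]
        exact y.2
      obtain ⟨a, c, hac, hw⟩ := p2b_two S v hloc.1
      have ha := (hw a).2 (Or.inl rfl)
      have hc := (hw c).2 (Or.inr rfl)
      have hcol := hC.2 v a c ⟨ha.1, hv, ha.2⟩ ⟨hc.1, hv, hc.2⟩ hac hne
      have hiff : ∀ w, (S.Adj v w ∧ γP S β col v w = .sm y b) ↔
          ((w = a ∨ w = c) ∧ col (v, w) = b) := by
        intro w
        rw [← hw w, p2b_gam S β col hL v w hv, p2b_sm]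
        constructor
        · rintro ⟨h1, -, h2, h3⟩
          exact ⟨⟨h1, h2⟩, h3⟩
        · rintro ⟨⟨h1, h2⟩, h3⟩
          exact ⟨h1, hy, h2, h3⟩
      have hone : (univ.filter fun w => S.Adj v w ∧ γP S β col v w = .sm y b).card = 1 := by
        by_cases hb : col (v, a) = b
        · apply p2b_one _ a
          intro w
          rw [hiff w]
          constructor
          · rintro ⟨rfl | rfl, h⟩
            · rfl
            · exact absurd (h.trans hb.symm) hcol
          · rintro rfl
            exact ⟨Or.inl rfl, hb⟩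
        · apply p2b_one _ c
          intro w
          rw [hiff w]
          constructor
          · rintro ⟨rfl | rfl, h⟩
            · exact absurd h hb
            · rfl
          · rintro rfl
            refine ⟨Or.inr rfl, ?_⟩
            revert hb hcol
            cases col (v, w) <;> cases col (v, a) <;> cases b <;> simp
      rw [hone]
      simp [HC, hy]
    · have h1 := p2b_zero (fun w => S.Adj v w ∧ γP S β col v w = .sm y b) (by
        intro w h
        rw [p2b_gam S β col hL v w hv, p2b_sm] at h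
        exact hy h.2.1)
      rw [h1]
      simp [HC, hy]

end SDich.SC
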