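import Pool.Agent.Lib.MP_e7d961_lc.SC.Stm

/-!
Piece p2c (`MP_e7d961_lc`, the graph `HC`): the local counts at vertices of degree 3, 4, 5.
-/

namespace SDich.SC

open Finset

private lemma p2c_f3 : ∀ j : Fin 3, j = 0 ∨ j = 1 ∨ j = 2 := by decide

private lemma p2c_n1 : ∀ j : Fin 3, j + 1 ≠ j := by decide

private lemma p2c_n2 : ∀ j : Fin 3, j + 2 ≠ j := by decide

private lemma p2c_n21 : ∀ j : Fin 3, j + 2 ≠ j + 1 := by decide

section

variable {V : Type} [Fintype V]

open Classical in
private lemma p2c_mem (S : SimpleGraph V) (v : V) (ds : Finset ℕ)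
    (h : dg S v = ∑ d ∈ ds, nb S v d) (w : V) (hw : S.Adj v w) : dg S w ∈ ds := by
  by_contra hcon
  have h1 : ∑ d ∈ ds, nb S v d = (univ.filter fun w => S.Adj v w ∧ dg S w ∈ ds).card := by
    rw [card_eq_sum_card_fiberwise (f := dg S) (t := ds)
      (fun x hx => (mem_filter.1 hx).2.2)]
    apply sum_congr rfl
    intro d hd
    unfold nb
    congr 1
    ext x
    simp only [mem_filter, mem_univ, true_and]
    constructor
    · rintro ⟨a, rfl⟩; exact ⟨⟨a, hd⟩, rfl⟩
    · rintro ⟨⟨a, -⟩, b⟩; exact ⟨a, b⟩
  have h2 : (univ.filter fun w => S.Adj v w ∧ dg S w ∈ ds) ⊂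
      (univ.filter fun w => S.Adj v w) := by
    rw [Finset.ssubset_iff_of_subset (fun x hx => by
      simp only [mem_filter, mem_univ, true_and] at hx ⊢; exact hx.1)]
    exact ⟨w, by simpa using hw, by simp [hcon]⟩
  have h3 := card_lt_card h2
  have h4 : dg S v = (univ.filter fun w => S.Adj v w).card := rfl
  omega

private lemma p2c_loc {S : SimpleGraph V} (hL : Loc S) (v : V) (j : Fin 3)
    (hj : dg S v = 3 + (j : ℕ)) : nb S v 6 = 2 ∧ nb S v (3 + (j : ℕ)) = (if j = 0 then 1 else 2) ∧
      (j = 2 → nb S v 1 = 1) ∧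
      ∀ w, S.Adj v w → dg S w = 6 ∨ dg S w = 3 + (j : ℕ) ∨ (j = 2 ∧ dg S w = 1) := by
  have hv := hL v
  obtain rfl | rfl | rfl := p2c_f3 j
  · simp only [Fin.val_zero, add_zero] at hj ⊢
    have h : nb S v 6 = 2 ∧ nb S v 3 = 1 := by
      rcases hv with h | h | h | h | h <;> omega
    refine ⟨h.1, by simpa using h.2, fun h' => absurd h' (by decide), fun w hw => ?_⟩
    have := p2c_mem S v {6, 3} (by rw [sum_pair (by decide)]; omega) w hw
    simp only [mem_insert, mem_singleton] at this
    tauto
  · simp only [Fin.val_one] at hj ⊢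
    have h : nb S v 6 = 2 ∧ nb S v 4 = 2 := by
      rcases hv with h | h | h | h | h <;> omega
    refine ⟨h.1, by simpa using h.2, fun h' => absurd h' (by decide), fun w hw => ?_⟩
    have := p2c_mem S v {6, 4} (by rw [sum_pair (by decide)]; omega) w hw
    simp only [mem_insert, mem_singleton] at this
    tauto
  · simp only [Fin.val_two] at hj ⊢
    have h : nb S v 6 = 2 ∧ nb S v 5 = 2 ∧ nb S v 1 = 1 := by
      rcases hv with h | h | h | h | h <;> omega
    refine ⟨h.1, by simpa using h.2.1, fun _ => h.2.2, fun w hw => ?_⟩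
    have := p2c_mem S v {6, 5, 1} (by
      rw [sum_insert (by decide), sum_pair (by decide)]; omega) w hw
    simp only [mem_insert, mem_singleton] at this
    tauto

open Classical in
private lemma p2c_two {S : SimpleGraph V} {β : V → Q3} (hL : Loc S) (hV : Val S β) (v : V)
    (j : Fin 3) (hj : dg S v = 3 + (j : ℕ)) : ∃ g : Bool → V, (∀ t, S.Adj v (g t)) ∧
      (∀ t, dg S (g t) = 6) ∧ (∀ w, S.Adj v w → dg S w = 6 → w = g (β w j)) ∧
      ∀ t, β (g t) = mk3 j (β v (j + 1)) (β v (j + 2)) t := by
  obtain ⟨h6, -⟩ := p2c_loc hL v j hj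
  unfold nb at h6
  obtain ⟨a, b, hab, he⟩ := card_eq_two.1 h6
  have hmem : ∀ w, (S.Adj v w ∧ dg S w = 6) ↔ (w = a ∨ w = b) := by
    intro w
    have := congrArg (fun s => w ∈ s) he
    simpa using this
  have ha := (hmem a).2 (Or.inl rfl)
  have hb := (hmem b).2 (Or.inr rfl)
  have hj6 : dg S v ≠ 6 := by
    have := j.2
    omega
  have hsame : ∀ w, S.Adj v w → dg S w = 6 → ∀ i, i ≠ j → β w i = β v i := by
    intro w hw hw6 i hi
    refine hV.same i w v ⟨hw.symm, by omega, by omega, ?_, ?_⟩
    · have := i.2
      omega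
    · intro hc
      apply hi
      apply Fin.ext
      omega
  have hdif : β a j ≠ β b j := hV.dif j a b ⟨hab, ha.2, hb.2, v, hj, ha.1.symm, hb.1.symm⟩
  have hval : ∀ w, S.Adj v w → dg S w = 6 →
      β w = mk3 j (β v (j + 1)) (β v (j + 2)) (β w j) := by
    intro w hw hw6
    have e1 := hsame w hw hw6 (j + 1) (p2c_n1 j)
    have e2 := hsame w hw hw6 (j + 2) (p2c_n2 j)
    rw [← e1, ← e2]
    exact (mk3_self j (β w)).symm
  refine ⟨fun t => if β a j = t then a else b, ?_, ?_, ?_, ?_⟩
  · intro t
    by_cases h : β a j = t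
    · simp only [h, if_true]; exact ha.1
    · simp only [h, if_false]; exact hb.1
  · intro t
    by_cases h : β a j = t
    · simp only [h, if_true]; exact ha.2
    · simp only [h, if_false]; exact hb.2
  · intro w hw hw6
    rcases (hmem w).1 ⟨hw, hw6⟩ with h | h
    · subst h
      simp
    · subst h
      simp [hdif]
  · intro t
    by_cases h : β a j = t
    · simp only [h, if_true]
      rw [← h]
      exact hval a ha.1 ha.2
    · simp only [h, if_false]
      have hbt : β b j = t := by
        revert h hdif
        cases β a j <;> cases β b j <;> cases t <;> simp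
      rw [← hbt]
      exact hval b hb.1 hb.2

private lemma p2c_gam {S : SimpleGraph V} (β : V → Q3) (col : V × V → Bool) (v w : V)
    (j : Fin 3) (hj : dg S v = 3 + (j : ℕ))
    (hw : dg S w = 6 ∨ dg S w = 3 + (j : ℕ) ∨ (j = 2 ∧ dg S w = 1)) :
    (dg S w = 6 → γP S β col v w = .az j (β w)) ∧
    (dg S w = 3 + (j : ℕ) → γP S β col v w = .zz j (β v (j + 1)) (β v (j + 2))) ∧
    (dg S w = 1 → γP S β col v w = .alz (β v (j + 1)) (β v (j + 2))) := by
  obtain rfl | rfl | rfl := p2c_f3 j
  · simp only [Fin.val_zero, add_zero] at hj hw ⊢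
    refine ⟨fun h => ?_, fun h => ?_, fun h => ?_⟩
    · simp [γP, γ0, hj, h]
    · simp [γP, γ0, hj, h]
    · rcases hw with h' | h' | h'
      · omega
      · omega
      · exact absurd h'.1 (by decide)
  · simp only [Fin.val_one] at hj hw ⊢
    refine ⟨fun h => ?_, fun h => ?_, fun h => ?_⟩
    · simp [γP, γ0, hj, h]
    · simp [γP, γ0, hj, h]
    · rcases hw with h' | h' | h'
      · omega
      · omega
      · exact absurd h'.1 (by decide)
  · simp only [Fin.val_two] at hj hw ⊢
    refine ⟨fun h => ?_, fun h => ?_, fun h => ?_⟩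
    · simp [γP, γ0, hj, h]
    · simp [γP, γ0, hj, h]
    · simp [γP, γ0, hj, h]

private lemma p2c_fP {S : SimpleGraph V} (β : V → Q3) (v : V) (j : Fin 3)
    (hj : dg S v = 3 + (j : ℕ)) : fP S β v = .z j (β v (j + 1)) (β v (j + 2)) := by
  obtain rfl | rfl | rfl := p2c_f3 j
  · simp only [Fin.val_zero, add_zero] at hj
    simp [fP, hj, zc]
  · simp only [Fin.val_one] at hj
    simp [fP, hj, zc]
  · simp only [Fin.val_two] at hj
    simp [fP, hj, zc]

/-- **[p2c]** -/
theorem p_p2c : S_p2c := by
  intro V _ _ S _ β col hL hV _ v e hdv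
  obtain ⟨j, hj⟩ : ∃ j : Fin 3, dg S v = 3 + (j : ℕ) := by
    rcases hdv with h | h | h
    · exact ⟨0, by simpa using h⟩
    · exact ⟨1, by simpa using h⟩
    · exact ⟨2, by simpa using h⟩
  clear hdv
  obtain ⟨-, hnj, hn1, hnb⟩ := p2c_loc hL v j hj
  obtain ⟨g, hg1, hg2, hg3, hg4⟩ := p2c_two hL hV v j hj
  have hj6 : 3 + (j : ℕ) ≠ 6 := by
    have := j.2
    omega
  have hg := fun w (hw : S.Adj v w) => p2c_gam β col v w j hj (hnb w hw)
  rw [p2c_fP β v j hj]
  have hcls : ∀ e' : HE, (∀ x, e' ≠ .az j x) → e' ≠ .zz j (β v (j + 1)) (β v (j + 2)) →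
      (j = 2 → e' ≠ .alz (β v (j + 1)) (β v (j + 2))) →
      (univ.filter fun w => S.Adj v w ∧ γP S β col v w = e').card = 0 := by
    intro e' h1 h2 h3
    rw [card_eq_zero, filter_eq_empty_iff]
    rintro w - ⟨hw, he⟩
    rcases hnb w hw with h | h | h
    · exact h1 _ (he.symm.trans ((hg w hw).1 h))
    · exact h2 (he.symm.trans ((hg w hw).2.1 h))
    · exact h3 h.1 (he.symm.trans ((hg w hw).2.2 h.2))
  cases e with
  | az j' x =>
    by_cases hx : j' = j ∧ x (j + 1) = β v (j + 1) ∧ x (j + 2) = β v (j + 2)
    · obtain ⟨rfl, hx1, hx2⟩ := hx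
      have hxx : β (g (x j')) = x := by
        rw [hg4, ← hx1, ← hx2]
        exact mk3_self j' x
      have e1 : (univ.filter fun w => S.Adj v w ∧ γP S β col v w = .az j' x) = {g (x j')} := by
        ext w
        simp only [mem_filter, mem_univ, true_and, mem_singleton]
        constructor
        · rintro ⟨hw, he⟩
          rcases hnb w hw with h | h | h
          · rw [(hg w hw).1 h] at he
            have hb : β w = x := by injection he
            rw [← hb]
            exact hg3 w hw h
          · rw [(hg w hw).2.1 h] at he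
            cases he
          · rw [(hg w hw).2.2 h.2] at he
            cases he
        · rintro rfl
          refine ⟨hg1 _, ?_⟩
          rw [(hg _ (hg1 _)).1 (hg2 _), hxx]
      rw [e1, card_singleton]
      simp [HC, zc, hx1, hx2]
    · rw [show (univ.filter fun w => S.Adj v w ∧ γP S β col v w = .az j' x).card = 0 from ?_]
      · symm
        refine Multiset.count_eq_zero.2 ?_
        simp only [HC, zc, Multiset.insert_eq_cons, Multiset.mem_cons, Multiset.mem_singleton,
          not_or]
        refine ⟨fun h => HV.noConfusion h, fun h => ?_⟩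
        injection h with h1 h2 h3
        subst h1
        exact hx ⟨rfl, h2.symm, h3.symm⟩
      · rw [card_eq_zero, filter_eq_empty_iff]
        rintro w - ⟨hw, he⟩
        rcases hnb w hw with h | h | h
        · rw [(hg w hw).1 h] at he
          injection he with h1 h2
          subst h1
          have h3 := hg4 (β w j)
          rw [← hg3 w hw h, h2] at h3
          apply hx
          refine ⟨rfl, ?_, ?_⟩
          · rw [h3]
            simp [mk3, p2c_n1 j]
          · rw [h3]
            simp [mk3, p2c_n2 j, p2c_n21 j]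
        · rw [(hg w hw).2.1 h] at he
          cases he
        · rw [(hg w hw).2.2 h.2] at he
          cases he
  | als x =>
    rw [hcls _ (fun x h => by cases h) (fun h => by cases h) (fun _ h => by cases h)]
    symm
    refine Multiset.count_eq_zero.2 ?_
    simp [HC]
  | alz u u' =>
    by_cases hx : j = 2 ∧ u = β v (j + 1) ∧ u' = β v (j + 2)
    · obtain ⟨h2, rfl, rfl⟩ := hx
      have e1 : (univ.filter fun w => S.Adj v w ∧
          γP S β col v w = .alz (β v (j + 1)) (β v (j + 2))).card = nb S v 1 := by
        unfold nb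
        congr 1
        ext w
        simp only [mem_filter, mem_univ, true_and]
        constructor
        · rintro ⟨hw, he⟩
          refine ⟨hw, ?_⟩
          rcases hnb w hw with h | h | h
          · rw [(hg w hw).1 h] at he
            cases he
          · rw [(hg w hw).2.1 h] at he
            cases he
          · exact h.2
        · rintro ⟨hw, h⟩
          exact ⟨hw, (hg w hw).2.2 h⟩
      rw [e1, hn1 h2]
      subst h2
      simp [HC]
    · rw [hcls _ (fun x h => by cases h) (fun h => by cases h)
        (fun h2 h => hx ⟨h2, by injection h, by injection h⟩)]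
      symm
      refine Multiset.count_eq_zero.2 ?_
      simp only [HC, Multiset.insert_eq_cons, Multiset.mem_cons, Multiset.mem_singleton, not_or]
      refine ⟨fun h => ?_, fun h => HV.noConfusion h⟩
      injection h with h1 h2 h3
      exact hx ⟨h1, h2.symm, h3.symm⟩
  | zz j' u u' =>
    by_cases hx : j' = j ∧ u = β v (j + 1) ∧ u' = β v (j + 2)
    · obtain ⟨rfl, rfl, rfl⟩ := hx
      have e1 : (univ.filter fun w => S.Adj v w ∧
          γP S β col v w = .zz j' (β v (j' + 1)) (β v (j' + 2))).card =
            nb S v (3 + (j' : ℕ)) := by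
        unfold nb
        congr 1
        ext w
        simp only [mem_filter, mem_univ, true_and]
        constructor
        · rintro ⟨hw, he⟩
          refine ⟨hw, ?_⟩
          rcases hnb w hw with h | h | h
          · rw [(hg w hw).1 h] at he
            cases he
          · exact h
          · rw [(hg w hw).2.2 h.2] at he
            cases he
        · rintro ⟨hw, h⟩
          exact ⟨hw, (hg w hw).2.1 h⟩
      rw [e1, hnj]
      by_cases h0 : j' = 0
      · subst h0
        simp [HC]
      · simp [HC, h0]
    · rw [hcls _ (fun x h => by cases h)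
        (fun h => hx ⟨by injection h, by injection h, by injection h⟩) (fun _ h => by cases h)]
      symm
      refine Multiset.count_eq_zero.2 ?_
      intro h
      apply hx
      by_cases h0 : j' = 0
      · simp only [HC, h0, if_true, Multiset.mem_singleton] at h
        injection h with h1 h2 h3
        exact ⟨h0.trans h1.symm, h2.symm, h3.symm⟩
      · simp only [HC, h0, if_false, Multiset.insert_eq_cons, Multiset.mem_cons,
          Multiset.mem_singleton, or_self] at h
        injection h with h1 h2 h3
        exact ⟨h1.symm, h2.symm, h3.symm⟩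
  | lp =>
    rw [hcls _ (fun x h => by cases h) (fun h => by cases h) (fun _ h => by cases h)]
    symm
    refine Multiset.count_eq_zero.2 ?_
    simp [HC]
  | sm x b =>
    rw [hcls _ (fun x h => by cases h) (fun h => by cases h) (fun _ h => by cases h)]
    symm
    refine Multiset.count_eq_zero.2 ?_
    simp [HC]

end

end SDich.SC
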