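import Pool.Agent.Lib.MP_e7d961_lc.SC.Stm

/-!
Piece p2d of `MP_e7d961_lc`: the local condition at vertices of degree 1.
-/

namespace SDich.SC

open Finset HerCo CookLevin N68a2faeb

private theorem count_ls (x : Q3) (e : HE) :
    (HC.ends e).count (HV.ls x : HC.V) = if HE.als x = e then 1 else 0 := by
  revert x e
  decide

private theorem count_lz (u v : Bool) (e : HE) :
    (HC.ends e).count (HV.lz u v : HC.V) = if HE.alz u v = e then 1 else 0 := by
  revert u v e
  decide

/-- numbers of neighbours of different degrees -/
private theorem nb_sum {V : Type} [Fintype V] (S : SimpleGraph V) (v : V) (D : Finset ℕ) :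
    ∑ d ∈ D, nb S v d ≤ dg S v := by
  classical
  unfold nb dg
  rw [← Finset.card_biUnion]
  · apply Finset.card_le_card
    intro w hw
    obtain ⟨d, _, hd⟩ := Finset.mem_biUnion.1 hw
    exact Finset.mem_filter.2 ⟨Finset.mem_univ _, (Finset.mem_filter.1 hd).2.1⟩
  · intro d _ d' _ hne
    refine Finset.disjoint_left.2 fun w h1 h2 => hne ?_
    rw [← (Finset.mem_filter.1 h1).2.2, ← (Finset.mem_filter.1 h2).2.2]

private theorem nb_pos {V : Type} [Fintype V] (S : SimpleGraph V) (v w : V)
    (h : S.Adj v w) : 0 < nb S v (dg S w) := by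
  classical
  exact Finset.card_pos.2 ⟨w, Finset.mem_filter.2 ⟨Finset.mem_univ _, h, rfl⟩⟩

theorem p_p2d : S_p2d := by
  classical
  intro V _ _ S _ β col hloc _ _ v e hv
  -- the unique neighbour
  have hex : ∃ w, S.Adj v w ∧ ∀ w', S.Adj v w' → w' = w := by
    unfold dg at hv
    obtain ⟨w, hw⟩ := Finset.card_eq_one.1 hv
    have h3 := fun w' => Finset.ext_iff.1 hw w'
    simp only [Finset.mem_filter, Finset.mem_univ, true_and, Finset.mem_singleton] at h3
    exact ⟨w, (h3 w).2 rfl, fun w' hw' => (h3 w').1 hw'⟩
  obtain ⟨w, hw, hwu⟩ := hex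
  have hn1 : nb1 S v = w := by
    have hex2 : ∃ w, S.Adj v w := ⟨w, hw⟩
    unfold nb1
    rw [dif_pos hex2]
    exact hwu _ hex2.choose_spec
  -- the degree of the neighbour
  have hdeg : dg S w = 6 ∨ dg S w = 5 := by
    have hp : 0 < nb S w 1 := by
      have := nb_pos S w v hw.symm
      rwa [hv] at this
    have hp2 : 0 < nb S v (dg S w) := nb_pos S v w hw
    rcases hloc w with h | h | h | h | h
    · exact Or.inl h.1
    · have := nb_sum S w {6, 3, 1}
      simp at this
      omega
    · have := nb_sum S w {6, 4, 1}
      simp at this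
      omega
    · exact Or.inr h.1
    · omega
  -- the count on the left
  have hcnt : (univ.filter fun w' => S.Adj v w' ∧ γP S β col v w' = e).card =
      if γP S β col v w = e then 1 else 0 := by
    by_cases h : γP S β col v w = e
    · rw [if_pos h]
      rw [Finset.card_eq_one]
      refine ⟨w, ?_⟩
      ext w'
      simp only [Finset.mem_filter, Finset.mem_univ, true_and, Finset.mem_singleton]
      constructor
      · intro h'; exact hwu _ h'.1
      · rintro rfl; exact ⟨hw, h⟩
    · rw [if_neg h, Finset.card_eq_zero]
      refine Finset.filter_eq_empty_iff.2 ?_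
      intro w' _ h'
      rw [hwu _ h'.1] at h'
      exact h h'.2
  rw [hcnt]
  rcases hdeg with hd | hd
  · have h1 : γP S β col v w = .als (β w) := by
      unfold γP γ0
      rw [if_neg (by omega : ¬ dg S w ≤ dg S v), if_pos hd, if_neg (by omega), if_neg (by omega),
        if_neg (by omega), if_neg (by omega)]
    have h2 : fP S β v = .ls (β w) := by
      unfold fP
      rw [if_neg (by omega), if_neg (by omega), if_neg (by omega), if_neg (by omega), hn1,
        if_pos hd]
    rw [h1, h2]
    exact (count_ls _ _).symm
  · have h1 : γP S β col v w = .alz (β w 0) (β w 1) := by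
      unfold γP γ0
      rw [if_neg (by omega : ¬ dg S w ≤ dg S v), if_neg (by omega), if_pos hd, if_neg (by omega)]
    have h2 : fP S β v = .lz (β w 0) (β w 1) := by
      unfold fP
      rw [if_neg (by omega), if_neg (by omega), if_neg (by omega), if_neg (by omega), hn1,
        if_neg (by omega)]
    rw [h1, h2]
    exact (count_lz _ _ _).symm

end SDich.SC
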