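import Pool.Agent.Lib.MP_e7d961_lc.SC.Stm

/-!
Piece p2e of `MP_e7d961_lc`: the colouring.
-/

namespace SDich.SC

open Finset HerCo CookLevin N68a2faeb

theorem p_p2e : S_p2e := by
  classical
  intro hsg V _ S β hval
  obtain ⟨b, hb⟩ := hsg (V × V) (lnk S) (by
    rintro ⟨u1, u2⟩ ⟨v1, v2⟩ p ⟨h1, h2, h3⟩
    refine ⟨h2, h1, ?_⟩
    rcases h3 with ⟨h, h', h''⟩ | ⟨h, h', h''⟩
    · exact Or.inl ⟨h, h''.symm, h'.symm⟩
    · exact Or.inr ⟨h, h'.symm, fun e => h'' e.symm⟩)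
  have hno : ∀ a c, CA S a c → β a ≠ o3 → ¬ OddN (lnk S) (a, c) :=
    fun a c h h0 ho => h0 (hval.zero a c h ho)
  have hsym : ∀ a c, CA S a c → CA S c a := fun a c h => ⟨h.1.symm, h.2.2, h.2.1⟩
  refine ⟨b, ?_, ?_⟩
  · intro a c h h0
    have := hb (a, c) (c, a) false ⟨h, hsym a c h, Or.inl ⟨rfl, rfl, rfl⟩⟩ (hno a c h h0)
    simpa using this
  · intro a c d h h' hne h0
    have := hb (a, c) (a, d) true ⟨h, h', Or.inr ⟨rfl, rfl, fun e => hne e.symm⟩⟩ (hno a c h h0)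
    rw [this]
    cases b (a, c) <;> decide

end SDich.SC
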