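import Pool.Agent.Lib.MP_e7d961_lc.SC.Stm

/-!
Piece p3 of `MP_e7d961_lc`: the equations for the values.
-/

namespace SDich.SC

open Finset HerCo CookLevin N68a2faeb

variable {V : Type} [Fintype V]

private theorem same_symm (S : SimpleGraph V) (i : Fin 3) (a b : V) (h : Same S i a b) :
    Same S i b a := ⟨h.1.symm, h.2.2.1, h.2.1, h.2.2.2.2, h.2.2.2.1⟩

private theorem dif_symm (S : SimpleGraph V) (i : Fin 3) (a b : V) (h : Dif S i a b) :
    Dif S i b a :=
  ⟨h.1.symm, h.2.2.1, h.2.1, h.2.2.2.imp fun _ hw => ⟨hw.1, hw.2.2, hw.2.1⟩⟩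

private theorem l2_symm (S : SimpleGraph V) : ∀ u v p, L2 S u v p → L2 S v u p := by
  rintro (_ | ⟨a, i⟩) (_ | ⟨c, j⟩) p h
  · exact h
  · exact h
  · exact h
  · obtain ⟨h1, h2⟩ := h
    simp only at h1 h2
    subst h1
    refine ⟨rfl, ?_⟩
    rcases h2 with ⟨h, h'⟩ | ⟨h, h'⟩
    · exact Or.inl ⟨h, same_symm S _ _ _ h'⟩
    · exact Or.inr ⟨h, dif_symm S _ _ _ h'⟩

theorem p_p3 : S_p3 := by
  classical
  intro hsg1 hsg2 V _ S
  constructor
  · rintro ⟨β, hval⟩ u
    refine hsg2 (Option (V × Fin 3)) (L2 S) (fun _ => True)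
      (fun x => match x with
        | none => false
        | some q => β q.1 q.2) ?_ u trivial
    rintro (_ | ⟨a, i⟩) (_ | ⟨c, j⟩) p h _
    · exact h.elim
    · obtain ⟨h1, d, h2, h3⟩ := h
      subst h1
      have := hval.zero c d h2 h3
      simp [this, o3]
    · obtain ⟨h1, d, h2, h3⟩ := h
      subst h1
      have := hval.zero a d h2 h3
      simp [this, o3]
    · obtain ⟨h1, h2⟩ := h
      simp only at h1 h2
      subst h1
      refine ⟨trivial, ?_⟩
      rcases h2 with ⟨h, h'⟩ | ⟨h, h'⟩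
      · subst h
        have := hval.same _ _ _ h'
        simp [this]
      · subst h
        have := hval.dif _ _ _ h'
        simp only
        cases h5 : β a i <;> cases h6 : β c i <;> simp_all
  · intro hno
    obtain ⟨b, hb⟩ := hsg1 _ (L2 S) (l2_symm S)
    refine ⟨fun a i => xor (b (some (a, i))) (b none), ?_, ?_, ?_⟩
    · intro i a c h
      have := hb (some (a, i)) (some (c, i)) false ⟨rfl, Or.inl ⟨rfl, h⟩⟩ (hno _)
      simp [this]
    · intro i a c h
      have := hb (some (a, i)) (some (c, i)) true ⟨rfl, Or.inr ⟨rfl, h⟩⟩ (hno _)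
      simp only [this]
      cases b (some (a, i)) <;> cases b none <;> decide
    · intro a c h h'
      funext i
      have := hb (some (a, i)) none false ⟨rfl, c, h, h'⟩ (hno _)
      simp only [this, o3]
      cases b (some (a, i)) <;> decide

end SDich.SC
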