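import Pool.Agent.Lib.MP_e7d961_lc.SC.Stm

/-!
`P = NP` if some NP-complete problem is in P (`MP_e7d961_lc`, piece `pnp`).
-/

namespace SDich.SC

open Finset HerCo CookLevin N68a2faeb

private theorem pnp_sub : N68a2faeb.P ⊆ N68a2faeb.NP := by
  intro L hL
  have h1 : FP .poly L := (isPolyTime_bool L).1 hL
  refine ⟨0, fun q => L q.1, (isPolyTime_pair _).2 (h1.comp (by fun_prop)), fun x => ?_⟩
  constructor
  · intro h; exact ⟨[], by simp, h⟩
  · rintro ⟨w, _, h⟩; exact h

theorem p_pnp : S_pnp := by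
  rintro D ⟨-, hC⟩ hD
  refine Set.Subset.antisymm pnp_sub fun L hL => ?_
  obtain ⟨f, hf, h⟩ := hC L hL
  have h1 : FP .poly D := (isPolyTime_bool D).1 hD
  have h2 : FP .poly f := (isPolyTime_list f).1 hf
  have h3 : L = fun x => D (f x) := by
    funext x
    exact Bool.eq_iff_iff.2 (h x)
  rw [h3]
  exact (isPolyTime_bool _).2 (h1.comp h2)

end SDich.SC
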