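import Pool.Agent.Lib.MP_e7d961_lc.SC.Stm

/-!
Project SC (`MP_e7d961_lc`), piece [rvi].
-/

set_option autoImplicit false

namespace SDich.SC

open Finset HerCo CookLevin

private lemma rvi_fin1 (j : Fin 3) : (j + 2 + 1 = j) ∧ (j + 1 + 2 = j) ∧ ¬ (j = j + 1 + 1) := by
  revert j; decide

private lemma rvi_pt {nv M : ℕ} (occ : Fin M → Fin 3 → Fin nv) (q : Cb nv M) (j : Fin 3) :
    pt occ (pt occ q j) j = q := by
  obtain ⟨h1, h2, h3⟩ := rvi_fin1 j
  cases q with
  | va i k d =>
    by_cases h : occ k (j + 1) = i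
    · simp only [pt, if_pos h]
      rw [if_neg h3, if_pos h2.symm, h]
    · simp only [pt, if_neg h]
  | cl k d =>
    simp only [pt]
    rw [if_pos h1.symm]
  | lk k j' d =>
    obtain ⟨g1, g2, g3⟩ := rvi_fin1 j'
    by_cases h : j = j' + 1
    · subst h
      simp only [pt, if_true]
      rw [g2]
    · by_cases h' : j = j' + 2
      · subst h'
        simp only [pt, if_neg h, if_true]
        rw [g1, if_pos rfl]
      · simp only [pt, if_neg h, if_neg h']

private lemma rvi_crv {nv M : ℕ} (q : Cb nv M) (x : Q3) (p : Fin 6) (hp : p = 4 ∨ p = 5) :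
    crv (crv q x p).1 x (crv q x p).2 = (q, p) ∧ ((crv q x p).2 = 4 ∨ (crv q x p).2 = 5) := by
  have h45 : ¬ ((5 : Fin 6) = 4) := by decide
  cases q with
  | va i k d =>
    by_cases h : isC x = true
    · rcases hp with rfl | rfl <;> cases d <;>
        simp only [crv, if_pos h, if_true, if_false, if_neg h45, Bool.false_eq_true,
          Equiv.symm_apply_apply, Equiv.apply_symm_apply, true_or, or_true, and_true]
    · simp only [crv, if_neg h]
      exact ⟨trivial, hp⟩
  | cl k d =>
    by_cases h : isE x = true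
    · simp only [crv, if_pos h, Bool.not_not]
      exact ⟨trivial, hp⟩
    · simp only [crv, if_neg h]
      exact ⟨trivial, hp⟩
  | lk k j d =>
    simp only [crv, Bool.not_not]
    exact ⟨trivial, hp⟩

private lemma rvi_mk3_at (j : Fin 3) (u v b : Bool) : mk3 j u v b j = b := by
  revert j u v b; decide

/-- the six ports -/
private lemma rvi_six (p : Fin 6) : p = 0 ∨ p = 1 ∨ p = 2 ∨ p = 3 ∨ p = 4 ∨ p = 5 := by
  revert p; decide

private lemma rvi_three (j : Fin 3) : j = 0 ∨ j = 1 ∨ j = 2 := by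
  revert j; decide

/-- from `s x` to `z j` and back -/
private lemma rvi_sz {nv M : ℕ} (occ : Fin M → Fin 3 → Fin nv) (q : Cb nv M) (j : Fin 3) (x : Q3) :
    rv occ ((q, zc j x), if x j then 1 else 0) =
      ((q, .s x), if j = 0 then 0 else if j = 1 then 1 else 2) := by
  have h := mk3_self j x
  cases hx : x j with
  | false =>
    rw [hx] at h
    simp [rv, zc, h]
  | true =>
    rw [hx] at h
    simp [rv, zc, h]

/-- from `z j` to `s` and back -/
private lemma rvi_zs {nv M : ℕ} (occ : Fin M → Fin 3 → Fin nv) (q : Cb nv M) (j : Fin 3)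
    (x : Q3) :
    rv occ ((q, .s x), if j = 0 then 0 else if j = 1 then 1 else 2) =
      ((q, zc j x), if x j then 1 else 0) := by
  rcases rvi_three j with rfl | rfl | rfl <;> simp [rv]

private lemma rvi_z34 {nv M : ℕ} (occ : Fin M → Fin 3 → Fin nv) (q : Cb nv M) (j : Fin 3)
    (u v : Bool) (p : Fin 6) (hp : p = 3 ∨ p = 4) :
    rv occ (rv occ ((q, .z j u v), p)) = ((q, .z j u v), p) ∧
      act (rv occ ((q, .z j u v), p)).1.2 (rv occ ((q, .z j u v), p)).2 = act (.z j u v) p := by
  by_cases h40 : p = 4 ∧ j = 0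
  · obtain ⟨rfl, rfl⟩ := h40
    exact ⟨rfl, rfl⟩
  have hk : ∀ (q' : Cb nv M) (p' : Fin 6), (p' = 3 ∨ p' = 4) → ¬ (p' = 4 ∧ j = 0) →
      rv occ ((q', .z j u v), p') = if u = false ∧ v = false ∧ pt occ q' j ≠ q' then
        ((pt occ q' j, .z j u v), p') else if j = 0 then ((q', .z j u v), p')
        else ((q', .z j u v), if p' = 3 then 4 else 3) := by
    intro q' p' hp' hj
    have g0 : ¬ p' = 0 := by rcases hp' with rfl | rfl <;> decide
    have g1 : ¬ p' = 1 := by rcases hp' with rfl | rfl <;> decide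
    have g2 : ¬ p' = 2 := by rcases hp' with rfl | rfl <;> decide
    have g5 : ¬ p' = 5 := by rcases hp' with rfl | rfl <;> decide
    simp only [rv]
    rw [if_neg g0, if_neg g1, if_neg g2, if_neg g5, if_neg hj]
  rw [hk q p hp h40]
  by_cases hc : u = false ∧ v = false ∧ pt occ q j ≠ q
  · have hc' : u = false ∧ v = false ∧ pt occ (pt occ q j) j ≠ pt occ q j := by
      rw [rvi_pt]
      exact ⟨hc.1, hc.2.1, fun e => hc.2.2 e.symm⟩
    rw [if_pos hc, hk _ p hp h40, if_pos hc', rvi_pt]
    exact ⟨rfl, rfl⟩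
  · rw [if_neg hc]
    by_cases hj : j = 0
    · rw [if_pos hj, hk q p hp h40, if_neg hc, if_pos hj]
      exact ⟨rfl, rfl⟩
    · rw [if_neg hj]
      have hp' : (if p = 3 then (4 : Fin 6) else 3) = 3 ∨ (if p = 3 then (4 : Fin 6) else 3) = 4 := by
        by_cases h3 : p = 3
        · rw [if_pos h3]; exact Or.inr rfl
        · rw [if_neg h3]; exact Or.inl rfl
      rw [hk q _ hp' (fun e => hj e.2), if_neg hc, if_neg hj]
      rcases hp with rfl | rfl
      · refine ⟨rfl, ?_⟩
        rcases rvi_three j with rfl | rfl | rfl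
        · exact absurd rfl hj
        · rfl
        · rfl
      · refine ⟨rfl, ?_⟩
        rcases rvi_three j with rfl | rfl | rfl
        · exact absurd rfl hj
        · rfl
        · rfl

theorem p_rvi : S_rvi := by
  intro nv M occ d
  obtain ⟨⟨q, h⟩, p⟩ := d
  cases h with
  | s x =>
    rcases rvi_six p with rfl | rfl | rfl | rfl | h4
    · have h1 : rv occ ((q, HV.s x), 0) = ((q, zc 0 x), if x 0 then 1 else 0) := rvi_zs occ q 0 x
      rw [h1, rvi_sz]
      refine ⟨rfl, ?_⟩
      cases x 0 <;> rfl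
    · have h1 : rv occ ((q, HV.s x), 1) = ((q, zc 1 x), if x 1 then 1 else 0) := rvi_zs occ q 1 x
      rw [h1, rvi_sz]
      refine ⟨rfl, ?_⟩
      cases x 1 <;> rfl
    · have h1 : rv occ ((q, HV.s x), 2) = ((q, zc 2 x), if x 2 then 1 else 0) := rvi_zs occ q 2 x
      rw [h1, rvi_sz]
      refine ⟨rfl, ?_⟩
      cases x 2 <;> rfl
    · exact ⟨rfl, rfl⟩
    · have key : ∀ (q' : Cb nv M) (p' : Fin 6), (p' = 4 ∨ p' = 5) →
          rv occ ((q', HV.s x), p') = (((crv q' x p').1, HV.s x), (crv q' x p').2) := by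
        intro q' p' hp'
        rcases hp' with rfl | rfl <;> rfl
      obtain ⟨h5, h6⟩ := rvi_crv q x p h4
      rw [key q p h4, key _ _ h6, h5]
      exact ⟨rfl, rfl⟩
  | z j u v =>
    have hz0 : ∀ b : Bool, rv occ ((q, HV.z j u v), if b then 1 else 0) =
        ((q, HV.s (mk3 j u v b)), if j = 0 then 0 else if j = 1 then 1 else 2) := by
      intro b
      cases b <;> rfl
    have hzb : ∀ b : Bool, rv occ (rv occ ((q, HV.z j u v), if b then 1 else 0)) =
        ((q, HV.z j u v), if b then 1 else 0) := by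
      intro b
      rw [hz0, rvi_zs, zc_mk3, rvi_mk3_at]
    have hac : ∀ b : Bool, act (rv occ ((q, HV.z j u v), if b then 1 else 0)).1.2
        (rv occ ((q, HV.z j u v), if b then 1 else 0)).2 = act (HV.z j u v) (if b then 1 else 0) := by
      intro b
      rw [hz0]
      cases b <;> rfl
    rcases rvi_six p with rfl | rfl | rfl | rfl | rfl | rfl
    · exact ⟨hzb false, hac false⟩
    · exact ⟨hzb true, hac true⟩
    · by_cases hj : j = 2
      · subst hj
        exact ⟨rfl, rfl⟩
      · have h1 : rv occ ((q, HV.z j u v), 2) = ((q, HV.z j u v), 2) := by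
          show (if j = 2 then ((q, HV.lz u v), (0 : Fin 6)) else ((q, HV.z j u v), 2)) = _
          rw [if_neg hj]
        rw [h1, h1]
        exact ⟨rfl, rfl⟩
    · exact rvi_z34 occ q j u v 3 (Or.inl rfl)
    · exact rvi_z34 occ q j u v 4 (Or.inr rfl)
    · exact ⟨rfl, rfl⟩
  | ls x =>
    rcases rvi_six p with rfl | rfl | rfl | rfl | rfl | rfl <;> exact ⟨rfl, rfl⟩
  | lz u v =>
    rcases rvi_six p with rfl | rfl | rfl | rfl | rfl | rfl <;> exact ⟨rfl, rfl⟩

end SDich.SC
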