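import Pool.Agent.Lib.MP_e7d961_lc.SC.Stm

/-!
Piece rvt (`MP_e7d961_lc`, the graph `HC`): the functions `act`, `rv` on names.
-/

namespace SDich.SC

open Finset

private lemma rvt_rot (M : ℕ) (k : Fin M) :
    ((finRotate M k : Fin M) : ℕ) = if (k : ℕ) + 1 < M then (k : ℕ) + 1 else 0 := by
  cases M with
  | zero => exact k.elim0
  | succ n =>
    rw [coe_finRotate]
    have hk := k.2
    by_cases h : k = Fin.last n
    · have h1 : (k : ℕ) = n := by rw [h]; rfl
      rw [if_pos h, if_neg (by omega)]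
    · have h1 : (k : ℕ) ≠ n := fun h2 => h (Fin.ext h2)
      rw [if_neg h, if_pos (by omega)]

private lemma rvt_rots (M : ℕ) (k : Fin M) :
    (((finRotate M).symm k : Fin M) : ℕ) = if 0 < (k : ℕ) then (k : ℕ) - 1 else M - 1 := by
  have hk := k.2
  have h1 : (if 0 < (k : ℕ) then (k : ℕ) - 1 else M - 1) < M := by split <;> omega
  have h2 : (finRotate M).symm k = ⟨if 0 < (k : ℕ) then (k : ℕ) - 1 else M - 1, h1⟩ := by
    rw [Equiv.symm_apply_eq]
    apply Fin.ext
    rw [rvt_rot]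
    dsimp only
    split_ifs <;> omega
  rw [h2]

private lemma rvt_occ (nv : ℕ) (T : List (ℕ × ℕ × ℕ)) (hv : 0 < nv)
    (hT : ∀ t ∈ T, t.1 < nv ∧ t.2.1 < nv ∧ t.2.2 < nv) (k : Fin T.length) (j : Fin 3) :
    ((occL nv T hv k j : Fin nv) : ℕ) = occT T k j := by
  have hm : T.getD k (0, 0, 0) ∈ T := by
    rw [List.getD_eq_getElem _ _ k.2]
    exact List.getElem_mem k.2
  have h := hT _ hm
  unfold occL
  apply Nat.mod_eq_of_lt
  unfold occT
  split_ifs
  · exact h.1
  · exact h.2.1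
  · exact h.2.2

private lemma rvt_inj {nv M : ℕ} : Function.Injective (cnm : Cb nv M → Tc) := by
  intro a b h
  cases a <;> cases b <;> simp only [cnm, Prod.mk.injEq] at h <;>
    first
    | (exfalso; omega)
    | (obtain ⟨⟨-, h1⟩, h2, h3⟩ := h
       have h2' := Fin.ext h2
       subst h2' h3
       first
       | rfl
       | (have h1' := Fin.ext h1
          subst h1'
          rfl))

private lemma rvt_m1 : ∀ j : Fin 3, ((j + 1 : Fin 3) : ℕ) = ((j : ℕ) + 1) % 3 := by decide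

private lemma rvt_m2 : ∀ j : Fin 3, ((j + 2 : Fin 3) : ℕ) = ((j : ℕ) + 2) % 3 := by decide

private lemma rvt_pt (nv : ℕ) (T : List (ℕ × ℕ × ℕ)) (hv : 0 < nv)
    (hT : ∀ t ∈ T, t.1 < nv ∧ t.2.1 < nv ∧ t.2.2 < nv) (q : Cb nv T.length) (j : Fin 3) :
    ptT T (cnm q) j = cnm (pt (occL nv T hv) q j) := by
  cases q with
  | va i k d =>
    have h1 : (occT T k (((j : ℕ) + 1) % 3) = (i : ℕ)) ↔ occL nv T hv k (j + 1) = i := by
      rw [← rvt_m1, ← rvt_occ nv T hv hT]
      exact Fin.ext_iff.symm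
    have e0 : ptT T (cnm (Cb.va i k d : Cb nv T.length)) j =
        if occT T k (((j : ℕ) + 1) % 3) = (i : ℕ) then ((2, ((j : ℕ) + 1) % 3), ((k : ℕ), d))
        else ((0, (i : ℕ)), ((k : ℕ), d)) := rfl
    have e1 : pt (occL nv T hv) (Cb.va i k d) j =
        if occL nv T hv k (j + 1) = i then .lk k (j + 1) d else .va i k d := rfl
    rw [e0, e1]
    by_cases h : occL nv T hv k (j + 1) = i
    · rw [if_pos (h1.2 h), if_pos h, ← rvt_m1]
      rfl
    · rw [if_neg (fun h3 => h (h1.1 h3)), if_neg h]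
      rfl
  | cl k d =>
    have e0 : ptT T (cnm (Cb.cl k d : Cb nv T.length)) j =
        ((2, ((j : ℕ) + 2) % 3), ((k : ℕ), d)) := rfl
    rw [e0, ← rvt_m2]
    rfl
  | lk k j' d =>
    have h1 : ((j : ℕ) = ((j' : ℕ) + 1) % 3) ↔ j = j' + 1 := by
      rw [← rvt_m1]
      exact Fin.ext_iff.symm
    have h2 : ((j : ℕ) = ((j' : ℕ) + 2) % 3) ↔ j = j' + 2 := by
      rw [← rvt_m2]
      exact Fin.ext_iff.symm
    have e0 : ptT T (cnm (Cb.lk k j' d : Cb nv T.length)) j =
        if (j : ℕ) = ((j' : ℕ) + 1) % 3 then ((1, 0), ((k : ℕ), d))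
        else if (j : ℕ) = ((j' : ℕ) + 2) % 3 then ((0, occT T k j'), ((k : ℕ), d))
        else ((2, (j' : ℕ)), ((k : ℕ), d)) := rfl
    have e1 : pt (occL nv T hv) (Cb.lk k j' d) j =
        if j = j' + 1 then .cl k d
        else if j = j' + 2 then .va (occL nv T hv k j') k d else .lk k j' d := rfl
    rw [e0, e1]
    by_cases h3 : j = j' + 1
    · rw [if_pos (h1.2 h3), if_pos h3]
      rfl
    · rw [if_neg (fun h => h3 (h1.1 h)), if_neg h3]
      by_cases h4 : j = j' + 2
      · rw [if_pos (h2.2 h4), if_pos h4, ← rvt_occ nv T hv hT]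
        rfl
      · rw [if_neg (fun h => h4 (h2.1 h)), if_neg h4]
        rfl

private lemma rvt_crv {nv M : ℕ} (q : Cb nv M) (x : Q3) (p : Fin 6) (hp : p = 4 ∨ p = 5) :
    crvT M (cnm q) (x 0, x 1, x 2) p = (cnm (crv q x p).1, ((crv q x p).2 : ℕ)) := by
  cases q with
  | va i k d =>
    by_cases hC : isC x = true
    · have hC' : x 0 = x 1 ∧ x 1 = x 2 := by simpa [isC] using hC
      rcases hp with rfl | rfl
      · cases d with
        | false =>
          simp [crvT, cnm, crv, hC, hC']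
        | true =>
          simp [crvT, cnm, crv, hC, hC', rvt_rot, -finRotate_apply] <;>
            (by_cases hh : (k : ℕ) + 1 < M <;> simp [hh])
      · cases d with
        | false =>
          simp [crvT, cnm, crv, hC, hC', rvt_rots, -finRotate_symm_apply] <;>
            (by_cases hh : 0 < (k : ℕ) <;> simp [hh])
        | true =>
          simp [crvT, cnm, crv, hC, hC']
    · have hC' : ¬ (x 0 = x 1 ∧ x 1 = x 2) := by simpa [isC] using hC
      have e1 : crv (Cb.va i k d : Cb nv M) x p = (Cb.va i k d, p) := if_neg hC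
      have e0 : crvT M (cnm (Cb.va i k d : Cb nv M)) (x 0, x 1, x 2) p =
        (cnm (Cb.va i k d : Cb nv M), (p : ℕ)) := if_neg hC'
      rw [e0, e1]
  | cl k d =>
    by_cases hE : isE x = true
    · have e1 : crv (Cb.cl k d : Cb nv M) x p = (Cb.cl k (!d), p) := if_pos hE
      have e0 : crvT M (cnm (Cb.cl k d : Cb nv M)) (x 0, x 1, x 2) p =
        (cnm (Cb.cl k (!d) : Cb nv M), (p : ℕ)) := if_pos hE
      rw [e0, e1]
    · have e1 : crv (Cb.cl k d : Cb nv M) x p = (Cb.cl k d, p) := if_neg hE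
      have e0 : crvT M (cnm (Cb.cl k d : Cb nv M)) (x 0, x 1, x 2) p =
        (cnm (Cb.cl k d : Cb nv M), (p : ℕ)) := if_neg hE
      rw [e0, e1]
  | lk k j d => rfl

private lemma rvt_p : ∀ p : Fin 6, p = 0 ∨ p = 1 ∨ p = 2 ∨ p = 3 ∨ p = 4 ∨ p = 5 := by decide

private lemma rvt_act : ∀ (j : Fin 3) (p : Fin 6),
    actT ((1, (j : ℕ)), (false, false, false)) p = act (.z j false false) p := by decide

private lemma rvt_mk : ∀ (j : Fin 3) (u v b : Bool),
    hnm (.s (mk3 j u v b)) = ((0, 0), mkT j u v b) := by decide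

private lemma rvt_zc (j : Fin 3) (x : Q3) : hnm (zc j x) = zcT j (x 0, x 1, x 2) := by
  revert j x
  decide

private lemma rvt_jj : ∀ j : Fin 3,
    (((if j = 0 then 0 else if j = 1 then 1 else 2 : Fin 6) : Fin 6) : ℕ) = (j : ℕ) := by decide

private lemma p2_f3 : ∀ j : Fin 3, j = 0 ∨ j = 1 ∨ j = 2 := by decide

private lemma rvt_z34 (nv : ℕ) (T : List (ℕ × ℕ × ℕ)) (hv : 0 < nv)
    (hT : ∀ t ∈ T, t.1 < nv ∧ t.2.1 < nv ∧ t.2.2 < nv) (q : Cb nv T.length) (j : Fin 3)
    (u v : Bool) (p : Fin 6) (hp : p = 3 ∨ (p = 4 ∧ j ≠ 0))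
    (hcnm : pt (occL nv T hv) q j ≠ q ↔ ¬ ptT T (cnm q) j = cnm q) :
    rvT T (nm (q, HV.z j u v)) p = (nm (rv (occL nv T hv) ((q, HV.z j u v), p)).1,
      ((rv (occL nv T hv) ((q, HV.z j u v), p)).2 : ℕ)) := by
  have e : rv (occL nv T hv) ((q, HV.z j u v), p) =
      if u = false ∧ v = false ∧ pt (occL nv T hv) q j ≠ q then
        ((pt (occL nv T hv) q j, HV.z j u v), p)
      else if j = 0 then ((q, HV.z j u v), p)
      else ((q, HV.z j u v), if p = 3 then 4 else 3) := by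
    rcases hp with rfl | ⟨rfl, hj⟩
    · rfl
    · unfold rv
      simp [hj]
  have e' : rvT T (nm (q, HV.z j u v)) p =
      if u = false ∧ v = false ∧ ¬ ptT T (cnm q) j = cnm q then
        ((ptT T (cnm q) j, hnm (HV.z j u v)), (p : ℕ))
      else if j = 0 then (nm (q, HV.z j u v), (p : ℕ))
      else (nm (q, HV.z j u v), if (p : ℕ) = 3 then 4 else 3) := by
    have hj0 : ((j : ℕ) = 0) ↔ j = 0 := ⟨fun h => Fin.ext h, fun h => by rw [h]; rfl⟩
    rcases hp with rfl | ⟨rfl, hj⟩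
    · by_cases h : j = 0
      · subst h
        rfl
      · have h' : ¬ (j : ℕ) = 0 := fun h3 => h (hj0.1 h3)
        simp [rvT, nm, hnm, h, h']
    · have h' : ¬ (j : ℕ) = 0 := fun h3 => hj (hj0.1 h3)
      simp [rvT, nm, hnm, hj, h']
  rw [e, e']
  by_cases h1 : u = false ∧ v = false ∧ pt (occL nv T hv) q j ≠ q
  · rw [if_pos ⟨h1.1, h1.2.1, hcnm.1 h1.2.2⟩, if_pos h1, rvt_pt nv T hv hT]
    rfl
  · rw [if_neg (fun h => h1 ⟨h.1, h.2.1, hcnm.2 h.2.2⟩), if_neg h1]
    by_cases h2 : j = 0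
    · rw [if_pos h2, if_pos h2]
    · rw [if_neg h2, if_neg h2]
      rcases hp with rfl | ⟨rfl, hj⟩ <;> rfl

/-- **[rvt]** -/
theorem p_rvt : S_rvt := by
  intro nv T hv hT w p
  obtain ⟨q, h⟩ := w
  constructor
  · cases h with
    | s x =>
      have := p.2
      simp [nm, hnm, actT, act, this]
    | z j u v => exact rvt_act j p
    | ls x =>
      rcases rvt_p p with rfl | rfl | rfl | rfl | rfl | rfl <;> rfl
    | lz u v =>
      rcases rvt_p p with rfl | rfl | rfl | rfl | rfl | rfl <;> rfl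
  · cases h with
    | s x =>
      rcases rvt_p p with rfl | rfl | rfl | rfl | rfl | rfl
      · have e : rv (occL nv T hv) ((q, .s x), 0) = ((q, zc 0 x), if x 0 then 1 else 0) := rfl
        have e2 : rvT T (nm (q, HV.s x)) ((0 : Fin 6) : ℕ) =
          ((cnm q, zcT 0 (x 0, x 1, x 2)), if bitT (x 0, x 1, x 2) 0 then 1 else 0) := rfl
        rw [e, e2]
        simp only [nm]
        rw [rvt_zc]
        rcases Bool.eq_false_or_eq_true (x 0) with h | h <;> simp [bitT, h]
      · have e : rv (occL nv T hv) ((q, .s x), 1) = ((q, zc 1 x), if x 1 then 1 else 0) := rfl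
        have e2 : rvT T (nm (q, HV.s x)) ((1 : Fin 6) : ℕ) =
          ((cnm q, zcT 1 (x 0, x 1, x 2)), if bitT (x 0, x 1, x 2) 1 then 1 else 0) := rfl
        rw [e, e2]
        simp only [nm]
        rw [rvt_zc]
        rcases Bool.eq_false_or_eq_true (x 1) with h | h <;> simp [bitT, h]
      · have e : rv (occL nv T hv) ((q, .s x), 2) = ((q, zc 2 x), if x 2 then 1 else 0) := rfl
        have e2 : rvT T (nm (q, HV.s x)) ((2 : Fin 6) : ℕ) =
          ((cnm q, zcT 2 (x 0, x 1, x 2)), if bitT (x 0, x 1, x 2) 2 then 1 else 0) := rfl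
        rw [e, e2]
        simp only [nm]
        rw [rvt_zc]
        rcases Bool.eq_false_or_eq_true (x 2) with h | h <;> simp [bitT, h]
      · rfl
      · have e : rv (occL nv T hv) ((q, .s x), 4) = (((crv q x 4).1, .s x), (crv q x 4).2) := rfl
        rw [e]
        have e2 : rvT T (nm (q, HV.s x)) ((4 : Fin 6) : ℕ) =
          (((crvT T.length (cnm q) (x 0, x 1, x 2) ((4 : Fin 6) : ℕ)).1, hnm (.s x)),
            (crvT T.length (cnm q) (x 0, x 1, x 2) ((4 : Fin 6) : ℕ)).2) := rfl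
        rw [e2, rvt_crv q x 4 (Or.inl rfl)]
        rfl
      · have e : rv (occL nv T hv) ((q, .s x), 5) = (((crv q x 5).1, .s x), (crv q x 5).2) := rfl
        rw [e]
        have e2 : rvT T (nm (q, HV.s x)) ((5 : Fin 6) : ℕ) =
          (((crvT T.length (cnm q) (x 0, x 1, x 2) ((5 : Fin 6) : ℕ)).1, hnm (.s x)),
            (crvT T.length (cnm q) (x 0, x 1, x 2) ((5 : Fin 6) : ℕ)).2) := rfl
        rw [e2, rvt_crv q x 5 (Or.inr rfl)]
        rfl
    | z j u v =>
      have hcnm : pt (occL nv T hv) q j ≠ q ↔ ¬ ptT T (cnm q) j = cnm q := by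
        rw [rvt_pt nv T hv hT]
        exact not_congr rvt_inj.eq_iff.symm
      rcases rvt_p p with rfl | rfl | rfl | rfl | rfl | rfl
      · have e : rv (occL nv T hv) ((q, .z j u v), 0) =
          ((q, .s (mk3 j u v false)), if j = 0 then 0 else if j = 1 then 1 else 2) := rfl
        rw [e]
        simp only [nm]
        rw [rvt_mk, rvt_jj]
        rfl
      · have e : rv (occL nv T hv) ((q, .z j u v), 1) =
          ((q, .s (mk3 j u v true)), if j = 0 then 0 else if j = 1 then 1 else 2) := rfl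
        rw [e]
        simp only [nm]
        rw [rvt_mk, rvt_jj]
        rfl
      · rcases p2_f3 j with rfl | rfl | rfl <;> rfl
      · exact rvt_z34 nv T hv hT q j u v 3 (Or.inl rfl) hcnm
      · rcases p2_f3 j with rfl | rfl | rfl
        · rfl
        · exact rvt_z34 nv T hv hT q 1 u v 4 (Or.inr ⟨rfl, by decide⟩) hcnm
        · exact rvt_z34 nv T hv hT q 2 u v 4 (Or.inr ⟨rfl, by decide⟩) hcnm
      · rcases p2_f3 j with rfl | rfl | rfl <;> rfl
    | ls x =>
      rcases rvt_p p with rfl | rfl | rfl | rfl | rfl | rfl <;> rfl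
    | lz u v =>
      rcases rvt_p p with rfl | rfl | rfl | rfl | rfl | rfl <;> rfl

end SDich.SC
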