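import Pool.Agent.Lib.MP_e7d961_lc.SC.Stm

/-!
Piece rz (`MP_e7d961_lc`): the code is the code of the graph.
-/

namespace SDich.SC

open Finset HerCo CookLevin N68a2faeb

/-- transport of darts -/
private def rz_map {G : Gr} {D D' : Type} (Γ : DG G D) (κ : D ≃ D') : DG G D' where
  tail d := Γ.tail (κ.symm d)
  rev d := κ (Γ.rev (κ.symm d))
  rev_rev d := by rw [Equiv.symm_apply_apply, Γ.rev_rev, Equiv.apply_symm_apply]
  ed d := Γ.ed (κ.symm d)
  ed_surj := Γ.ed_surj.comp κ.symm.surjective
  ed_eq d d' := by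
    rw [Γ.ed_eq]
    constructor
    · rintro (h | h)
      · exact Or.inl (κ.symm.injective h)
      · right
        rw [← h, Equiv.apply_symm_apply]
    · rintro (h | h)
      · exact Or.inl (congrArg _ h)
      · right
        rw [h, Equiv.symm_apply_apply]
  ends_semi d h := by
    apply Γ.ends_semi
    have h1 := congrArg κ.symm h
    rwa [Equiv.symm_apply_apply] at h1
  ends_edge d h := by
    rw [Equiv.symm_apply_apply]
    apply Γ.ends_edge
    intro h1
    apply h
    rw [h1, Equiv.apply_symm_apply]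

private theorem rz_getD (L : List Tn) (a : Fin L.length) : L.getD a dn = L[a] := by
  simp [List.getD_eq_getElem?_getD]

/-- [rz] -/
theorem p_rz : S_rz := by
  classical
  intro hrvi hcd hvts hrvt nv T hv hT hlt
  obtain ⟨hnd, hmem, hex, hinj⟩ := hvts nv T.length
  -- the numbering of the vertices
  let L : List Tn := vertsT nv T.length
  have hL : L = vertsT nv T.length := rfl
  have h1 : ∀ a : Fin L.length, ∃ w : W nv T.length, nm w = L[a] := fun a =>
    hex _ (List.getElem_mem _)
  choose e0 he0 using h1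
  have hbij : Function.Bijective e0 := by
    constructor
    · intro a b hab
      have h2 : L[a] = L[b] := by rw [← he0 a, ← he0 b, hab]
      exact Fin.ext ((List.Nodup.getElem_inj_iff hnd).1 h2)
    · intro w
      obtain ⟨i, hi, h2⟩ := List.getElem_of_mem (hmem w)
      refine ⟨⟨i, hi⟩, hinj ?_⟩
      rw [he0]
      exact h2
  let e : Fin L.length ≃ W nv T.length := Equiv.ofBijective e0 hbij
  have he : ∀ a, nm (e a) = L.getD a dn := fun a => by
    rw [rz_getD]
    exact he0 a
  let occ := occL nv T hv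
  let ac : Fin L.length → Fin 6 → Bool := fun a p => act (e a).2 p
  let rev : Fin L.length × Fin 6 → Fin L.length × Fin 6 := fun d =>
    (e.symm (rv occ (e d.1, d.2)).1, (rv occ (e d.1, d.2)).2)
  have hrev : ∀ d, (e (rev d).1, (rev d).2) = rv occ (e d.1, d.2) := fun d =>
    Prod.ext (e.apply_symm_apply _) rfl
  have hN : 0 < L.length := by
    have hM : 0 < T.length := List.length_pos_iff.2 hT
    have h2 := hmem (.cl ⟨0, hM⟩ false, .s o3)
    exact List.length_pos_of_mem h2
  have hrr : ∀ d, rev (rev d) = d := by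
    intro d
    have h2 : (e (rev (rev d)).1, (rev (rev d)).2) = (e d.1, d.2) := by
      rw [hrev, hrev, (hrvi nv T.length occ _).1]
    have h3 : e (rev (rev d)).1 = e d.1 := (Prod.mk.inj h2).1
    have h4 : (rev (rev d)).2 = d.2 := (Prod.mk.inj h2).2
    exact Prod.ext (e.injective h3) h4
  have hac : ∀ d, ac (rev d).1 (rev d).2 = ac d.1 d.2 := by
    intro d
    have h2 := (hrvi nv T.length occ (e d.1, d.2)).2
    rw [← hrev] at h2
    exact h2
  obtain ⟨hc, _, hh⟩ := hcd L.length (fun a p b p' =>
    actT (L.getD a dn).2 p && decide (rvT T (L.getD a dn) p = (L.getD b dn, p'))) ac rev hN hrr hac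
    (by
      rintro ⟨a, p⟩ ⟨b, p'⟩
      show (actT (L.getD a dn).2 p && decide (rvT T (L.getD a dn) p = (L.getD b dn, (p' : ℕ)))) =
        true ↔ act (e a).2 p = true ∧ (b, p') = rev (a, p)
      rw [← he a, ← he b, (hrvt nv T hv hlt (e a) p).1, (hrvt nv T hv hlt (e a) p).2,
        Bool.and_eq_true, decide_eq_true_iff]
      refine and_congr_right fun _ => ?_
      constructor
      · intro h2
        have h3 := hinj (congrArg Prod.fst h2)
        have h4 : (rv occ (e a, p)).2 = p' := Fin.ext (congrArg Prod.snd h2)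
        refine Prod.ext ?_ h4.symm
        show b = e.symm (rv occ (e a, p)).1
        rw [Equiv.eq_symm_apply]
        exact h3.symm
      · intro h2
        have h3 : b = e.symm (rv occ (e a, p)).1 := congrArg Prod.fst h2
        have h4 : p' = (rv occ (e a, p)).2 := congrArg Prod.snd h2
        rw [Equiv.eq_symm_apply] at h3
        exact Prod.ext (congrArg nm h3.symm) (congrArg Fin.val h4.symm))
  obtain ⟨ψ, Γ, ht, hr⟩ := hh hc
  let κ : {d : Fin L.length × Fin 6 // ac d.1 d.2 = true} ≃ Dt nv T.length :=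
    { toFun := fun d => ⟨(e d.1.1, d.1.2), d.2⟩
      invFun := fun d => ⟨(e.symm d.1.1, d.1.2), by
        show act (e (e.symm d.1.1)).2 d.1.2 = true
        rw [Equiv.apply_symm_apply]
        exact d.2⟩
      left_inv := fun d => Subtype.ext (Prod.ext (e.symm_apply_apply _) rfl)
      right_inv := fun d => Subtype.ext (Prod.ext (e.apply_symm_apply _) rfl) }
  refine ⟨hc, ψ.trans e, rz_map Γ κ, ?_, ?_⟩
  · intro d
    show e (ψ (Γ.tail (κ.symm d))) = d.1.1
    rw [ht]
    exact e.apply_symm_apply _
  · intro d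
    show (e (Γ.rev (κ.symm d)).1.1, (Γ.rev (κ.symm d)).1.2) = rv occ d.1
    rw [hr, hrev]
    have h2 : (e (κ.symm d).1.1, (κ.symm d).1.2) = d.1 :=
      congrArg Subtype.val (κ.apply_symm_apply d)
    rw [h2]

end SDich.SC
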