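import Pool.Agent.Lib.MP_e7d961_lc.SC.Stm

/-!
`MP_e7d961_lc`, piece [sg1]: the potential of a signed graph on the components that are not odd.
-/

namespace SDich.SC

open Relation

private theorem sg1_b1 : ∀ x y s : Bool, xor (xor x s) (xor y s) = xor x y := by decide

private theorem sg1_b2 : ∀ s p : Bool, xor s (xor s p) = p := by decide

private theorem sg1_b3 : ∀ x y : Bool, ¬ x = y → xor y x = true := by decide

private theorem sg1_b4 : ∀ y p : Bool, xor (xor y p) p = y := by decide

private theorem sg1_sym {N : Type} {L : N → N → Bool → Prop} (hs : ∀ u v p, L u v p → L v u p)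
    {a b : N × Bool} (h : ReflTransGen (stp L) a b) : ReflTransGen (stp L) b a := by
  induction h with
  | refl => exact .refl
  | tail _ h ih =>
    refine ReflTransGen.head ?_ ih
    unfold stp at h ⊢
    rw [Bool.xor_comm]
    exact hs _ _ _ h

private theorem sg1_shift {N : Type} {L : N → N → Bool → Prop} {a b : N × Bool}
    (h : ReflTransGen (stp L) a b) (s : Bool) :
    ReflTransGen (stp L) (a.1, xor a.2 s) (b.1, xor b.2 s) := by
  induction h with
  | refl => exact .refl
  | @tail c d _ h ih =>
    refine ih.tail ?_
    unfold stp at h ⊢
    simp only [sg1_b1]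
    exact h

theorem p_sg1 : S_sg1 := by
  classical
  intro N L hs
  let S : Setoid N :=
    { r := fun u v => ∃ p, ReflTransGen (stp L) (u, false) (v, p)
      iseqv := by
        refine ⟨fun u => ⟨false, .refl⟩, ?_, ?_⟩
        · rintro u v ⟨p, h⟩
          have h1 := sg1_shift (sg1_sym hs h) p
          refine ⟨p, ?_⟩
          simpa using h1
        · rintro u v w ⟨p, h⟩ ⟨q, h'⟩
          have h1 := sg1_shift h' p
          refine ⟨xor q p, h.trans ?_⟩
          simpa using h1 }
  let r : N → N := fun v => Quotient.out (Quotient.mk S v)
  have hr : ∀ v, ∃ p, ReflTransGen (stp L) (r v, false) (v, p) := fun v =>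
    Quotient.exact (Quotient.out_eq (Quotient.mk S v))
  refine ⟨fun v => decide (ReflTransGen (stp L) (r v, false) (v, true)), ?_⟩
  intro u v p hL hodd
  have hstep : ∀ s, ReflTransGen (stp L) (u, s) (v, xor s p) := by
    intro s
    refine ReflTransGen.single ?_
    unfold stp
    simp only [sg1_b2]
    exact hL
  have hruv : r v = r u := by
    have h1 : Quotient.mk S u = Quotient.mk S v := Quotient.sound ⟨p, by simpa using hstep false⟩
    change Quotient.out (Quotient.mk S v) = Quotient.out (Quotient.mk S u)
    rw [h1]
  have key : ∀ x y, ReflTransGen (stp L) (r u, false) (u, x) →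
      ReflTransGen (stp L) (r u, false) (u, y) → x = y := by
    intro x y hx hy
    by_contra hne
    apply hodd
    have h1 := sg1_shift ((sg1_sym hs hx).trans hy) x
    have h2 : xor x x = false := by simp
    have h3 : xor y x = true := sg1_b3 x y hne
    simp only [h2, h3] at h1
    exact h1
  obtain ⟨q, hq⟩ := hr u
  have hv : ReflTransGen (stp L) (r u, false) (v, xor q p) := hq.trans (hstep q)
  have key2 : ∀ y, ReflTransGen (stp L) (r u, false) (v, y) → y = xor q p := by
    intro y hy
    have h1 : ReflTransGen (stp L) (v, y) (u, xor y p) := by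
      have h2 := sg1_sym hs (hstep (xor y p))
      rwa [sg1_b4] at h2
    have h2 := key _ _ hq (hy.trans h1)
    rw [h2, sg1_b4]
  simp only [hruv]
  have e1 : decide (ReflTransGen (stp L) (r u, false) (u, true)) = q := by
    by_cases h : ReflTransGen (stp L) (r u, false) (u, true)
    · rw [key _ _ hq h]
      exact decide_eq_true h
    · rw [decide_eq_false h]
      cases q with
      | true => exact absurd hq h
      | false => rfl
  have e2 : decide (ReflTransGen (stp L) (r u, false) (v, true)) = xor q p := by
    by_cases h : ReflTransGen (stp L) (r u, false) (v, true)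
    · rw [← key2 _ h]
      exact decide_eq_true h
    · rw [decide_eq_false h]
      cases hqp : xor q p with
      | true => rw [hqp] at hv; exact absurd hv h
      | false => rfl
  rw [e1, e2]

end SDich.SC
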