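import Pool.Agent.Lib.MP_e7d961_lc.SC.Stm

/-!
`MP_e7d961_lc`, the graph `HC`: signed graphs, induction on walks.
-/

set_option autoImplicit false

namespace SDich.SC

/-- [sg2] -/
theorem p_sg2 : S_sg2 := by
  intro N L P b h u hu hodd
  have key : ∀ x : N × Bool, Relation.ReflTransGen (stp L) (u, false) x →
      P x.1 ∧ b x.1 = xor (b u) x.2 := by
    intro x hx
    induction hx with
    | refl => exact ⟨hu, by simp⟩
    | @tail y z hy hyz ih =>
      have hL : L y.1 z.1 (xor y.2 z.2) := hyz
      obtain ⟨h1, h2⟩ := h _ _ _ hL ih.1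
      refine ⟨h1, ?_⟩
      rw [h2, ih.2]
      cases b u <;> cases y.2 <;> cases z.2 <;> rfl
  have h1 := (key _ hodd).2
  simp at h1

end SDich.SC
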