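import Pool.Agent.Lib.MP_e7d961_lc.SC.Stm

/-!
# Piece [sg3]: transport of walks in signed graphs
-/

namespace SDich.SC

theorem p_sg3 : S_sg3 := by
  intro N L M ε L' hinj hlt hsurj hL u
  have h1 : ∀ x : N × Bool, Relation.ReflTransGen (stp L) (u, false) x →
      Relation.ReflTransGen (stp fun a b p => a < M ∧ b < M ∧ L' a b p = true)
        (ε u, false) (ε x.1, x.2) := by
    intro x hx
    induction hx with
    | refl => exact Relation.ReflTransGen.refl
    | tail _ hbc ih =>
      refine ih.tail ?_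
      exact ⟨hlt _, hlt _, (hL _ _ _).2 hbc⟩
  have h2 : ∀ y : ℕ × Bool,
      Relation.ReflTransGen (stp fun a b p => a < M ∧ b < M ∧ L' a b p = true)
        (ε u, false) y → ∃ v, ε v = y.1 ∧ Relation.ReflTransGen (stp L) (u, false) (v, y.2) := by
    intro y hy
    induction hy with
    | refl => exact ⟨u, rfl, Relation.ReflTransGen.refl⟩
    | @tail b c _ hbc ih =>
      obtain ⟨v, hv, hr⟩ := ih
      obtain ⟨_, hc, hl⟩ := hbc
      obtain ⟨w, hw⟩ := hsurj c.1 hc
      refine ⟨w, hw, hr.tail ?_⟩
      change L v w (xor b.2 c.2)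
      rw [← hL, hv, hw]
      exact hl
  constructor
  · intro h
    exact h1 _ h
  · intro h
    obtain ⟨v, hv, hr⟩ := h2 _ h
    have : v = u := hinj hv
    rw [this] at hr
    exact hr

end SDich.SC
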