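import Pool.Agent.Lib.MP_e7d961_lc.SC.Stm

/-!
Piece simp0 (`MP_e7d961_lc`): the pairs of adjacent vertices of a simple graph as darts.
-/

namespace SDich.SC

open Finset HerCo CookLevin N68a2faeb

private theorem simp0_pair {α : Type} [DecidableEq α] {a b c d : α}
    (h : ({a, b} : Multiset α) = {c, d}) : (c = a ∧ d = b) ∨ (c = b ∧ d = a) := by
  have ha : a ∈ ({c, d} : Multiset α) := h ▸ by simp
  have hb : b ∈ ({c, d} : Multiset α) := h ▸ by simp
  have hc : c ∈ ({a, b} : Multiset α) := h ▸ by simp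
  have hd : d ∈ ({a, b} : Multiset α) := h ▸ by simp
  simp only [Multiset.insert_eq_cons, Multiset.mem_cons, Multiset.mem_singleton] at ha hb hc hd
  rcases hc with hc | hc
  · left
    refine ⟨hc, ?_⟩
    subst hc
    have h2 : ({c, b} : Multiset α) = {c, d} := h
    rw [Multiset.insert_eq_cons, Multiset.insert_eq_cons, Multiset.cons_inj_right,
      Multiset.singleton_inj] at h2
    exact h2.symm
  · right
    refine ⟨hc, ?_⟩
    subst hc
    have h2 : ({a, c} : Multiset α) = {c, d} := h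
    rw [Multiset.pair_comm a c, Multiset.insert_eq_cons, Multiset.insert_eq_cons,
      Multiset.cons_inj_right, Multiset.singleton_inj] at h2
    exact h2.symm

/-- the darts -/
private abbrev simp0_D (G : Gr) : Type := {p : G.V × G.V // (sgr G).Adj p.1 p.2}

private theorem simp0_ex {G : Gr} (d : simp0_D G) : ∃ e, G.ends e = {d.1.1, d.1.2} := d.2.2

/-- the darts of a simple graph -/
private noncomputable def simp0_G (G : Gr) (hG : G.Simple) : DG G (simp0_D G) where
  tail d := d.1.1
  rev d := ⟨(d.1.2, d.1.1), (sgr G).symm.symm _ _ d.2⟩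
  rev_rev d := rfl
  ed d := (simp0_ex d).choose
  ed_surj e := by
    obtain ⟨h2, hn⟩ := hG.1 e
    obtain ⟨a, b, hab⟩ := Multiset.card_eq_two.1 h2
    have hne : a ≠ b := by
      rintro rfl
      rw [hab] at hn
      simp at hn
    refine ⟨⟨(a, b), hne, e, hab⟩, ?_⟩
    apply hG.2
    rw [(simp0_ex (⟨(a, b), hne, e, hab⟩ : simp0_D G)).choose_spec, hab]
  ed_eq d d' := by
    constructor
    · intro h
      have h1 := (simp0_ex d).choose_spec
      rw [h, (simp0_ex d').choose_spec] at h1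
      rcases simp0_pair h1.symm with ⟨h2, h3⟩ | ⟨h2, h3⟩
      · left
        exact Subtype.ext (Prod.ext h2 h3)
      · right
        exact Subtype.ext (Prod.ext h2 h3)
    · rintro (rfl | rfl)
      · rfl
      · apply hG.2
        rw [(simp0_ex d).choose_spec, (simp0_ex _).choose_spec]
        exact Multiset.pair_comm _ _
  ends_semi d h := by
    exfalso
    have h1 : d.1.2 = d.1.1 := congrArg (fun x => x.1.1) h
    exact d.2.1 h1.symm
  ends_edge d _ := (simp0_ex d).choose_spec

private theorem simp0_ne {G : Gr} (hG : G.Simple) (d : simp0_D G) :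
    (simp0_G G hG).rev d ≠ d := by
  intro h
  have h1 : d.1.2 = d.1.1 := congrArg (fun x => x.1.1) h
  exact d.2.1 h1.symm

private theorem simp0_card {V D : Type} [Fintype V] [Fintype D] (A : V → V → Prop) (t o : D → V)
    (hd : ∀ d, A (t d) (o d)) (hinj : ∀ d d', t d = t d' → o d = o d' → d = d')
    (hs : ∀ a b, A a b → ∃ d, t d = a ∧ o d = b) (v : V) (p : V → Prop) (q : D → Prop)
    (hpq : ∀ d, t d = v → (q d ↔ p (o d))) {i1 : DecidablePred fun d => t d = v ∧ q d}
    {i2 : DecidablePred fun w => A v w ∧ p w} :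
    (Finset.univ.filter fun d => t d = v ∧ q d).card =
      (Finset.univ.filter fun w => A v w ∧ p w).card := by
  refine Finset.card_bij (fun d _ => o d) ?_ ?_ ?_
  · intro d h
    obtain ⟨_, h1, h2⟩ := Finset.mem_filter.1 h
    exact Finset.mem_filter.2 ⟨Finset.mem_univ _, h1 ▸ hd d, (hpq d h1).1 h2⟩
  · intro d h d' h' hdd
    exact hinj d d' ((Finset.mem_filter.1 h).2.1.trans (Finset.mem_filter.1 h').2.1.symm) hdd
  · intro w h
    obtain ⟨_, h1, h2⟩ := Finset.mem_filter.1 h
    obtain ⟨d, h3, h4⟩ := hs v w h1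
    exact ⟨d, Finset.mem_filter.2 ⟨Finset.mem_univ _, h3, (hpq d h3).2 (h4 ▸ h2)⟩, h4⟩

/-- [simp0] -/
theorem p_simp0 : S_simp0 := by
  classical
  intro hdgl honto hcv1 hcv2 hconn G hG
  constructor
  · intro hc
    have hV : Nonempty G.V := by
      obtain ⟨f, g, h⟩ := hc
      obtain ⟨v, _⟩ := h.surjV (HV.s o3)
      exact ⟨v⟩
    refine ⟨hV, ?_⟩
    obtain ⟨f, γ, h⟩ := hcv2 hdgl G HC (simp0_D G) (simp0_G G hG) hc
    obtain ⟨δ, hδ⟩ : ∃ δ : G.V → G.V → HE, ∀ a b (hab : (sgr G).Adj a b),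
        δ a b = γ ⟨(a, b), hab⟩ :=
      ⟨fun a b => if hab : (sgr G).Adj a b then (γ ⟨(a, b), hab⟩ : HE) else HE.lp,
        fun a b hab => dif_pos hab⟩
    refine ⟨f, δ, ?_, ?_, ?_⟩
    · intro a b hab
      rw [hδ a b hab, hδ b a hab.symm]
      exact h.rev ⟨(a, b), hab⟩
    · intro a b hab
      rw [hδ a b hab]
      exact h.edge ⟨(a, b), hab⟩ (simp0_ne hG _)
    · intro v e
      have hl := h.loc v e
      refine Eq.trans (Eq.symm ?_) hl
      exact simp0_card (sgr G).Adj (fun d : simp0_D G => d.1.1) (fun d => d.1.2) (fun d => d.2)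
        (fun d d' h1 h2 => Subtype.ext (Prod.ext h1 h2)) (fun a b hab => ⟨⟨(a, b), hab⟩, rfl, rfl⟩)
        v (fun w => δ v w = e) (fun d => γ d = e) (fun d h1 => by
          show γ d = e ↔ δ v d.1.2 = e
          have h1' : d.1.1 = v := h1
          subst h1'
          rw [hδ _ _ d.2]
          exact Iff.rfl)
  · rintro ⟨hV, f, γ, h⟩
    refine hcv1 hdgl honto G HC (simp0_D G) (simp0_G G hG) f (fun d => γ d.1.1 d.1.2) hconn hV
      ⟨?_, ?_, ?_, ?_⟩
    · intro d
      exact h.symm _ _ d.2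
    · intro d hd
      exact absurd hd (simp0_ne hG d)
    · intro d _
      exact h.ends _ _ d.2
    · intro v e
      refine Eq.trans ?_ (h.loc v e)
      exact simp0_card (sgr G).Adj (fun d : simp0_D G => d.1.1) (fun d => d.1.2) (fun d => d.2)
        (fun d d' h1 h2 => Subtype.ext (Prod.ext h1 h2)) (fun a b hab => ⟨⟨(a, b), hab⟩, rfl, rfl⟩)
        v (fun w => γ v w = e) (fun d => γ d.1.1 d.1.2 = e) (fun d h1 => by
          have h1' : d.1.1 = v := h1
          subst h1'
          rfl)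

end SDich.SC
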