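import Pool.Agent.Lib.MP_e7d961_lc.SC.Stm

namespace SDich.SC

open Finset

private theorem degF {nv M : ℕ} {occ : Fin M → Fin 3 → Fin nv} (hc : S_cvd) (ha : S_actc)
    (hd : S_hdeg) {G : Gr} {φ : G.V ≃ W nv M} {Γ : DG G (Dt nv M)} (hR : Rz occ G φ Γ)
    {f : G.V → HV} {γ : Dt nv M → HE} (hC : Cv Γ HC f γ) (w : W nv M) :
    HC.deg (f (φ.symm w)) = HC.deg w.2 := by
  have h1 := hc G HC _ Γ f γ hC (φ.symm w)
  rw [← h1, ← ha hd w.2]
  apply Finset.card_bij (fun d _ => d.1.2)
  · intro d hdm
    rw [mem_filter] at hdm ⊢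
    have h2 := hR.tail d
    rw [hdm.2, Equiv.apply_symm_apply] at h2
    refine ⟨mem_univ _, ?_⟩
    have h3 := d.2
    rw [← h2] at h3
    exact h3
  · intro d hdm d' hdm' hp
    rw [mem_filter] at hdm hdm'
    have h2 := hR.tail d
    rw [hdm.2, Equiv.apply_symm_apply] at h2
    have h2' := hR.tail d'
    rw [hdm'.2, Equiv.apply_symm_apply] at h2'
    apply Subtype.ext
    exact Prod.ext (h2.symm.trans h2') hp
  · intro p hp
    rw [mem_filter] at hp
    refine ⟨⟨(w, p), hp.2⟩, ?_, rfl⟩
    rw [mem_filter]
    refine ⟨mem_univ _, ?_⟩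
    apply φ.injective
    rw [hR.tail, Equiv.apply_symm_apply]

/-- change of a bit -/
private def fb (j : Fin 3) (b : Bool) (y : Q3) : Q3 := fun i => if i = j then xor (y i) b else y i

private theorem f3 : ∀ i j : Fin 3, i = j ∨ i = j + 1 ∨ i = j + 2 := by decide

private theorem f1 : ∀ j : Fin 3, ¬ j + 1 = j := by decide

private theorem f2 : ∀ j : Fin 3, ¬ j + 2 = j := by decide

private theorem ends_zs {e : HE} {j : Fin 3} {u v : Bool} {y : Q3}
    (h : HC.ends e = ({HV.z j u v, HV.s y} : Multiset HV)) :
    e = .az j y ∧ y (j + 1) = u ∧ y (j + 2) = v := by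
  have aux : ∀ (X Y : Multiset HV), X = Y → ∀ a, a ∈ Y → a ∈ X := by
    rintro X Y rfl a ha; exact ha
  have hs0 : HV.s y ∈ ({HV.z j u v, HV.s y} : Multiset HV) := by simp
  have hz0 : HV.z j u v ∈ ({HV.z j u v, HV.s y} : Multiset HV) := by simp
  cases e with
  | az j' x =>
    have hs := aux ({HV.s x, zc j' x} : Multiset HV) _ h _ hs0
    have hz := aux ({HV.s x, zc j' x} : Multiset HV) _ h _ hz0
    simp only [zc, Multiset.insert_eq_cons, Multiset.mem_cons, Multiset.mem_singleton] at hs hz
    rcases hs with hs | hs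
    · rcases hz with hz | hz
      · cases hz
      · injection hs with hs
        injection hz with h1 h2 h3
        subst hs h1
        exact ⟨rfl, h2.symm, h3.symm⟩
    · cases hs
  | als x =>
    have hz := aux ({HV.s x, .ls x} : Multiset HV) _ h _ hz0
    simp at hz
  | alz u' v' =>
    have hs := aux ({HV.z 2 u' v', .lz u' v'} : Multiset HV) _ h _ hs0
    simp at hs
  | zz j' u' v' =>
    exfalso
    have hs := aux (show Multiset HV from if j' = 0 then {HV.z j' u' v'} else {HV.z j' u' v', HV.z j' u' v'})
      _ h _ hs0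
    by_cases hj : j' = 0
    · rw [if_pos hj] at hs; simp at hs
    · rw [if_neg hj] at hs; simp at hs
  | lp =>
    have hz := aux ({HV.s o3, .s o3} : Multiset HV) _ h _ hz0
    simp at hz
  | sm x b =>
    have hz := aux ({HV.s x.1} : Multiset HV) _ h _ hz0
    simp at hz

theorem p_snd1 : S_snd1 := by
  intro hc ha hd nv M occ G φ Γ hR f γ hC
  have hs : ∀ q x, ∃ y, f (φ.symm (q, .s x)) = .s y := by
    intro q x
    have h1 := degF hc ha hd hR hC (q, .s x)
    rw [hd.1 x] at h1
    cases hf : f (φ.symm (q, .s x)) with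
    | s y => exact ⟨y, rfl⟩
    | z j u v =>
      rw [hf, hd.2.1] at h1
      have := j.2
      omega
    | ls y => rw [hf, hd.2.2.1] at h1; omega
    | lz u v => rw [hf, hd.2.2.2] at h1; omega
  have hz : ∀ q j u v, ∃ u' v', f (φ.symm (q, .z j u v)) = .z j u' v' := by
    intro q j u v
    have h1 := degF hc ha hd hR hC (q, .z j u v)
    rw [hd.2.1] at h1
    have hj := j.2
    cases hf : f (φ.symm (q, .z j u v)) with
    | s y =>
      rw [hf, hd.1] at h1
      omega
    | z j' u' v' =>
      rw [hf, hd.2.1] at h1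
      have : j' = j := by apply Fin.ext; omega
      subst this
      exact ⟨u', v', rfl⟩
    | ls y => rw [hf, hd.2.2.1] at h1; omega
    | lz u v => rw [hf, hd.2.2.2] at h1; omega
  choose g hg using hs
  -- the neighbours of `z`
  have key : ∀ q j u v, f (φ.symm (q, .z j u v)) =
      .z j (g q (mk3 j u v false) (j + 1)) (g q (mk3 j u v false) (j + 2)) ∧
      g q (mk3 j u v true) = fb j true (g q (mk3 j u v false)) := by
    intro q j u v
    obtain ⟨u', v', hf⟩ := hz q j u v
    have hd0 : act (HV.z j u v) 0 = true := by simp [act]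
    have hd1 : act (HV.z j u v) 1 = true := by simp [act]
    set d0 : Dt nv M := ⟨((q, .z j u v), 0), hd0⟩ with hd0'
    set d1 : Dt nv M := ⟨((q, .z j u v), 1), hd1⟩ with hd1'
    have t0 : Γ.tail d0 = φ.symm (q, .z j u v) := by
      apply φ.injective
      rw [hR.tail, Equiv.apply_symm_apply]
    have t1 : Γ.tail d1 = φ.symm (q, .z j u v) := by
      apply φ.injective
      rw [hR.tail, Equiv.apply_symm_apply]
    have r0 : Γ.tail (Γ.rev d0) = φ.symm (q, .s (mk3 j u v false)) := by
      apply φ.injective
      rw [hR.tail, Equiv.apply_symm_apply, hR.rev]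
      rfl
    have r1 : Γ.tail (Γ.rev d1) = φ.symm (q, .s (mk3 j u v true)) := by
      apply φ.injective
      rw [hR.tail, Equiv.apply_symm_apply, hR.rev]
      rfl
    have n0 : Γ.rev d0 ≠ d0 := by
      intro h
      rw [h, t0] at r0
      have := φ.symm.injective r0
      simp at this
    have n1 : Γ.rev d1 ≠ d1 := by
      intro h
      rw [h, t1] at r1
      have := φ.symm.injective r1
      simp at this
    have E0 : HC.ends (γ d0) = ({HV.z j u' v', HV.s (g q (mk3 j u v false))} : Multiset HV) := by
      rcases hC.edge d0 n0 with h | ⟨_, h⟩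
      · rw [t0, r0, hf, hg] at h
        exact h
      · rw [t0, r0, hf, hg] at h
        cases h
    have E1 : HC.ends (γ d1) = ({HV.z j u' v', HV.s (g q (mk3 j u v true))} : Multiset HV) := by
      rcases hC.edge d1 n1 with h | ⟨_, h⟩
      · rw [t1, r1, hf, hg] at h
        exact h
      · rw [t1, r1, hf, hg] at h
        cases h
    obtain ⟨a0, b0, c0⟩ := ends_zs E0
    obtain ⟨a1, b1, c1⟩ := ends_zs E1
    refine ⟨by rw [hf, b0, c0], ?_⟩
    have ne : g q (mk3 j u v false) ≠ g q (mk3 j u v true) := by
      intro he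
      have hl := hC.loc (φ.symm (q, .z j u v)) (γ d0)
      have h2 : ({d0, d1} : Finset (Dt nv M)) ⊆
          univ.filter fun d => Γ.tail d = φ.symm (q, .z j u v) ∧ γ d = γ d0 := by
        intro d hdm
        rw [mem_insert, mem_singleton] at hdm
        rw [mem_filter]
        rcases hdm with rfl | rfl
        · exact ⟨mem_univ _, t0, rfl⟩
        · exact ⟨mem_univ _, t1, by rw [a1, a0, he]⟩
      have h3 := card_le_card h2
      rw [card_pair (by simp [hd0', hd1'])] at h3
      have h4 := le_trans h3 (le_of_eq hl)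
      rw [hf, E0] at h4
      revert h4
      have : Multiset.count (HV.z j u' v') ({HV.z j u' v', HV.s (g q (mk3 j u v false))} : Multiset HV) = 1 := by
        simp
      have h5 : ∀ n : ℕ, n = 1 → 2 ≤ n → False := by omega
      exact h5 _ this
    funext i
    have hi := f3 i j
    rcases hi with rfl | rfl | rfl
    · have : g q (mk3 i u v false) i ≠ g q (mk3 i u v true) i := by
        intro he
        apply ne
        funext k
        have hk := f3 k i
        rcases hk with rfl | rfl | rfl
        · exact he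
        · rw [b0, b1]
        · rw [c0, c1]
      simp only [fb, if_true]
      revert this
      cases g q (mk3 i u v false) i <;> cases g q (mk3 i u v true) i <;> simp
    · have := f1 j
      simp only [fb, if_neg this]
      rw [b0, b1]
    · have := f2 j
      simp only [fb, if_neg this]
      rw [c0, c1]
  have key2 : ∀ q j u v b, g q (mk3 j u v b) = fb j b (g q (mk3 j u v false)) := by
    intro q j u v b
    cases b with
    | true => exact (key q j u v).2
    | false => funext i; simp [fb]
  have hx : ∀ q x, g q x = xr x (g q o3) := by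
    intro q x
    have e0 : x = mk3 0 (x 1) (x 2) (x 0) := (mk3_self 0 x).symm
    have e1 : mk3 0 (x 1) (x 2) false = mk3 1 (x 2) false (x 1) := by
      generalize x 1 = a, x 2 = b
      revert a b; decide
    have e2 : mk3 1 (x 2) false false = mk3 2 false false (x 2) := by
      generalize x 2 = b
      revert b; decide
    have e3 : mk3 2 false false false = o3 := by decide
    have h1 : g q x = fb 0 (x 0) (fb 1 (x 1) (fb 2 (x 2) (g q o3))) := by
      calc g q x = g q (mk3 0 (x 1) (x 2) (x 0)) := by rw [← e0]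
        _ = fb 0 (x 0) (g q (mk3 0 (x 1) (x 2) false)) := key2 _ _ _ _ _
        _ = fb 0 (x 0) (g q (mk3 1 (x 2) false (x 1))) := by rw [e1]
        _ = fb 0 (x 0) (fb 1 (x 1) (g q (mk3 1 (x 2) false false))) := by
            rw [key2 q 1 (x 2) false (x 1)]
        _ = fb 0 (x 0) (fb 1 (x 1) (g q (mk3 2 false false (x 2)))) := by rw [e2]
        _ = fb 0 (x 0) (fb 1 (x 1) (fb 2 (x 2) (g q (mk3 2 false false false)))) := by
            rw [key2 q 2 false false (x 2)]
        _ = _ := by rw [e3]
    rw [h1]
    funext i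
    fin_cases i <;> simp [fb, xr, Bool.xor_comm]
  refine ⟨fun q => g q o3, fun q x => by rw [hg, hx], fun q j u v => ?_⟩
  rw [(key q j u v).1, hx]
  congr 1
  · have : mk3 j u v false (j + 1) = u := by revert j u v; decide
    simp [xr, this]
  · have : mk3 j u v false (j + 2) = v := by revert j u v; decide
    simp [xr, this]

end SDich.SC
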