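import Pool.Agent.Lib.MP_e7d961_lc.SC.Stm

/-!
# MP_e7d961_lc, [SC snd2]: the conditions for the values
-/

namespace SDich.SC

open Finset

private def snd2_e : HE → Multiset HV
  | .az j x => {.s x, zc j x}
  | .als x => {.s x, .ls x}
  | .alz u v => {.z 2 u v, .lz u v}
  | .zz j u v => if j = 0 then {.z j u v} else {.z j u v, .z j u v}
  | .lp => {.s o3, .s o3}
  | .sm x _ => {.s x.1}

private theorem snd2_eq (e : HE) : HC.ends e = snd2_e e := by
  cases e <;> rfl

private theorem snd2_semi' (e : HE) : snd2_e e ≠ {HV.s o3} := by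
  intro h
  cases e with
  | az j x => exact absurd (congrArg Multiset.card h) (by simp [snd2_e])
  | als x => exact absurd (congrArg Multiset.card h) (by simp [snd2_e])
  | alz u v => exact absurd (congrArg Multiset.card h) (by simp [snd2_e])
  | zz j u v =>
    have h1 : HV.s o3 ∈ snd2_e (.zz j u v) := by rw [h]; exact Multiset.mem_singleton_self _
    change HV.s o3 ∈ (if j = 0 then ({.z j u v} : Multiset HV) else {.z j u v, .z j u v}) at h1
    split_ifs at h1 <;> simp at h1
  | lp => exact absurd (congrArg Multiset.card h) (by simp [snd2_e])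
  | sm x b =>
    have h1 : ({HV.s x.1} : Multiset HV) = {HV.s o3} := h
    rw [Multiset.singleton_inj] at h1
    injection h1 with h2
    exact x.2 h2

private theorem snd2_semi (e : HE) : HC.ends e ≠ ({HV.s o3} : Multiset HV) := by
  rw [snd2_eq]; exact snd2_semi' e

private theorem snd2_pair' (e : HE) (y : Q3) (h : snd2_e e = {HV.s o3, HV.s y}) : y = o3 := by
  have hm : ∀ a : HV, a ∈ snd2_e e → a = HV.s o3 ∨ a = HV.s y := by
    intro a ha
    rw [h] at ha
    simpa using ha
  cases e with
  | az j x =>
    have h1 : zc j x ∈ snd2_e (.az j x) := by simp [snd2_e]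
    rcases hm _ h1 with h2 | h2 <;> simp [zc] at h2
  | als x =>
    have h1 : HV.ls x ∈ snd2_e (.als x) := by simp [snd2_e]
    rcases hm _ h1 with h2 | h2 <;> simp at h2
  | alz u v =>
    have h1 : HV.lz u v ∈ snd2_e (.alz u v) := by simp [snd2_e]
    rcases hm _ h1 with h2 | h2 <;> simp at h2
  | zz j u v =>
    have h1 : HV.z j u v ∈ snd2_e (.zz j u v) := by
      change HV.z j u v ∈ (if j = 0 then ({.z j u v} : Multiset HV) else {.z j u v, .z j u v})
      split_ifs <;> simp
    rcases hm _ h1 with h2 | h2 <;> simp at h2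
  | lp =>
    have h1 : HV.s y ∈ snd2_e .lp := by rw [h]; simp
    simpa [snd2_e] using h1
  | sm x b => exact absurd (congrArg Multiset.card h) (by simp [snd2_e])

private theorem snd2_pair (e : HE) (y : Q3)
    (h : HC.ends e = ({HV.s o3, HV.s y} : Multiset HV)) : y = o3 := by
  rw [snd2_eq] at h; exact snd2_pair' e y h

private theorem snd2_z' (e : HE) (j : Fin 3) (u v u' v' : Bool)
    (h : snd2_e e = {HV.z j u v, HV.z j u' v'}) : u = u' ∧ v = v' := by
  have hm : ∀ a : HV, a ∈ snd2_e e → a = HV.z j u v ∨ a = HV.z j u' v' := by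
    intro a ha
    rw [h] at ha
    simpa using ha
  cases e with
  | az j0 x =>
    have h1 : HV.s x ∈ snd2_e (.az j0 x) := by simp [snd2_e]
    rcases hm _ h1 with h2 | h2 <;> simp at h2
  | als x =>
    have h1 : HV.ls x ∈ snd2_e (.als x) := by simp [snd2_e]
    rcases hm _ h1 with h2 | h2 <;> simp at h2
  | alz u0 v0 =>
    have h1 : HV.lz u0 v0 ∈ snd2_e (.alz u0 v0) := by simp [snd2_e]
    rcases hm _ h1 with h2 | h2 <;> simp at h2
  | zz j0 u0 v0 =>
    have hn : ∀ a : HV, a ∈ snd2_e (.zz j0 u0 v0) → a = HV.z j0 u0 v0 := by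
      intro a ha
      change a ∈ (if j0 = 0 then ({.z j0 u0 v0} : Multiset HV) else {.z j0 u0 v0, .z j0 u0 v0})
        at ha
      split_ifs at ha <;> simpa using ha
    have h1 := hn (HV.z j u v) (by rw [h]; simp)
    have h2 := hn (HV.z j u' v') (by rw [h]; simp)
    injection h1 with _ h3 h4
    injection h2 with _ h5 h6
    exact ⟨h3.trans h5.symm, h4.trans h6.symm⟩
  | lp =>
    have h1 : HV.s o3 ∈ snd2_e .lp := by simp [snd2_e]
    rcases hm _ h1 with h2 | h2 <;> simp at h2
  | sm x b =>
    have h1 : HV.s x.1 ∈ snd2_e (.sm x b) := by simp [snd2_e]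
    rcases hm _ h1 with h2 | h2 <;> simp at h2

private theorem snd2_z (e : HE) (j : Fin 3) (u v u' v' : Bool)
    (h : HC.ends e = ({HV.z j u v, HV.z j u' v'} : Multiset HV)) : u = u' ∧ v = v' := by
  rw [snd2_eq] at h; exact snd2_z' e j u v u' v' h

private theorem snd2_i : ∀ i j : Fin 3, i ≠ j → i = j + 1 ∨ i = j + 2 := by decide

theorem p_snd2 : S_snd2 := by
  intro nv M occ G φ Γ hR f γ hC X hs hz
  -- the image of the tail of a dart
  have htail : ∀ d : Dt nv M, f (Γ.tail d) = f (φ.symm d.1.1) := by
    intro d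
    rw [← hR.tail d, Equiv.symm_apply_apply]
  -- semi-edges
  have hsemi : ∀ (q : Cb nv M), rv occ ((q, .s (X q)), 4) ≠ ((q, .s (X q)), 4) := by
    intro q hq
    let d : Dt nv M := ⟨((q, .s (X q)), 4), rfl⟩
    have h1 : Γ.rev d = d := Subtype.ext ((hR.rev d).trans hq)
    have h2 := hC.semi d h1
    rw [htail d, hs, xr_self] at h2
    exact snd2_semi _ h2
  -- the ports 4
  have h4 : ∀ (q q' : Cb nv M), rv occ ((q, .s (X q)), 4) = ((q', .s (X q)), 5) → X q' = X q := by
    intro q q' hq
    let d : Dt nv M := ⟨((q, .s (X q)), 4), rfl⟩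
    have h0 : (Γ.rev d).1 = ((q', .s (X q)), 5) := (hR.rev d).trans hq
    have h1 : Γ.rev d ≠ d := by
      intro h
      have h' : (Γ.rev d).1 = d.1 := congrArg Subtype.val h
      rw [h0] at h'
      have h'' : (5 : Fin 6) = 4 := congrArg Prod.snd h'
      exact absurd h'' (by decide)
    have h2 := hC.edge d h1
    rw [htail d, htail (Γ.rev d), h0] at h2
    have e1 : f (φ.symm d.1.1) = HV.s o3 := by
      show f (φ.symm (q, .s (X q))) = _
      rw [hs, xr_self]
    have e2 : f (φ.symm (((q', HV.s (X q)), (5 : Fin 6)) : W nv M × Fin 6).1) =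
        HV.s (xr (X q) (X q')) := hs q' (X q)
    rw [e1, e2] at h2
    rcases h2 with h2 | h2
    · have h3 := snd2_pair _ _ h2
      exact (xr_eq_o3.1 h3).symm
    · exact absurd h2.1 (snd2_semi _)
  have hva : ∀ i k d, isC (X (.va i k d)) = true := by
    intro i k d
    by_contra h
    apply hsemi (.va i k d)
    simp [rv, crv, h]
  have hcl : ∀ k d, isE (X (.cl k d)) = true := by
    intro k d
    by_contra h
    apply hsemi (.cl k d)
    simp [rv, crv, h]
  refine ⟨hva, hcl, ?_, ?_, ?_⟩
  · intro i k
    apply h4 (.va i k false) (.va i k true)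
    simp [rv, crv, hva]
  · intro i k
    apply h4 (.va i k true) (.va i (finRotate M k) false)
    simp [rv, crv, hva]
  · intro q j i hij
    by_cases hp : pt occ q j = q
    · rw [hp]
    · let d : Dt nv M := ⟨((q, .z j false false), 3), by simp [act]⟩
      have h0 : (Γ.rev d).1 = ((pt occ q j, .z j false false), 3) := by
        rw [hR.rev d]
        show rv occ ((q, .z j false false), 3) = _
        simp [rv, hp]
      have h1 : Γ.rev d ≠ d := by
        intro h
        have h' : (Γ.rev d).1 = d.1 := congrArg Subtype.val h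
        rw [h0] at h'
        exact hp (congrArg (fun t => t.1.1) h')
      have h2 := hC.edge d h1
      rw [htail d, htail (Γ.rev d), h0] at h2
      have e1 : f (φ.symm d.1.1) = HV.z j (X q (j + 1)) (X q (j + 2)) := by
        show f (φ.symm (q, .z j false false)) = _
        rw [hz, Bool.false_xor, Bool.false_xor]
      have e2 : f (φ.symm (((pt occ q j, HV.z j false false), (3 : Fin 6)) : W nv M × Fin 6).1) =
          HV.z j (X (pt occ q j) (j + 1)) (X (pt occ q j) (j + 2)) := by
        show f (φ.symm (pt occ q j, .z j false false)) = _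
        rw [hz, Bool.false_xor, Bool.false_xor]
      rw [e1, e2] at h2
      have h3 : X q (j + 1) = X (pt occ q j) (j + 1) ∧ X q (j + 2) = X (pt occ q j) (j + 2) := by
        rcases h2 with h2 | h2
        · exact snd2_z _ _ _ _ _ _ h2
        · have h5 := h2.2
          injection h5 with _ h6 h7
          exact ⟨h6.symm, h7.symm⟩
      rcases snd2_i i j hij with rfl | rfl
      · exact h3.1.symm
      · exact h3.2.symm

end SDich.SC
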