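import Pool.Agent.Lib.MP_e7d961_lc.SC.Stm

/-!
The values of the cubes give a solution (`MP_e7d961_lc`, piece `snd3`).
-/

namespace SDich.SC

open Finset HerCo CookLevin

private theorem snd3_a (j : Fin 3) : ¬ (j + 2 = j + 1) := by revert j; decide
private theorem snd3_b (j : Fin 3) : j ≠ j + 1 := by revert j; decide
private theorem snd3_c (j : Fin 3) : j ≠ j + 2 := by revert j; decide

private theorem snd3_isC {x : Q3} (h : isC x = true) (j : Fin 3) : x j = x 0 := by
  revert h j x; decide

private theorem snd3_isE {x : Q3} (h : isE x = true) : One (x 0) (x 1) (x 2) := by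
  revert h x; unfold One; decide

theorem p_snd3 : S_snd3 := by
  intro nv M occ X hC hE h1 h2 h3
  rcases Nat.eq_zero_or_pos M with rfl | hM
  · exact ⟨fun _ => false, fun k => k.elim0⟩
  have hconst : ∀ i k, X (.va i k false) = X (.va i ⟨0, hM⟩ false) := by
    intro i
    have := rot_trans M {k | X (.va i k false) = X (.va i ⟨0, hM⟩ false)} ⟨⟨0, hM⟩, rfl⟩
      (fun k hk => by
        show X (.va i (finRotate M k) false) = _
        rw [h2, h1]
        exact hk)
    intro k
    have hk : k ∈ {k | X (.va i k false) = X (.va i ⟨0, hM⟩ false)} := this ▸ Set.mem_univ k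
    exact hk
  refine ⟨fun i => X (.va i ⟨0, hM⟩ false) 0, fun k => ?_⟩
  have key : ∀ j : Fin 3, X (.va (occ k j) ⟨0, hM⟩ false) 0 = X (.cl k false) j := by
    intro j
    have e1 : pt occ (.lk k j false) (j + 1) = .cl k false := by
      unfold pt; simp
    have e2 : pt occ (.lk k j false) (j + 2) = .va (occ k j) k false := by
      unfold pt
      simp [snd3_a j]
    have a1 := h3 (.lk k j false) (j + 1) j (snd3_b j)
    have a2 := h3 (.lk k j false) (j + 2) j (snd3_c j)
    rw [e1] at a1
    rw [e2] at a2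
    rw [a1, ← a2, snd3_isC (hC _ _ _) j, hconst _ k]
  show One (X (.va (occ k 0) ⟨0, hM⟩ false) 0) (X (.va (occ k 1) ⟨0, hM⟩ false) 0)
    (X (.va (occ k 2) ⟨0, hM⟩ false) 0)
  rw [key, key, key]
  exact snd3_isE (hE k false)

end SDich.SC
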