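import Pool.Agent.Lib.MP_e7d961_lc.SC.Stm

/-!
Correctness of the search in signed graphs.
-/

namespace SDich.SC

open Finset

private theorem srch_get (f g : ℕ → Bool) (n : ℕ) :
    ((List.range n).flatMap fun b => [f b, g b]).length = 2 * n ∧ ∀ (b : ℕ) (p : Bool),
      ((List.range n).flatMap fun b => [f b, g b]).getD (2 * b + p.toNat) false =
        (decide (b < n) && (if p then g b else f b)) := by
  induction n with
  | zero => simp
  | succ n ih =>
    obtain ⟨ih1, ih2⟩ := ih
    rw [List.range_succ, List.flatMap_append, List.flatMap_singleton]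
    refine ⟨by rw [List.length_append, ih1]; simp; ring, fun b p => ?_⟩
    have hp : p.toNat ≤ 1 := by cases p <;> simp
    rcases lt_trichotomy b n with h | h | h
    · rw [List.getD_append _ _ _ _ (by rw [ih1]; omega), ih2]
      have h' : b < n + 1 := by omega
      simp [h, h']
    · subst h
      rw [List.getD_append_right _ _ _ _ (by rw [ih1]; omega), ih1]
      have h' : 2 * b + p.toNat - 2 * b = p.toNat := by omega
      rw [h']
      cases p <;> simp
    · rw [List.getD_append_right _ _ _ _ (by rw [ih1]; omega), ih1]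
      have h' : ¬ b < n + 1 := by omega
      rw [List.getD_eq_default]
      · simp [h']
      · simp only [List.length_cons, List.length_nil]
        omega

private theorem srch_init (N u b : ℕ) (p : Bool) :
    (initL N u).getD (2 * b + p.toNat) false = true ↔ b < N ∧ b = u ∧ p = false := by
  rw [initL, (srch_get (fun b => decide (b = u)) (fun _ => false) N).2 b p]
  cases p <;> simp

private theorem srch_step (N : ℕ) (L : ℕ → ℕ → Bool → Bool) (st : List Bool) (b : ℕ) (p : Bool) :
    (stepL N L st).getD (2 * b + p.toNat) false = true ↔ b < N ∧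
      (st.getD (2 * b + p.toNat) false = true ∨ ∃ c < N, ∃ π : Bool, L c b π = true ∧
        st.getD (2 * c + (xor p π).toNat) false = true) := by
  rw [stepL, (srch_get _ _ N).2 b p]
  cases p
  · simp [List.any_eq_true]
  · simp [List.any_eq_true]

/-- `(b, p)` is reached from `(u, false)` in the step `t`. -/
private def SR (N : ℕ) (L : ℕ → ℕ → Bool → Bool) (u t b : ℕ) (p : Bool) : Prop :=
  ((stepL N L)^[t] (initL N u)).getD (2 * b + p.toNat) false = true

private theorem sr_zero (N : ℕ) (L : ℕ → ℕ → Bool → Bool) (u b : ℕ) (p : Bool) :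
    SR N L u 0 b p ↔ b < N ∧ b = u ∧ p = false := srch_init N u b p

private theorem sr_succ (N : ℕ) (L : ℕ → ℕ → Bool → Bool) (u t b : ℕ) (p : Bool) :
    SR N L u (t + 1) b p ↔ b < N ∧ (SR N L u t b p ∨ ∃ c < N, ∃ π : Bool, L c b π = true ∧
        SR N L u t c (xor p π)) := by
  unfold SR
  rw [Function.iterate_succ_apply', srch_step]

private theorem sr_lt (N : ℕ) (L : ℕ → ℕ → Bool → Bool) (u t b : ℕ) (p : Bool)
    (h : SR N L u t b p) : b < N := by
  cases t with
  | zero => exact ((sr_zero N L u b p).mp h).1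
  | succ t => exact ((sr_succ N L u t b p).mp h).1

private theorem sr_mono (N : ℕ) (L : ℕ → ℕ → Bool → Bool) (u t b : ℕ) (p : Bool)
    (h : SR N L u t b p) : SR N L u (t + 1) b p :=
  (sr_succ N L u t b p).mpr ⟨sr_lt N L u t b p h, Or.inl h⟩

private theorem srch_stab {α : Type} [Fintype α] [DecidableEq α] (S : ℕ → Finset α)
    (h1 : ∀ t, S t ⊆ S (t + 1)) (h2 : ∀ t, S t = S (t + 1) → S (t + 1) = S (t + 2)) (t : ℕ) :
    S t ⊆ S (Fintype.card α) := by
  have h3 : ∀ t, (∃ u ≤ t, S u = S (u + 1)) ∨ t ≤ (S t).card := by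
    intro t
    induction t with
    | zero => exact Or.inr (Nat.zero_le _)
    | succ t ih =>
      rcases ih with ⟨u, hu, h⟩ | h
      · exact Or.inl ⟨u, by omega, h⟩
      · by_cases he : S t = S (t + 1)
        · exact Or.inl ⟨t, by omega, he⟩
        · have := Finset.card_lt_card ((h1 t).ssubset_of_ne he)
          exact Or.inr (by omega)
  have h4 : ∃ u ≤ Fintype.card α, S u = S (u + 1) := by
    rcases h3 (Fintype.card α) with h | h
    · exact h
    · refine ⟨Fintype.card α, le_rfl, ?_⟩
      have h5 : (S (Fintype.card α)) = univ := by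
        apply Finset.eq_univ_of_card
        exact le_antisymm (Finset.card_le_univ _) h
      apply subset_antisymm (h1 _)
      rw [h5]
      exact Finset.subset_univ _
  obtain ⟨u, hu, he⟩ := h4
  have h5 : ∀ d, S (u + d) = S u ∧ S (u + d) = S (u + d + 1) := by
    intro d
    induction d with
    | zero => exact ⟨rfl, he⟩
    | succ d ih => exact ⟨ih.2.symm.trans ih.1, h2 _ ih.2⟩
  have hm : Monotone S := monotone_nat_of_le_succ h1
  rcases le_total t (Fintype.card α) with h | h
  · exact hm h
  · obtain ⟨d, rfl⟩ := Nat.exists_eq_add_of_le (hu.trans h)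
    rw [(h5 d).1]
    exact hm hu

open Classical in
private theorem sr_stab (N : ℕ) (L : ℕ → ℕ → Bool → Bool) (u t b : ℕ) (p : Bool)
    (h : SR N L u t b p) : SR N L u (2 * N) b p := by
  have hb := sr_lt N L u t b p h
  let S : ℕ → Finset (Fin N × Bool) := fun t => univ.filter fun x => SR N L u t x.1 x.2
  have hS : ∀ t (x : Fin N × Bool), x ∈ S t ↔ SR N L u t x.1 x.2 := by
    intro t x
    simp [S]
  have h1 : ∀ t, S t ⊆ S (t + 1) := by
    intro t x hx
    rw [hS] at hx ⊢
    exact sr_mono N L u t _ _ hx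
  have h2 : ∀ t, S t = S (t + 1) → S (t + 1) = S (t + 2) := by
    intro t he
    ext x
    rw [hS, hS, sr_succ, sr_succ N L u (t + 1)]
    have h3 : ∀ y : Fin N × Bool, SR N L u t y.1 y.2 ↔ SR N L u (t + 1) y.1 y.2 := by
      intro y
      rw [← hS, ← hS, he]
    constructor
    · rintro ⟨hx, h | ⟨c, hc, π, h5, h6⟩⟩
      · exact ⟨hx, Or.inl ((h3 x).mp h)⟩
      · exact ⟨hx, Or.inr ⟨c, hc, π, h5, (h3 (⟨c, hc⟩, xor x.2 π)).mp h6⟩⟩
    · rintro ⟨hx, h | ⟨c, hc, π, h5, h6⟩⟩
      · exact ⟨hx, Or.inl ((h3 x).mpr h)⟩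
      · exact ⟨hx, Or.inr ⟨c, hc, π, h5, (h3 (⟨c, hc⟩, xor x.2 π)).mpr h6⟩⟩
  have h3 := srch_stab S h1 h2 t
  have h4 : Fintype.card (Fin N × Bool) = 2 * N := by
    rw [Fintype.card_prod, Fintype.card_fin, Fintype.card_bool]
    ring
  rw [h4] at h3
  have h5 : ((⟨b, hb⟩, p) : Fin N × Bool) ∈ S t := (hS t _).mpr h
  exact (hS _ _).mp (h3 h5)

/-- The search is correct. -/
theorem p_srch : S_srch := by
  intro N L u hu
  have hdef : srch N L u = true ↔ SR N L u (2 * N) u true := by
    unfold srch SR
    rfl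
  rw [hdef]
  constructor
  · intro h
    have hs : ∀ (t b : ℕ) (p : Bool), SR N L u t b p →
        Relation.ReflTransGen (stp (fun a b p => a < N ∧ b < N ∧ L a b p = true))
          (u, false) (b, p) := by
      intro t
      induction t with
      | zero =>
        intro b p hb
        obtain ⟨-, h2, h3⟩ := (sr_zero N L u b p).mp hb
        rw [h2, h3]
      | succ t ih =>
        intro b p hb
        obtain ⟨hb', h2 | ⟨c, hc, π, h3, h4⟩⟩ := (sr_succ N L u t b p).mp hb
        · exact ih b p h2
        · refine (ih c _ h4).tail ⟨hc, hb', ?_⟩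
          change L c b (xor (xor p π) p) = true
          have h5 : xor (xor p π) p = π := by cases p <;> cases π <;> rfl
          rw [h5]
          exact h3
    exact hs _ _ _ h
  · intro h
    have hs : ∀ x : ℕ × Bool, Relation.ReflTransGen
        (stp (fun a b p => a < N ∧ b < N ∧ L a b p = true)) (u, false) x →
        ∃ t, SR N L u t x.1 x.2 := by
      intro x hx
      induction hx with
      | refl => exact ⟨0, (sr_zero N L u u false).mpr ⟨hu, rfl, rfl⟩⟩
      | @tail y z _ hyz ih =>
        obtain ⟨t, ht⟩ := ih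
        obtain ⟨hy, hz, hL⟩ := hyz
        refine ⟨t + 1, (sr_succ N L u t z.1 z.2).mpr ⟨hz, Or.inr ⟨y.1, hy, xor y.2 z.2, hL, ?_⟩⟩⟩
        have h5 : xor z.2 (xor y.2 z.2) = y.2 := by
          cases y.2 <;> cases z.2 <;> rfl
        rw [h5]
        exact ht
    obtain ⟨t, ht⟩ := hs (u, true) h
    exact sr_stab N L u t u true ht

end SDich.SC
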