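import Pool.Agent.Lib.MP_e7d961_lc.SC.Stm

/-!
The list of names of the vertices (`MP_e7d961_lc`, piece `vts`).
-/

namespace SDich.SC

open Finset HerCo CookLevin

private theorem vts_mem_cubes {nv M : ℕ} (t : Tc) : t ∈ cubesT nv M ↔
    t.2.1 < M ∧ ((t.1.1 = 0 ∧ t.1.2 < nv) ∨ (t.1.1 = 1 ∧ t.1.2 = 0) ∨
      (t.1.1 = 2 ∧ t.1.2 < 3)) := by
  obtain ⟨⟨a, i⟩, k, d⟩ := t
  simp only [cubesT, List.mem_flatMap, List.mem_range, List.mem_append, List.mem_map,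
    List.mem_cons, List.not_mem_nil, or_false, Prod.mk.injEq]
  constructor
  · rintro ⟨k', hk, d', _, (⟨i', hi, ⟨rfl, rfl⟩, rfl, rfl⟩ | ⟨⟨rfl, rfl⟩, rfl, rfl⟩) |
      ⟨j, hj, ⟨rfl, rfl⟩, rfl, rfl⟩⟩
    · exact ⟨hk, Or.inl ⟨rfl, hi⟩⟩
    · exact ⟨hk, Or.inr (Or.inl ⟨rfl, rfl⟩)⟩
    · exact ⟨hk, Or.inr (Or.inr ⟨rfl, hj⟩)⟩
  · rintro ⟨hk, ⟨h1, h2⟩ | ⟨h1, h2⟩ | ⟨h1, h2⟩⟩
    · refine ⟨k, hk, d, by cases d <;> simp, Or.inl (Or.inl ⟨i, h2, ⟨h1.symm, rfl⟩, rfl, rfl⟩)⟩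
    · exact ⟨k, hk, d, by cases d <;> simp, Or.inl (Or.inr ⟨⟨h1, h2⟩, rfl, rfl⟩)⟩
    · exact ⟨k, hk, d, by cases d <;> simp, Or.inr ⟨i, h2, ⟨h1.symm, rfl⟩, rfl, rfl⟩⟩

private theorem vts_nodup_cubes (nv M : ℕ) : (cubesT nv M).Nodup := by
  unfold cubesT
  have hin : ∀ (k : ℕ) (d : Bool), ((((List.range nv).map fun i => (((0, i), (k, d)) : Tc)) ++
      [((1, 0), (k, d))]) ++ (List.range 3).map fun j => (((2, j), (k, d)) : Tc)).Nodup := by
    intro k d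
    refine List.Nodup.append (List.Nodup.append ?_ (List.nodup_singleton _) ?_) ?_ ?_
    · refine List.Nodup.map ?_ List.nodup_range
      intro a b h
      simpa using h
    · intro t h1 h2
      simp only [List.mem_map, List.mem_cons, List.not_mem_nil, or_false] at h1 h2
      obtain ⟨i, _, rfl⟩ := h1
      simp at h2
    · refine List.Nodup.map ?_ List.nodup_range
      intro a b h
      simpa using h
    · intro t h1 h2
      simp only [List.mem_map, List.mem_append, List.mem_cons, List.not_mem_nil, or_false]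
        at h1 h2
      obtain ⟨j, _, rfl⟩ := h2
      rcases h1 with ⟨i, _, h1⟩ | h1
      · simp at h1
      · simp at h1
  have hk : ∀ (k : ℕ) (t : Tc), t ∈ ([false, true].flatMap fun d =>
      ((List.range nv).map fun i => (((0, i), (k, d)) : Tc)) ++ [((1, 0), (k, d))] ++
      (List.range 3).map fun j => (((2, j), (k, d)) : Tc)) → t.2.1 = k := by
    intro k t ht
    simp only [List.mem_flatMap, List.mem_append, List.mem_map, List.mem_cons,
      List.not_mem_nil, or_false] at ht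
    obtain ⟨d, _, (⟨i, _, rfl⟩ | rfl) | ⟨j, _, rfl⟩⟩ := ht <;> rfl
  have hd : ∀ (k : ℕ) (d : Bool) (t : Tc), t ∈
      ((List.range nv).map fun i => (((0, i), (k, d)) : Tc)) ++ [((1, 0), (k, d))] ++
      ((List.range 3).map fun j => (((2, j), (k, d)) : Tc)) → t.2.2 = d := by
    intro k d t ht
    simp only [List.mem_append, List.mem_map, List.mem_cons, List.not_mem_nil, or_false] at ht
    obtain (⟨i, _, rfl⟩ | rfl) | ⟨j, _, rfl⟩ := ht <;> rfl
  rw [List.nodup_flatMap]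
  refine ⟨fun k _ => ?_, ?_⟩
  · rw [List.nodup_flatMap]
    refine ⟨fun d _ => hin k d, ?_⟩
    simp only [List.pairwise_cons, List.mem_cons, List.not_mem_nil, or_false, forall_eq,
      List.Pairwise.nil, and_true, false_imp_iff, implies_true]
    intro t h1 h2
    have e1 := hd k _ t h1
    have e2 := hd k _ t h2
    rw [e1] at e2
    exact absurd e2 (by decide)
  · refine List.Pairwise.imp ?_ (List.nodup_range (n := M))
    intro k k' hne t h1 h2
    exact hne ((hk k t h1).symm.trans (hk k' t h2))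

private theorem vts_hnm_mem (h : HV) : hnm h ∈ hvT := by
  rcases h with x | ⟨j, u, v⟩ | x | ⟨u, v⟩
  · show (((0, 0), (x 0, x 1, x 2)) : Th) ∈ hvT
    generalize x 0 = a
    generalize x 1 = b
    generalize x 2 = c
    revert a b c
    decide
  · show (((1, (j : ℕ)), (u, v, false)) : Th) ∈ hvT
    revert j u v
    decide
  · show (((2, 0), (x 0, x 1, x 2)) : Th) ∈ hvT
    generalize x 0 = a
    generalize x 1 = b
    generalize x 2 = c
    revert a b c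
    decide
  · show (((3, 0), (u, v, false)) : Th) ∈ hvT
    revert u v
    decide

private theorem vts_mem_hnm (t : Th) (ht : t ∈ hvT) : ∃ h : HV, hnm h = t := by
  simp only [hvT, List.mem_append, List.mem_flatMap, List.mem_cons, List.not_mem_nil,
    or_false] at ht
  rcases ht with ⟨a, _, b, _, c, _, rfl | rfl⟩ | ⟨u, _, v, _, rfl | rfl | rfl | rfl⟩
  · exact ⟨.s ![a, b, c], rfl⟩
  · exact ⟨.ls ![a, b, c], rfl⟩
  · exact ⟨.z 0 u v, rfl⟩
  · exact ⟨.z 1 u v, rfl⟩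
  · exact ⟨.z 2 u v, rfl⟩
  · exact ⟨.lz u v, rfl⟩

private theorem vts_hnm_inj : Function.Injective hnm := by
  have hx : ∀ x y : Q3, x 0 = y 0 → x 1 = y 1 → x 2 = y 2 → x = y := by
    intro x y h0 h1 h2
    funext i
    fin_cases i
    · exact h0
    · exact h1
    · exact h2
  intro h h' e
  have e11 := congrArg (fun t : Th => t.1.1) e
  rcases h with x | ⟨j, u, v⟩ | x | ⟨u, v⟩ <;> rcases h' with x' | ⟨j', u', v'⟩ | x' | ⟨u', v'⟩ <;>
    first | (exfalso; simp [hnm] at e11; done) | skip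
  all_goals simp only [hnm, Prod.mk.injEq, true_and, and_true] at e
  · rw [hx x x' e.1 e.2.1 e.2.2]
  · obtain ⟨h1, h2, h3⟩ := e
    rw [Fin.ext h1, h2, h3]
  · rw [hx x x' e.1 e.2.1 e.2.2]
  · rw [e.1, e.2]

/-- **SC vts** -/
theorem p_vts : S_vts := by
  intro nv M
  refine ⟨?_, ?_, ?_, ?_⟩
  · exact List.Nodup.product (vts_nodup_cubes nv M) (by decide)
  · intro w
    obtain ⟨q, h⟩ := w
    show (cnm q, hnm h) ∈ vertsT nv M
    simp only [vertsT, List.mem_flatMap, List.mem_map, Prod.mk.injEq]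
    refine ⟨cnm q, ?_, hnm h, vts_hnm_mem h, rfl, rfl⟩
    rw [vts_mem_cubes]
    rcases q with ⟨i, k, d⟩ | ⟨k, d⟩ | ⟨k, j, d⟩
    · exact ⟨k.2, Or.inl ⟨rfl, i.2⟩⟩
    · exact ⟨k.2, Or.inr (Or.inl ⟨rfl, rfl⟩)⟩
    · exact ⟨k.2, Or.inr (Or.inr ⟨rfl, j.2⟩)⟩
  · intro t ht
    simp only [vertsT, List.mem_flatMap, List.mem_map] at ht
    obtain ⟨q, hq, h, hh, rfl⟩ := ht
    obtain ⟨h', rfl⟩ := vts_mem_hnm h hh
    rw [vts_mem_cubes] at hq
    obtain ⟨⟨a, i⟩, k, d⟩ := q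
    obtain ⟨hk, ⟨h1, h2⟩ | ⟨h1, h2⟩ | ⟨h1, h2⟩⟩ := hq
    · subst h1
      exact ⟨(.va ⟨i, h2⟩ ⟨k, hk⟩ d, h'), rfl⟩
    · subst h1
      subst h2
      exact ⟨(.cl ⟨k, hk⟩ d, h'), rfl⟩
    · subst h1
      exact ⟨(.lk ⟨k, hk⟩ ⟨i, h2⟩ d, h'), rfl⟩
  · rintro ⟨q, h⟩ ⟨q', h'⟩ e
    simp only [nm, Prod.mk.injEq] at e
    obtain ⟨e1, e2⟩ := e
    rw [vts_hnm_inj e2]
    have : q = q' := by
      have e11 := congrArg (fun t : Tc => t.1.1) e1
      rcases q with ⟨i, k, d⟩ | ⟨k, d⟩ | ⟨k, j, d⟩ <;>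
        rcases q' with ⟨i', k', d'⟩ | ⟨k', d'⟩ | ⟨k', j', d'⟩ <;>
        first | (exfalso; simp [cnm] at e11; done) | skip
      all_goals simp only [cnm, Prod.mk.injEq, true_and] at e1
      · obtain ⟨h1, h2, h3⟩ := e1
        rw [Fin.ext h1, Fin.ext h2, h3]
      · obtain ⟨h2, h3⟩ := e1
        rw [Fin.ext h2, h3]
      · obtain ⟨h1, h2, h3⟩ := e1
        rw [Fin.ext h1, Fin.ext h2, h3]
    rw [this]

end SDich.SC
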