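import Pool.Agent.Lib.MP_e7d961_lc.SC.Stm

/-!
[fpc] the code of the graph of an instance is computed in polynomial time.
-/

namespace SDich.SC

open Finset HerCo CookLevin

section

variable {α : Type} [Enc α]

private theorem fpc_row {N a p b p' : α → ℕ} (hN : FP .poly N) (ha : FP .poly a)
    (hp : FP .poly p) (hb : FP .poly b) (hp' : FP .poly p') :
    FP .poly (fun t => rowD (N t) (a t) (p t) (b t) (p' t)) := by
  unfold rowD
  fun_prop

private theorem fpc_in (h : S_fpr) {T : α → List (ℕ × ℕ × ℕ)} {vs : α → List Tn}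
    {N a p b p' : α → ℕ} (hT : FP .poly T) (hvs : FP .poly vs) (hN : FP .poly N)
    (ha : FP .poly a) (hp : FP .poly p) (hb : FP .poly b) (hp' : FP .poly p') :
    FP .poly (fun t => if (actT ((vs t).getD (a t) dn).2 (p t) &&
      decide (rvT (T t) ((vs t).getD (a t) dn) (p t) = ((vs t).getD (b t) dn, p' t))) &&
      (decide (a t < b t) || (decide (a t = b t) && decide (p t ≤ p' t)))
        then rowD (N t) (a t) (p t) (b t) (p' t) else []) := by
  have hw : FP .poly (fun t => (vs t).getD (a t) dn) := by fun_prop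
  have hw' : FP .poly (fun t => (vs t).getD (b t) dn) := by fun_prop
  obtain ⟨h1, h2⟩ := h α T (fun t => (vs t).getD (a t) dn) p hT hw hp
  have h3 := fpc_row hN ha hp hb hp'
  fun_prop

end

theorem p_fpc : S_fpc := by
  intro hv hr α _ nv T hnv hT
  have hl : FP .poly (fun a => (T a).length) := by fun_prop
  have hvs : FP .poly (fun a => vertsT (nv a) (T a).length) := hv α nv _ hnv hl
  unfold theCode2 codeD
  beta_reduce
  have hN : FP .poly (fun a => (vertsT (nv a) (T a).length).length) := FP.length hvs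
  have h0 : FP .poly (fun a => List.replicate (vertsT (nv a) (T a).length).length true) := by
    fun_prop
  refine FP.append h0 (FP.cons (FP.const false) ?_)
  refine FP.flatMap (by fun_prop) (FP.flatMap (FP.const _) (FP.flatMap ?_ (FP.flatMap
    (FP.const _) ?_)))
  · exact (FP.range hN).comp (by fun_prop)
  · exact fpc_in hr (T := fun q : (((α × ℕ) × ℕ) × ℕ) × ℕ => T q.1.1.1.1)
      (vs := fun q => vertsT (nv q.1.1.1.1) (T q.1.1.1.1).length)
      (N := fun q => (vertsT (nv q.1.1.1.1) (T q.1.1.1.1).length).length)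
      (a := fun q => q.1.1.1.2) (p := fun q => q.1.1.2) (b := fun q => q.1.2)
      (p' := fun q => q.2) (by fun_prop) (hvs.comp (f := fun q : (((α × ℕ) × ℕ) × ℕ) × ℕ =>
        q.1.1.1.1) (by fun_prop)) (hN.comp (f := fun q : (((α × ℕ) × ℕ) × ℕ) × ℕ =>
        q.1.1.1.1) (by fun_prop)) (by fun_prop) (by fun_prop) (by fun_prop) (by fun_prop)

end SDich.SC
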