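import Pool.Agent.Lib.MP_e7d961_lc.SC.Stm

/-!
Piece `p1c` (`MP_e7d961_lc`, the graph `HC`): nodes of odd pairs have the value zero.
-/

namespace SDich.SC

open Finset HerCo CookLevin N68a2faeb

/-- The bit of an edge `sm x b`. -/
private def ebit : HE → Bool
  | .sm _ b => b
  | _ => false

/-- The ends of an edge of `HC`. -/
private def eh (e : HE) : Multiset HV := HC.ends e

private theorem deg6 (hd : S_hdeg) (h : HV) (h6 : HC.deg h = 6) : ∃ x, h = .s x := by
  obtain ⟨h1, h2, h3, h4⟩ := hd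
  cases h with
  | s x => exact ⟨x, rfl⟩
  | z j u v =>
    have := h2 j u v
    have hj : (j : ℕ) < 3 := j.2
    omega
  | ls x => have := h3 x; omega
  | lz u v => have := h4 u v; omega

private theorem edge_sm {V : Type} [Fintype V] (hp : S_p1d) (hd : S_hdeg) (S : SimpleGraph V)
    (f : V → HV) (γ : V → V → HE) (hc : Cvs S f γ) (a b : V) (hab : CA S a b) (x : Q3)
    (hx : x ≠ o3) (hfa : f a = .s x) : f b = .s x ∧ ∃ c, γ a b = .sm ⟨x, hx⟩ c := by
  obtain ⟨y, hy⟩ : ∃ y, f b = .s y := by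
    refine deg6 hd _ ?_
    rw [← hp V S f γ hc b]
    exact hab.2.2
  have he : eh (γ a b) = ({f a, f b} : Multiset HV) ∨
      (eh (γ a b) = ({f a} : Multiset HV) ∧ f b = f a) := hc.ends a b hab.1
  rw [hfa, hy] at he
  have hm : ∀ t ∈ eh (γ a b), t = .s x ∨ t = .s y := by
    intro t ht
    rcases he with he | ⟨he, -⟩
    · rw [he] at ht
      simpa using ht
    · rw [he] at ht
      left
      simpa using ht
  have hxm : (HV.s x) ∈ eh (γ a b) := by
    rcases he with he | ⟨he, -⟩ <;> rw [he] <;> simp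
  rcases hg : γ a b with ⟨j, x'⟩ | x' | ⟨u, v⟩ | ⟨j, u, v⟩ | _ | ⟨x', c⟩
  · rw [hg] at hm
    have := hm (zc j x') (by
      change zc j x' ∈ ({HV.s x', zc j x'} : Multiset HV)
      simp)
    simp [zc] at this
  · rw [hg] at hm
    have := hm (.ls x') (by
      change HV.ls x' ∈ ({HV.s x', HV.ls x'} : Multiset HV)
      simp)
    simp at this
  · rw [hg] at hm
    have := hm (.lz u v) (by
      change HV.lz u v ∈ ({HV.z 2 u v, HV.lz u v} : Multiset HV)
      simp)
    simp at this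
  · rw [hg] at hm
    have := hm (.z j u v) (by
      change HV.z j u v ∈ (if j = 0 then ({HV.z j u v} : Multiset HV)
        else ({HV.z j u v, HV.z j u v} : Multiset HV))
      by_cases h : j = 0
      · rw [if_pos h]; simp
      · rw [if_neg h]; simp)
    simp at this
  · rw [hg] at hxm
    exfalso
    apply hx
    change HV.s x ∈ ({HV.s o3, HV.s o3} : Multiset HV) at hxm
    simpa using hxm
  · rw [hg] at hxm he
    have hx' : x = x'.1 := by
      change HV.s x ∈ ({HV.s x'.1} : Multiset HV) at hxm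
      simpa using hxm
    constructor
    · rcases he with he | ⟨-, he⟩
      · exfalso
        change ({HV.s x'.1} : Multiset HV) = ({HV.s x, HV.s y} : Multiset HV) at he
        have := congrArg Multiset.card he
        simp at this
      · rw [hy, he]
    · refine ⟨c, ?_⟩
      congr 1
      exact Subtype.ext hx'.symm

/-- The piece `p1c`. -/
theorem p_p1c : S_p1c := by
  intro hs2 hp hd V _ S f γ hc a b hab hodd
  obtain ⟨x, hx⟩ : ∃ x, f a = .s x := by
    refine deg6 hd _ ?_
    rw [← hp V S f γ hc a]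
    exact hab.2.1
  rw [hx]
  change x = o3
  by_contra hne
  refine hs2 (V × V) (lnk S) (fun p => CA S p.1 p.2 ∧ f p.1 = .s x) (fun p => ebit (γ p.1 p.2))
    ?_ (a, b) ⟨hab, hx⟩ hodd
  rintro ⟨u1, u2⟩ ⟨v1, v2⟩ π ⟨h1, h2, h3⟩ ⟨h4, h5⟩
  simp only at h1 h2 h3 h4 h5 ⊢
  obtain ⟨k1, c, k2⟩ := edge_sm hp hd S f γ hc u1 u2 h1 x hne h5
  rcases h3 with ⟨rfl, rfl, rfl⟩ | ⟨rfl, rfl, h6⟩
  · refine ⟨⟨h2, k1⟩, ?_⟩
    rw [hc.symm v2 v1 h1.1]
    simp
  · refine ⟨⟨h2, h5⟩, ?_⟩
    obtain ⟨-, c', k3⟩ := edge_sm hp hd S f γ hc v1 v2 h2 x hne h5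
    rw [k2, k3]
    simp only [ebit, Bool.xor_true]
    by_contra hcc
    have hcc' : c' = c := by
      revert hcc
      cases c <;> cases c' <;> simp
    subst hcc'
    have hl := hc.loc v1 (.sm ⟨x, hne⟩ c')
    have h7 : (HC.ends (.sm ⟨x, hne⟩ c')).count (f v1) = 1 := by
      rw [h5]
      change ({HV.s x} : Multiset HV).count (HV.s x) = 1
      simp
    rw [h7] at hl
    have h8 := Finset.card_le_one.1 hl.le v2
      (by simp only [Finset.mem_filter, Finset.mem_univ, true_and]; exact ⟨h2.1, k3⟩) u2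
      (by simp only [Finset.mem_filter, Finset.mem_univ, true_and]; exact ⟨h1.1, k2⟩)
    exact h6 h8

end SDich.SC
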