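import Pool.Agent.Lib.MP_e7d961_lc.SC.Stm

/-!
Piece `xx` (`MP_e7d961_lc`): the values of a solution satisfy the conditions.
-/

namespace SDich.SC

open Finset HerCo CookLevin

private theorem xx_f1 (i j : Fin 3) (h : i ≠ j) (h2 : i ≠ j + 1 + 1) : i = j + 1 := by
  revert i j h h2; decide

private theorem xx_f2 (i j : Fin 3) (h : i ≠ j) : i ≠ j + 2 + 1 := by
  revert i j h; decide

private theorem xx_f3 (i j : Fin 3) (h : i ≠ j + 2) (h2 : i ≠ j + 1) : i = j := by
  revert i j h h2; decide

theorem p_xx : S_xx := by
  intro nv M occ t ht
  refine ⟨?_, ?_, ?_, ?_⟩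
  · intro i k d
    simp [isC, XX]
  · intro k d
    have h := ht k
    simp only [isE, XX]
    revert h
    cases t (occ k 0) <;> cases t (occ k 1) <;> cases t (occ k 2) <;> simp [One]
  · intro q x p
    cases q with
    | va i k d =>
      simp only [crv]
      split_ifs <;> rfl
    | cl k d =>
      simp only [crv]
      split_ifs <;> rfl
    | lk k j d => rfl
  · intro q j i hij
    cases q with
    | va i' k d =>
      simp only [pt]
      split_ifs with h
      · simp only [XX]
        split_ifs with h2
        · rw [h]
        · rw [xx_f1 i j hij h2, h]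
      · rfl
    | cl k d =>
      simp only [pt, XX]
      rw [if_neg (xx_f2 i j hij)]
    | lk k j' d =>
      simp only [pt]
      split_ifs with h h2
      · subst h
        simp only [XX]
        rw [if_neg hij]
      · subst h2
        simp only [XX]
        split_ifs with h3
        · rfl
        · rw [xx_f3 i j' hij h3]
      · rfl

end SDich.SC
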